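import Mathlib
import Pool.Agent.N183.U9.Stm

/-!
# Project RB (helper183): descent of combinations from `ℂ` to `K`, and odd forms

Author: helper558 (ODD after the proof of `inv_of_kill` in `Pool.Agent.Y90.Tor`).
-/

set_option autoImplicit false

namespace Pool.Agent.N558.RBDESC

open Module Pool.Agent.Y90 Pool.Agent.N183.U8 Pool.Agent.N183.U9 TensorProduct
open Pool.Agent.H204R3.SP (Kills bil2)

/-- (ODD) -/
theorem ODD : S_ODD := by
  intro V _ _ κ _ _ D φ hD h hodd
  have hDD : ∀ u, D (D u) = u := fun u => by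
    rw [← Module.End.mul_apply, hD, Module.End.one_apply]
  ext v
  let P : κ → V := fun k => (1 / 2 : ℂ) • (v k + D (v k))
  let Q : κ → V := fun k => (1 / 2 : ℂ) • (v k - D (v k))
  have h2 : v = P + Q := by
    funext k
    rw [Pi.add_apply]
    change _ = (1 / 2 : ℂ) • (v k + D (v k)) + (1 / 2 : ℂ) • (v k - D (v k))
    module
  rw [h2, MultilinearMap.map_add_univ, MultilinearMap.zero_apply]
  refine Finset.sum_eq_zero fun s _ => ?_
  let w : κ → V := s.piecewise P Q
  change φ w = 0
  by_contra h0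
  have h4 : ∀ k, D (w k) = (if k ∈ s then (1 : ℂ) else -1) • w k := by
    intro k
    by_cases hk : k ∈ s
    · simp only [w, Finset.piecewise_eq_of_mem _ _ _ hk, if_pos hk]
      change D ((1 / 2 : ℂ) • (v k + D (v k))) = (1 : ℂ) • (1 / 2 : ℂ) • (v k + D (v k))
      rw [map_smul, map_add, hDD]
      module
    · simp only [w, Finset.piecewise_eq_of_notMem _ _ _ hk, if_neg hk]
      change D ((1 / 2 : ℂ) • (v k - D (v k))) = (-1 : ℂ) • (1 / 2 : ℂ) • (v k - D (v k))
      rw [map_smul, map_sub, hDD]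
      module
  have h5 := h w
  have h6 : ∀ k, φ (Function.update w k (D (w k))) = (if k ∈ s then (1 : ℂ) else -1) * φ w := by
    intro k
    rw [h4, MultilinearMap.map_update_smul, Function.update_eq_self, smul_eq_mul]
  rw [Finset.sum_congr rfl (fun k _ => h6 k), ← Finset.sum_mul] at h5
  have h7 := (mul_eq_zero.1 h5).resolve_right h0
  rw [Finset.sum_ite, Finset.sum_const, Finset.sum_const, nsmul_eq_mul, nsmul_eq_mul] at h7
  have h8 : ((Finset.univ.filter (fun k => k ∈ s)).card : ℂ) =
      ((Finset.univ.filter (fun k => ¬k ∈ s)).card : ℂ) := by linear_combination h7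
  have h9 : (Finset.univ.filter (fun k => k ∈ s)).card =
      (Finset.univ.filter (fun k => ¬k ∈ s)).card := by exact_mod_cast h8
  have h10 := Finset.card_filter_add_card_filter_not (s := (Finset.univ : Finset κ))
    (fun k => k ∈ s)
  rw [Finset.card_univ, ← h9] at h10
  rw [← h10] at hodd
  exact (Nat.not_odd_iff_even.2 (Even.add_self _)) hodd

section desc

variable {K : Type} [Field K] [CharZero K] {H : Type} [AddCommGroup H] [Module ℚ H]
  [FiniteDimensional ℚ H] {κ : Type} [Fintype κ] [DecidableEq κ]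

/-- base change of a multilinear form -/
theorem base (r : MultilinearMap ℚ (fun _ : κ => H) ℚ) :
    ∃ r' : MultilinearMap K (fun _ : κ => K ⊗[ℚ] H) K,
      ∀ v : κ → H, r' (fun k => 1 ⊗ₜ v k) = ((r v : ℚ) : K) := by
  let b := Module.finBasis ℚ H
  let bK := Algebra.TensorProduct.basis K b
  let r' : MultilinearMap K (fun _ : κ => K ⊗[ℚ] H) K :=
    ∑ I : κ → Fin (finrank ℚ H), ((r (fun k => b (I k)) : ℚ) : K) •
      (MultilinearMap.mkPiAlgebra K κ K).compLinearMap fun k => bK.coord (I k)
  refine ⟨r', fun v => ?_⟩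
  let A : MultilinearMap ℚ (fun _ : κ => H) K :=
    (r'.restrictScalars ℚ).compLinearMap fun _ => (TensorProduct.mk ℚ K H 1)
  let B : MultilinearMap ℚ (fun _ : κ => H) K := (Algebra.linearMap ℚ K).compMultilinearMap r
  have hAB : A = B := by
    refine Module.Basis.ext_multilinear (fun _ => b) fun J => ?_
    change r' (fun k => (1 : K) ⊗ₜ b (J k)) = algebraMap ℚ K (r fun k => b (J k))
    simp only [r', MultilinearMap.sum_apply, MultilinearMap.smul_apply,
      MultilinearMap.compLinearMap_apply, MultilinearMap.mkPiAlgebra_apply]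
    rw [Finset.sum_eq_single J]
    · have h1 : ∀ k, bK.coord (J k) ((1 : K) ⊗ₜ[ℚ] b (J k)) = 1 := by
        intro k
        have h2 : (1 : K) ⊗ₜ[ℚ] b (J k) = bK (J k) := (Algebra.TensorProduct.basis_apply b _).symm
        rw [h2, Module.Basis.coord_apply, Module.Basis.repr_self, Finsupp.single_eq_same]
      simp only [h1, Finset.prod_const_one, smul_eq_mul, mul_one]
      rfl
    · intro I _ hI
      obtain ⟨k, hk⟩ : ∃ k, I k ≠ J k := by
        by_contra hcon
        push Not at hcon
        exact hI (funext hcon)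
      have h2 : (1 : K) ⊗ₜ[ℚ] b (J k) = bK (J k) := (Algebra.TensorProduct.basis_apply b _).symm
      rw [Finset.prod_eq_zero (Finset.mem_univ k), smul_zero]
      rw [h2, Module.Basis.coord_apply, Module.Basis.repr_self,
        Finsupp.single_eq_of_ne hk]
    · intro h
      exact absurd (Finset.mem_univ _) h
  have h3 := congrArg (fun T : MultilinearMap ℚ (fun _ : κ => H) K => T v) hAB
  exact h3

end desc

/-- (DESC) -/
theorem DESC : S_DESC := by
  intro K _ _ _ H _ _ _ κ _ _ F R hF
  obtain ⟨π, hπ⟩ : ∃ π : ℂ →ₗ[K] K, ∀ x, π (algebraMap K ℂ x) = x := by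
    obtain ⟨π, hπ⟩ := LinearMap.exists_leftInverse_of_injective (Algebra.linearMap K ℂ)
      (LinearMap.ker_eq_bot.2 (algebraMap K ℂ).injective)
    exact ⟨π, fun x => congrArg (fun T : K →ₗ[K] K => T x) hπ⟩
  have key : ∀ G : (κ → H) → ℂ, G ∈ Submodule.span ℂ {g : (κ → H) → ℂ | ∃ r ∈ R,
      g = fun v => ((r v : ℚ) : ℂ)} → ∀ c : ℂ, ∃ F' ∈ Submodule.span K
      {F' : MultilinearMap K (fun _ : κ => K ⊗[ℚ] H) K |
        ∃ r ∈ R, ∀ v : κ → H, F' (fun k => 1 ⊗ₜ v k) = ((r v : ℚ) : K)},
      ∀ v : κ → H, F' (fun k => 1 ⊗ₜ v k) = π (c * G v) := by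
    intro G hG
    induction hG using Submodule.span_induction with
    | mem g hg =>
      obtain ⟨r, hr, rfl⟩ := hg
      intro c
      obtain ⟨r', hr'⟩ := base (K := K) r
      refine ⟨π c • r', Submodule.smul_mem _ _ (Submodule.subset_span ⟨r, hr, hr'⟩), fun v => ?_⟩
      rw [MultilinearMap.smul_apply, hr', smul_eq_mul]
      have h1 : c * ((r v : ℚ) : ℂ) = ((r v : ℚ) : K) • c := by
        rw [Algebra.smul_def, map_ratCast, mul_comm]
      rw [h1, map_smul, smul_eq_mul, mul_comm]
    | zero =>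
      intro c
      exact ⟨0, Submodule.zero_mem _, fun v => by simp⟩
    | add x y _ _ hx hy =>
      intro c
      obtain ⟨F1, h1, h1'⟩ := hx c
      obtain ⟨F2, h2, h2'⟩ := hy c
      refine ⟨F1 + F2, Submodule.add_mem _ h1 h2, fun v => ?_⟩
      rw [MultilinearMap.add_apply, h1', h2', Pi.add_apply, mul_add, map_add]
    | smul a x _ hx =>
      intro c
      obtain ⟨F1, h1, h1'⟩ := hx (c * a)
      refine ⟨F1, h1, fun v => ?_⟩
      rw [h1', Pi.smul_apply, smul_eq_mul, mul_assoc]
  obtain ⟨F', hF', h⟩ := key _ hF 1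
  have hFF : F = F' := by
    refine Module.Basis.ext_multilinear
      (fun _ => Algebra.TensorProduct.basis K (Module.finBasis ℚ H)) fun J => ?_
    have h1 := h fun k => Module.finBasis ℚ H (J k)
    rw [one_mul, hπ] at h1
    simp only [Algebra.TensorProduct.basis_apply]
    exact h1.symm
  rw [hFF]
  exact hF'

end Pool.Agent.N558.RBDESC
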