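import Pool.Agent.N558.BTB0

/-!
# BT/B: the real structure (helper558)
-/

set_option autoImplicit false
set_option linter.unusedSimpArgs false

namespace Pool.Agent.N558.BTB

open Matrix Pool.Agent.N208.BT

variable {n : ℕ} {𝔯 : Submodule ℝ (M n)} {u v : V n}

/-- the hypotheses -/
structure Hy (𝔯 : Submodule ℝ (M n)) (u v : V n) : Prop where
  rr : RR 𝔯
  uu : hf u u = 0
  vv : hf v v = 0
  uv : hf u v = 1
  vu : hf v u = 1
  a : ∀ y ∈ 𝔯, hf (y *ᵥ v) v = 0
  b : ∀ y ∈ 𝔯, hf (y *ᵥ u) u = 0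
  c : ∀ y ∈ 𝔯, N u (y *ᵥ v - hf (y *ᵥ v) u • v) ∈ 𝔯
  d : ∀ y ∈ 𝔯, N v (y *ᵥ u - hf (y *ᵥ u) v • u) ∈ 𝔯

lemma Hy.symm (H : Hy 𝔯 u v) : Hy 𝔯 v u := ⟨H.rr, H.vv, H.uu, H.vu, H.uv, H.b, H.a, H.d, H.c⟩

/-- the vectors orthogonal to `u`, `v` with `N u w` in the algebra -/
structure Wp (𝔯 : Submodule ℝ (M n)) (u v w : V n) : Prop where
  u0 : hf w u = 0
  v0 : hf w v = 0
  m : N u w ∈ 𝔯

lemma Wp.u0' {w : V n} (h : Wp 𝔯 u v w) : hf u w = 0 := by rw [← hf_star, h.u0, star_zero]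

lemma Wp.v0' {w : V n} (h : Wp 𝔯 u v w) : hf v w = 0 := by rw [← hf_star, h.v0, star_zero]

lemma Wp.add {w w' : V n} (h : Wp 𝔯 u v w) (h' : Wp 𝔯 u v w') : Wp 𝔯 u v (w + w') :=
  ⟨by rw [hf_add_left, h.u0, h'.u0, add_zero], by rw [hf_add_left, h.v0, h'.v0, add_zero],
    by rw [N_add]; exact 𝔯.add_mem h.m h'.m⟩

lemma Wp.smul {w : V n} (h : Wp 𝔯 u v w) (c : ℝ) : Wp 𝔯 u v ((c : ℂ) • w) :=
  ⟨by rw [hf_smul_left, h.u0, mul_zero], by rw [hf_smul_left, h.v0, mul_zero],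
    by rw [N_smul]; exact 𝔯.smul_mem c h.m⟩

lemma Wp.zero : Wp 𝔯 u v 0 :=
  ⟨hf_zero_left u, hf_zero_left v, by
    have : N u (0 : V n) = 0 := by
      refine mat_ext fun x => ?_
      rw [N_mulVec, hf_zero_right, zero_mulVec, smul_zero, zero_smul, sub_zero]
    rw [this]
    exact 𝔯.zero_mem⟩

lemma Hy.real (H : Hy 𝔯 u v) {w w' : V n} (h : Wp 𝔯 u v w) (h' : Wp 𝔯 u v w') :
    hf w w' = hf w' w := by
  have h1 := H.a _ (H.rr.br _ h.m _ h'.m)
  simp only [brk_mulVec, N_mulVec, hf_sub_left, hf_smul_left, H.vu, H.uv, H.uu, h.u0, h'.u0, h.v0,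
    h'.v0, h.v0', h'.v0', h.u0', h'.u0'] at h1
  linear_combination h1

lemma Hy.wp (H : Hy 𝔯 u v) {y : M n} (hy : y ∈ 𝔯) : Wp 𝔯 u v (y *ᵥ v - hf (y *ᵥ v) u • v) :=
  ⟨by rw [hf_sub_left, hf_smul_left, H.vu]; ring,
    by rw [hf_sub_left, hf_smul_left, H.vv, H.a y hy]; ring, H.c y hy⟩

lemma Hy.exists_ne (H : Hy 𝔯 u v) : ∃ w, Wp 𝔯 u v w ∧ w ≠ 0 := by
  by_contra hcon
  push Not at hcon
  have hW : ∀ y ∈ 𝔯, y *ᵥ v = hf (y *ᵥ v) u • v := fun y hy => sub_eq_zero.1 (hcon _ (H.wp hy))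
  have hv : v ≠ 0 := by
    rintro rfl
    have := H.vu
    rw [hf_zero_left] at this
    exact zero_ne_one this
  rcases H.rr.irr (Submodule.span ℂ {v}) (by
    intro X hX x hx
    obtain ⟨c, rfl⟩ := Submodule.mem_span_singleton.1 hx
    rw [mulVec_smul, hW X hX]
    exact Submodule.smul_mem _ _ (Submodule.smul_mem _ _ (Submodule.mem_span_singleton_self v)))
    with h | h
  · exact hv (Submodule.span_singleton_eq_bot.1 h)
  · have h1 : u ∈ Submodule.span ℂ {v} := by rw [h]; exact Submodule.mem_top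
    obtain ⟨c, hc⟩ := Submodule.mem_span_singleton.1 h1
    have h2 := H.uv
    rw [← hc, hf_smul_left, H.vv, mul_zero] at h2
    exact zero_ne_one h2

lemma ofReal_re_of_star {z : ℂ} (h : star z = z) : ((z.re : ℝ) : ℂ) = z :=
  Complex.conj_eq_iff_re.1 h

lemma Hy.sub (H : Hy 𝔯 u v) {w w' : V n} (h : Wp 𝔯 u v w) (hw : w ≠ 0) (h' : Wp 𝔯 v u w') :
    Wp 𝔯 u v w' := by
  set Y : M n := N u w * N v w' - N v w' * N u w with hY
  have hYm : Y ∈ 𝔯 := H.rr.br _ h.m _ h'.m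
  have e1 : Y *ᵥ u = (-hf w' w) • u := by
    rw [hY]
    simp only [brk_mulVec, N_mulVec, hf_sub_left, hf_smul_left, H.vu, H.uv, H.uu, h.u0, h'.u0, h.v0,
      h'.v0, h.v0', h'.v0', h.u0', h'.u0']
    module
  have e2 : Y *ᵥ w = hf w w • w' - hf w w' • w := by
    rw [hY]
    simp only [brk_mulVec, N_mulVec, hf_sub_left, hf_smul_left, H.vu, H.uv, H.uu, h.u0, h'.u0, h.v0,
      h'.v0, h.v0', h'.v0', h.u0', h'.u0']
    module
  have hs : star (hf w w) = hf w w := hf_star w w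
  have hs0 : hf w w ≠ 0 := neg_def H.uu H.vv H.uv h.u0 h.v0 hw
  have ht : star (hf w w') = hf w' w := hf_star w w'
  have h1 : Wp 𝔯 u v (hf w w • w' + (-(2 * hf w w')) • w) := by
    refine ⟨?_, ?_, ?_⟩
    · rw [hf_add_left, hf_smul_left, hf_smul_left, h.u0, h'.v0]
      ring
    · rw [hf_add_left, hf_smul_left, hf_smul_left, h.v0, h'.u0]
      ring
    · have h2 := H.rr.br _ hYm _ h.m
      rw [brk_N (H.rr.sk _ hYm) e1, e2] at h2
      have e3 : hf w w • w' - hf w w' • w + star (-hf w' w) • w =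
          hf w w • w' + (-(2 * hf w w')) • w := by
        rw [star_neg, hf_star]
        module
      rwa [e3] at h2
  have h2 := H.real h1 h
  rw [hf_add_left, hf_add_right, hf_smul_left, hf_smul_left, hf_smul_right, hf_smul_right, hs,
    star_neg, star_mul', ht] at h2
  have e2' : star (2 : ℂ) = 2 := by simp
  rw [e2'] at h2
  have h3 : hf w' w = hf w w' := by
    have h4 : hf w w * (hf w' w - hf w w') = 0 := by linear_combination (1 / 3 : ℂ) * h2
    exact sub_eq_zero.1 ((mul_eq_zero.1 h4).resolve_left hs0)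
  have hr1 : (((hf w w).re : ℝ) : ℂ) = hf w w := ofReal_re_of_star hs
  have hr2 : (((hf w w').re : ℝ) : ℂ) = hf w w' := ofReal_re_of_star (by rw [ht, h3])
  have h4 := (h1.add (h.smul (2 * (hf w w').re))).smul (1 / (hf w w).re)
  have e4 : ((1 / (hf w w).re : ℝ) : ℂ) • (hf w w • w' + (-(2 * hf w w')) • w +
      ((2 * (hf w w').re : ℝ) : ℂ) • w) = w' := by
    push_cast
    rw [hr1, hr2]
    have : hf w w • w' + (-(2 * hf w w')) • w + (2 * hf w w') • w = hf w w • w' := by module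
    rw [this, smul_smul, one_div, inv_mul_cancel₀ hs0, one_smul]
  rwa [e4] at h4

lemma Hy.iff (H : Hy 𝔯 u v) (w : V n) : Wp 𝔯 u v w ↔ Wp 𝔯 v u w := by
  obtain ⟨w1, h1, h1'⟩ := H.exists_ne
  obtain ⟨w2, h2, h2'⟩ := H.symm.exists_ne
  exact ⟨fun h => H.symm.sub h2 h2' h, fun h => H.sub h1 h1' h⟩

lemma Hy.skew (H : Hy 𝔯 u v) {y : M n} (hy : y ∈ 𝔯) (p q : V n) : hf (y *ᵥ p) q = -hf p (y *ᵥ q) := by
  linear_combination H.rr.sk y hy p q

lemma Hy.alpha (H : Hy 𝔯 u v) {y : M n} (hy : y ∈ 𝔯) : hf (y *ᵥ u) v = -star (hf (y *ᵥ v) u) := by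
  rw [H.skew hy, hf_star]

/-- the decomposition of `y v` -/
lemma Hy.yv (y : M n) : y *ᵥ v = (y *ᵥ v - hf (y *ᵥ v) u • v) + hf (y *ᵥ v) u • v := by
  rw [sub_add_cancel]

lemma Hy.beta_brk (H : Hy 𝔯 u v) {y y' : M n} (hy : y ∈ 𝔯) (hy' : y' ∈ 𝔯) :
    star (hf ((y * y' - y' * y) *ᵥ v) u) = hf ((y * y' - y' * y) *ᵥ v) u := by
  set p := y *ᵥ v - hf (y *ᵥ v) u • v with hp
  set p' := y' *ᵥ v - hf (y' *ᵥ v) u • v with hp'
  set q := y *ᵥ u - hf (y *ᵥ u) v • u with hq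
  set q' := y' *ᵥ u - hf (y' *ᵥ u) v • u with hq'
  have wp : Wp 𝔯 u v p := H.wp hy
  have wp' : Wp 𝔯 u v p' := H.wp hy'
  have wq : Wp 𝔯 u v q := (H.iff _).2 (H.symm.wp hy)
  have wq' : Wp 𝔯 u v q' := (H.iff _).2 (H.symm.wp hy')
  have e1 : y *ᵥ v = p + hf (y *ᵥ v) u • v := by rw [hp, sub_add_cancel]
  have e2 : y' *ᵥ v = p' + hf (y' *ᵥ v) u • v := by rw [hp', sub_add_cancel]
  have e3 : y *ᵥ u = q + hf (y *ᵥ u) v • u := by rw [hq, sub_add_cancel]
  have e4 : y' *ᵥ u = q' + hf (y' *ᵥ u) v • u := by rw [hq', sub_add_cancel]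
  have key : hf ((y * y' - y' * y) *ᵥ v) u = hf p q' - hf p' q := by
    rw [brk_mulVec, hf_sub_left, H.skew hy (y' *ᵥ v) u, H.skew hy' (y *ᵥ v) u]
    have a1 := H.alpha hy
    have a2 := H.alpha hy'
    generalize hb : hf (y *ᵥ v) u = β at *
    generalize hb' : hf (y' *ᵥ v) u = β' at *
    rw [a1] at e3
    rw [a2] at e4
    rw [e1, e2, e3, e4]
    simp only [hf_add_left, hf_add_right, hf_smul_left, hf_smul_right, H.vu, wp.u0, wp'.u0,
      wq.v0', wq'.v0', star_neg, star_star]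
    ring
  rw [key, star_sub, hf_star, hf_star, H.real wp wq', H.real wp' wq]

lemma Hy.beta (H : Hy 𝔯 u v) {y : M n} (hy : y ∈ 𝔯) : star (hf (y *ᵥ v) u) = hf (y *ᵥ v) u := by
  have h1 := H.rr.perf hy
  clear hy
  induction h1 using Submodule.span_induction with
  | mem Z hZ =>
    obtain ⟨X, hX, Y, hY, rfl⟩ := hZ
    exact H.beta_brk hX hY
  | zero => rw [zero_mulVec, hf_zero_left, star_zero]
  | add Z Z' _ _ ih ih' =>
    rw [add_mulVec, hf_add_left, star_add, ih, ih']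
  | smul c Z _ ih =>
    rw [smul_mulVec, ← Complex.coe_smul, hf_smul_left, star_mul', ih]
    congr 1
    exact Complex.conj_ofReal c

/-- the real form -/
def VR (𝔯 : Submodule ℝ (M n)) (u v x : V n) : Prop :=
  ∃ (a b : ℝ) (w : V n), Wp 𝔯 u v w ∧ x = (a : ℂ) • u + (b : ℂ) • v + w

lemma VR.add {x x' : V n} (h : VR 𝔯 u v x) (h' : VR 𝔯 u v x') : VR 𝔯 u v (x + x') := by
  obtain ⟨a, b, w, hw, rfl⟩ := h
  obtain ⟨a', b', w', hw', rfl⟩ := h'
  refine ⟨a + a', b + b', w + w', hw.add hw', ?_⟩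
  push_cast
  module

lemma VR.smul {x : V n} (h : VR 𝔯 u v x) (c : ℝ) : VR 𝔯 u v ((c : ℂ) • x) := by
  obtain ⟨a, b, w, hw, rfl⟩ := h
  refine ⟨c * a, c * b, (c : ℂ) • w, hw.smul c, ?_⟩
  push_cast
  module

lemma VR.neg {x : V n} (h : VR 𝔯 u v x) : VR 𝔯 u v (-x) := by
  have := h.smul (-1)
  push_cast at this
  rwa [neg_one_smul] at this

lemma VR.sub {x x' : V n} (h : VR 𝔯 u v x) (h' : VR 𝔯 u v x') : VR 𝔯 u v (x - x') := by
  rw [sub_eq_add_neg]
  exact h.add h'.neg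

lemma Hy.VR_real (H : Hy 𝔯 u v) {x x' : V n} (h : VR 𝔯 u v x) (h' : VR 𝔯 u v x') :
    hf x x' = hf x' x := by
  obtain ⟨a, b, w, hw, rfl⟩ := h
  obtain ⟨a', b', w', hw', rfl⟩ := h'
  have e1 : star (a : ℂ) = a := Complex.conj_ofReal a
  have e2 : star (b : ℂ) = b := Complex.conj_ofReal b
  have e3 : star (a' : ℂ) = a' := Complex.conj_ofReal a'
  have e4 : star (b' : ℂ) = b' := Complex.conj_ofReal b'
  simp only [hf_add_left, hf_add_right, hf_smul_left, hf_smul_right, H.uu, H.vv, H.uv, H.vu, hw.u0,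
    hw.v0, hw'.u0, hw'.v0, hw.u0', hw.v0', hw'.u0', hw'.v0', e1, e2, e3, e4, H.real hw hw']
  ring

lemma Hy.stable (H : Hy 𝔯 u v) {y : M n} (hy : y ∈ 𝔯) {x : V n} (h : VR 𝔯 u v x) :
    VR 𝔯 u v (y *ᵥ x) := by
  have hβ := H.beta hy
  have hβr : (((hf (y *ᵥ v) u).re : ℝ) : ℂ) = hf (y *ᵥ v) u := ofReal_re_of_star hβ
  have hv : VR 𝔯 u v (y *ᵥ v) :=
    ⟨0, (hf (y *ᵥ v) u).re, _, H.wp hy, by
      rw [hβr]
      push_cast
      module⟩
  have hu : VR 𝔯 u v (y *ᵥ u) :=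
    ⟨-(hf (y *ᵥ v) u).re, 0, _, (H.iff _).2 (H.symm.wp hy), by
      push_cast
      rw [hβr, H.alpha hy, hβ]
      module⟩
  have hw : ∀ w, Wp 𝔯 u v w → VR 𝔯 u v (y *ᵥ w) := by
    intro w hw
    have hp := H.wp hy
    have hq : Wp 𝔯 u v (y *ᵥ u - hf (y *ᵥ u) v • u) := (H.iff _).2 (H.symm.wp hy)
    set p := y *ᵥ v - hf (y *ᵥ v) u • v with hpd
    set q := y *ᵥ u - hf (y *ᵥ u) v • u with hqd
    have e1 : y *ᵥ v = p + hf (y *ᵥ v) u • v := by rw [hpd, sub_add_cancel]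
    have e3 : y *ᵥ u = q + hf (y *ᵥ u) v • u := by rw [hqd, sub_add_cancel]
    have f1 : hf (y *ᵥ w) v = -hf p w := by
      rw [H.skew hy, e1, hf_add_right, hf_smul_right, hw.v0, mul_zero, add_zero, H.real hw hp]
    have f2 : hf (y *ᵥ w) u = -hf q w := by
      rw [H.skew hy, e3, hf_add_right, hf_smul_right, hw.u0, mul_zero, add_zero, H.real hw hq]
    have r1 : star (hf p w) = hf p w := by rw [hf_star, H.real hw hp]
    have r2 : star (hf q w) = hf q w := by rw [hf_star, H.real hw hq]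
    -- the third component
    have hZ := H.wp (H.rr.br _ hy _ hw.m)
    have e5 : (y * N u w - N u w * y) *ᵥ v = y *ᵥ w + hf p w • u - hf (y *ᵥ v) u • w := by
      rw [brk_mulVec, N_mulVec, N_mulVec, H.vu, hw.v0']
      have : hf (y *ᵥ v) w = hf p w := by
        rw [e1, hf_add_left, hf_smul_left, hw.v0', mul_zero, add_zero]
      rw [this, one_smul, zero_smul, sub_zero]
      module
    have e6 : hf ((y * N u w - N u w * y) *ᵥ v) u = -hf q w := by
      rw [e5, hf_sub_left, hf_add_left, hf_smul_left, hf_smul_left, H.uu, hw.u0, f2]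
      ring
    rw [e6, e5] at hZ
    have h1 := hZ.add (hw.smul (hf (y *ᵥ v) u).re)
    rw [hβr] at h1
    refine ⟨-(hf p w).re, -(hf q w).re, _, h1, ?_⟩
    push_cast
    rw [ofReal_re_of_star r1, ofReal_re_of_star r2]
    module
  obtain ⟨a, b, w, hww, rfl⟩ := h
  rw [mulVec_add, mulVec_add, mulVec_smul, mulVec_smul]
  exact ((hu.smul a).add (hv.smul b)).add (hw w hww)

/-- every vector is the sum of a real and an imaginary vector -/
lemma Hy.exists_decomp (H : Hy 𝔯 u v) (x : V n) :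
    ∃ p q : V n, VR 𝔯 u v p ∧ VR 𝔯 u v q ∧ x = p + Complex.I • q := by
  have h0 : VR 𝔯 u v 0 := ⟨0, 0, 0, Wp.zero, by simp⟩
  let U : Submodule ℂ (V n) :=
    { carrier := {x | ∃ p q : V n, VR 𝔯 u v p ∧ VR 𝔯 u v q ∧ x = p + Complex.I • q}
      zero_mem' := ⟨0, 0, h0, h0, by simp⟩
      add_mem' := by
        rintro _ _ ⟨p, q, hp, hq, rfl⟩ ⟨p', q', hp', hq', rfl⟩
        exact ⟨p + p', q + q', hp.add hp', hq.add hq', by module⟩
      smul_mem' := by
        rintro c _ ⟨p, q, hp, hq, rfl⟩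
        refine ⟨(c.re : ℂ) • p - (c.im : ℂ) • q, (c.im : ℂ) • p + (c.re : ℂ) • q,
          (hp.smul _).sub (hq.smul _), (hp.smul _).add (hq.smul _), ?_⟩
        conv_lhs => rw [← Complex.re_add_im c]
        have hI : Complex.I * Complex.I = -1 := Complex.I_mul_I
        have : ((c.re : ℂ) + c.im * Complex.I) • (p + Complex.I • q) =
            (c.re : ℂ) • p + ((c.im : ℂ) * (Complex.I * Complex.I)) • q +
              Complex.I • ((c.im : ℂ) • p + (c.re : ℂ) • q) := by module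
        rw [this, hI]
        module }
  have hv : v ∈ U := ⟨v, 0, ⟨0, 1, 0, Wp.zero, by simp⟩, h0, by simp⟩
  have hv0 : v ≠ 0 := by
    rintro rfl
    have := H.vu
    rw [hf_zero_left] at this
    exact zero_ne_one this
  rcases H.rr.irr U (by
    rintro X hX _ ⟨p, q, hp, hq, rfl⟩
    exact ⟨X *ᵥ p, X *ᵥ q, H.stable hX hp, H.stable hX hq, by rw [mulVec_add, mulVec_smul]⟩) with h | h
  · rw [h] at hv
    exact absurd ((Submodule.mem_bot ℂ).1 hv) hv0
  · have : x ∈ U := by rw [h]; exact Submodule.mem_top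
    exact this

lemma Hy.uniq0 (H : Hy 𝔯 u v) {p q : V n} (hp : VR 𝔯 u v p) (hq : VR 𝔯 u v q)
    (h : p + Complex.I • q = 0) : p = 0 ∧ q = 0 := by
  have key : ∀ p', VR 𝔯 u v p' → hf p p' = 0 := by
    intro p' hp'
    have h1 : hf (p + Complex.I • q) p' = 0 := by rw [h, hf_zero_left]
    have h2 : hf p' (p + Complex.I • q) = 0 := by rw [h, hf_zero_right]
    rw [hf_add_left, hf_smul_left] at h1
    rw [hf_add_right, hf_smul_right, H.VR_real hp' hp, H.VR_real hp' hq] at h2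
    have h3 : star Complex.I = -Complex.I := Complex.conj_I
    rw [h3] at h2
    linear_combination (1 / 2 : ℂ) * h1 + (1 / 2 : ℂ) * h2
  have hp0 : p = 0 := by
    refine nondeg fun z => ?_
    obtain ⟨p', q', hp', hq', rfl⟩ := H.exists_decomp z
    rw [hf_add_right, hf_smul_right, key p' hp', key q' hq', mul_zero, add_zero]
  refine ⟨hp0, ?_⟩
  rw [hp0, zero_add] at h
  exact (smul_eq_zero.1 h).resolve_left Complex.I_ne_zero

lemma Hy.uniq (H : Hy 𝔯 u v) {p q p' q' : V n} (hp : VR 𝔯 u v p) (hq : VR 𝔯 u v q)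
    (hp' : VR 𝔯 u v p') (hq' : VR 𝔯 u v q') (h : p + Complex.I • q = p' + Complex.I • q') :
    p = p' ∧ q = q' := by
  have h1 : (p - p') + Complex.I • (q - q') = 0 := by
    have : (p - p') + Complex.I • (q - q') = (p + Complex.I • q) - (p' + Complex.I • q') := by module
    rw [this, h, sub_self]
  obtain ⟨h2, h3⟩ := H.uniq0 (hp.sub hp') (hq.sub hq') h1
  exact ⟨sub_eq_zero.1 h2, sub_eq_zero.1 h3⟩

lemma star_map_mulVec (A : M n) (z : V n) : star (A.map star *ᵥ z) = A *ᵥ star z := by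
  funext i
  show star (∑ j, star (A i j) * z j) = ∑ j, A i j * star (z j)
  rw [star_sum]
  refine Finset.sum_congr rfl fun j _ => ?_
  rw [star_mul', star_star]

/-- the real structure -/
theorem Hy.realType (H : Hy 𝔯 u v) : RealType 𝔯 := by
  choose p q hp hq hpq using H.exists_decomp
  set c : V n → V n := fun x => p x - Complex.I • q x with hc
  have cs : ∀ p' q', VR 𝔯 u v p' → VR 𝔯 u v q' → c (p' + Complex.I • q') = p' - Complex.I • q' := by
    intro p' q' hp' hq'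
    obtain ⟨h1, h2⟩ := H.uniq (hp _) (hq _) hp' hq' (hpq (p' + Complex.I • q')).symm
    rw [hc]
    simp only
    rw [h1, h2]
  have cadd : ∀ x x', c (x + x') = c x + c x' := by
    intro x x'
    have h1 : x + x' = (p x + p x') + Complex.I • (q x + q x') := by
      conv_lhs => rw [hpq x, hpq x']
      module
    rw [h1, cs _ _ ((hp x).add (hp x')) ((hq x).add (hq x')), hc]
    module
  have hI : Complex.I * Complex.I = -1 := Complex.I_mul_I
  have csmul : ∀ (k : ℂ) x, c (k • x) = star k • c x := by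
    intro k x
    have h1 : k • x = ((k.re : ℂ) • p x - (k.im : ℂ) • q x) +
        Complex.I • ((k.im : ℂ) • p x + (k.re : ℂ) • q x) := by
      conv_lhs => rw [hpq x, ← Complex.re_add_im k]
      have : ((k.re : ℂ) + k.im * Complex.I) • (p x + Complex.I • q x) =
          (k.re : ℂ) • p x + ((k.im : ℂ) * (Complex.I * Complex.I)) • q x +
            Complex.I • ((k.im : ℂ) • p x + (k.re : ℂ) • q x) := by module
      rw [this, hI]
      module
    have h2 : star k = (k.re : ℂ) - k.im * Complex.I := by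
      conv_lhs => rw [← Complex.re_add_im k]
      rw [star_add, star_mul']
      have a1 : star ((k.re : ℝ) : ℂ) = k.re := Complex.conj_ofReal _
      have a2 : star ((k.im : ℝ) : ℂ) = k.im := Complex.conj_ofReal _
      have a3 : star Complex.I = -Complex.I := Complex.conj_I
      rw [a1, a2, a3]
      ring
    rw [h1, cs _ _ (((hp x).smul _).sub ((hq x).smul _)) (((hp x).smul _).add ((hq x).smul _)), h2, hc]
    simp only
    have : ((k.re : ℂ) - k.im * Complex.I) • (p x - Complex.I • q x) =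
        (k.re : ℂ) • p x + ((k.im : ℂ) * (Complex.I * Complex.I)) • q x -
          Complex.I • ((k.im : ℂ) • p x + (k.re : ℂ) • q x) := by module
    rw [this, hI]
    module
  have ccomm : ∀ X ∈ 𝔯, ∀ x, c (X *ᵥ x) = X *ᵥ c x := by
    intro X hX x
    have h1 : X *ᵥ x = X *ᵥ p x + Complex.I • (X *ᵥ q x) := by
      conv_lhs => rw [hpq x, mulVec_add, mulVec_smul]
    rw [h1, cs _ _ (H.stable hX (hp x)) (H.stable hX (hq x)), hc]
    simp only
    rw [mulVec_sub, mulVec_smul]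
  have cc : ∀ x, c (c x) = x := by
    intro x
    have h1 : c x = p x + Complex.I • (-q x) := by
      rw [hc]
      module
    rw [h1, cs _ _ (hp x) (hq x).neg, smul_neg, sub_neg_eq_add]
    exact (hpq x).symm
  let L : V n →ₗ[ℂ] V n :=
    { toFun := fun z => c (star z)
      map_add' := fun z z' => by rw [star_add, cadd]
      map_smul' := fun k z => by
        rw [star_smul, csmul, star_star]
        rfl }
  have hC : ∀ z, LinearMap.toMatrix' L *ᵥ z = c (star z) := fun z => by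
    rw [LinearMap.toMatrix'_mulVec]
    rfl
  refine ⟨LinearMap.toMatrix' L, ?_, ?_⟩
  · refine Matrix.isUnit_det_of_right_inverse (B := (LinearMap.toMatrix' L).map star) ?_
    refine mat_ext fun z => ?_
    rw [← mulVec_mulVec, hC, star_map_mulVec, hC, star_star, cc, one_mulVec]
  · intro X hX
    refine mat_ext fun z => ?_
    rw [← mulVec_mulVec, ← mulVec_mulVec, hC, hC, star_map_mulVec, ccomm X hX]

/-- **BT/B.** -/
theorem main : S_B := fun n 𝔯 u v hr huu hvv huv ha hb hc hd =>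
  Hy.realType (u := u) (v := v) ⟨hr, huu, hvv, huv, by rw [← hf_star, huv, star_one], ha, hb, hc, hd⟩

end Pool.Agent.N558.BTB
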