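import Mathlib
import Pool.Agent.R799.Mutant

/-!
# Hermitian matrices over `Λ` : a sufficient condition for isometric pairings
-/

set_option autoImplicit false

namespace Pool.Agent.N558

open LaurentPolynomial Matrix Pool.Agent.R799

/-- the involution of `Λ` -/
noncomputable abbrev bar : Lam →+* Lam := (LaurentPolynomial.invert (R := ℤ) : Lam →+* Lam)

lemma bar_bar (x : Lam) : bar (bar x) = x := involutive_invert x

lemma bar_T (n : ℤ) : bar (T n) = T (-n) := by
  simp [bar]

lemma ev1_bar (x : Lam) : ev1 (bar x) = ev1 x := by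
  induction x using LaurentPolynomial.induction_on' with
  | add p q hp hq => rw [map_add, map_add, map_add, hp, hq]
  | C_mul_T n a =>
    have h : bar (C a) = C a := by simp [bar]
    rw [map_mul, map_mul, map_mul, bar_T, ev1_T, ev1_T, h]

section

variable {m n l : Type*}

lemma conjT_apply (A : Matrix m n Lam) (i : n) (j : m) : conjT A i j = bar (A j i) := rfl

lemma conjT_conjT (A : Matrix m n Lam) : conjT (conjT A) = A := by
  apply Matrix.ext; intro i j
  rw [conjT_apply, conjT_apply, bar_bar]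

lemma conjT_mul [Fintype n] (A : Matrix m n Lam) (B : Matrix n l Lam) :
    conjT (A * B) = conjT B * conjT A := by
  apply Matrix.ext; intro i j
  simp only [conjT_apply, Matrix.mul_apply, map_sum, map_mul]
  exact Finset.sum_congr rfl fun k _ => by ring

lemma conjT_smul (a : Lam) (A : Matrix m n Lam) : conjT (a • A) = bar a • conjT A := by
  apply Matrix.ext; intro i j
  simp [conjT_apply]

lemma conjT_one [DecidableEq n] : conjT (1 : Matrix n n Lam) = 1 := by
  apply Matrix.ext; intro i j
  rw [conjT_apply, Matrix.one_apply, Matrix.one_apply]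
  by_cases h : i = j
  · subst h; simp
  · rw [if_neg h, if_neg (Ne.symm h), map_zero]

lemma conjT_det [Fintype n] [DecidableEq n] (A : Matrix n n Lam) :
    (conjT A).det = bar A.det := by
  unfold conjT
  rw [Matrix.det_transpose]
  exact (RingHom.map_det bar A).symm

lemma conjT_adjugate [Fintype n] [DecidableEq n] (A : Matrix n n Lam) :
    conjT A.adjugate = (conjT A).adjugate := by
  unfold conjT
  rw [← Matrix.adjugate_transpose]
  congr 1
  exact RingHom.map_adjugate bar A

lemma smul_cancel {a : Lam} (ha : a ≠ 0) {A B : Matrix m n Lam} (h : a • A = a • B) : A = B := by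
  apply Matrix.ext; intro i j
  have := congrFun (congrFun h i) j
  simp only [Matrix.smul_apply, smul_eq_mul] at this
  rw [mul_left_cancel₀ ha this]

end

section Iso

variable {ι : Type*} [Fintype ι] [DecidableEq ι]

theorem iso_of_WZ (A A' W Z : Matrix ι ι Lam) (σ h D : Lam) (hA : conjT A = A)
    (hA' : conjT A' = A') (hD : A.det = D) (hD' : A'.det = D) (hD0 : D ≠ 0)
    (hσ0 : σ ≠ 0) (hσ : bar σ = σ) (hWZ : W * Z = σ ^ 2 • (1 : Matrix ι ι Lam))
    (hZW : Z * W = σ ^ 2 • (1 : Matrix ι ι Lam))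
    (hW : conjT W * A * W = σ ^ 2 • A') (hh : 1 - σ ^ 2 = D * h) :
    IsometricPairings A (toOm A)⁻¹ A' (toOm A')⁻¹ := by
  have hs2 : bar (σ ^ 2) = σ ^ 2 := by rw [map_pow, hσ]
  have hs0 : σ ^ 2 ≠ 0 := pow_ne_zero _ hσ0
  have e1 : conjT W * A = A' * Z := by
    apply smul_cancel hs0
    calc σ ^ 2 • (conjT W * A) = conjT W * A * (W * Z) := by rw [hWZ]; simp
      _ = (conjT W * A * W) * Z := by simp only [Matrix.mul_assoc]
      _ = σ ^ 2 • (A' * Z) := by rw [hW]; simp
  have e2 : conjT Z * A' = A * W := by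
    have := congrArg conjT e1
    rw [conjT_mul, conjT_mul, conjT_conjT, hA, hA'] at this
    exact this.symm
  have adjA : A * A.adjugate = D • (1 : Matrix ι ι Lam) := by rw [Matrix.mul_adjugate, hD]
  have adjA' : A' * A'.adjugate = D • (1 : Matrix ι ι Lam) := by rw [Matrix.mul_adjugate, hD']
  have hσD : (1 : Matrix ι ι Lam) - (h * D) • 1 = σ ^ 2 • (1 : Matrix ι ι Lam) := by
    have : (1 : Matrix ι ι Lam) = (1 : Lam) • 1 := by simp
    rw [this, smul_smul, ← sub_smul]
    congr 1
    linear_combination hh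
  refine isometric_of A (toOm A)⁻¹ A' (toOm A')⁻¹ (conjT W) (conjT Z) Z W
    (h • A.adjugate) (h • A'.adjugate) e1 e2 ?_ ?_ 1 1 ?_ ?_ (-(h • A.adjugate)) ?_
  · rw [← conjT_mul, hWZ, conjT_smul, hs2, conjT_one, Matrix.mul_smul, adjA, smul_smul, hσD]
  · rw [← conjT_mul, hZW, conjT_smul, hs2, conjT_one, Matrix.mul_smul, adjA', smul_smul, hσD]
  · rw [inv_mul' hD0 adjA', toOm_one]
  · rw [hA', mul_inv' hD0 adjA', toOm_one]
  · rw [conjT_conjT]
    have hinv : (toOm A')⁻¹ * toOm (conjT W) = toOm Z * (toOm A)⁻¹ := by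
      have h1 : toOm (conjT W) * toOm A = toOm A' * toOm Z := by
        rw [← toOm_mul, ← toOm_mul, e1]
      calc (toOm A')⁻¹ * toOm (conjT W)
          = (toOm A')⁻¹ * toOm (conjT W) * (toOm A * (toOm A)⁻¹) := by
            rw [mul_inv' hD0 adjA, Matrix.mul_one]
        _ = (toOm A')⁻¹ * (toOm (conjT W) * toOm A) * (toOm A)⁻¹ := by
            simp only [Matrix.mul_assoc]
        _ = ((toOm A')⁻¹ * toOm A') * toOm Z * (toOm A)⁻¹ := by
            rw [h1]; simp only [Matrix.mul_assoc]
        _ = toOm Z * (toOm A)⁻¹ := by rw [inv_mul' hD0 adjA', Matrix.one_mul]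
    rw [Matrix.mul_assoc, hinv, ← Matrix.mul_assoc, ← toOm_mul, hWZ, toOm_smul, toOm_one,
      Matrix.smul_mul, Matrix.one_mul, toOm_neg, toOm_smul, inv_eq hD0 adjA, smul_smul,
      ← sub_eq_add_neg, ← sub_smul]
    congr 1
    have hDa := alg_ne hD0
    have h2 : algebraMap Lam Om (σ ^ 2) = 1 - algebraMap Lam Om D * algebraMap Lam Om h := by
      have : σ ^ 2 = 1 - D * h := by linear_combination -hh
      rw [this, map_sub, map_one, map_mul]
    rw [h2]
    field_simp

end Iso

end Pool.Agent.N558
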