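import Mathlib
import Pool.Agent.N558.Basic

/-!
# Neighbours of hermitian matrices over `Λ`
-/

set_option autoImplicit false

namespace Pool.Agent.N558

open LaurentPolynomial Matrix Pool.Agent.R799

section Scaled

variable {ι : Type*} [Fintype ι] [DecidableEq ι]

/-- the scaling factors -/
noncomputable def wt (a b : ι) (c u : Lam) : ι → Lam := fun i =>
  if i = a then c * bar c * (u * bar u) * bar c else if i = b then bar c * (u * bar u)
    else c * bar c * (u * bar u)

/-- the inverse scaling factors -/
noncomputable def zt (a b : ι) (c u : Lam) : ι → Lam := fun i =>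
  if i = a then c * (u * bar u) else if i = b then c * bar c * (u * bar u) * c
    else c * bar c * (u * bar u)

lemma wt_mul_zt (a b : ι) (c u : Lam) (i : ι) :
    wt a b c u i * zt a b c u i = (c * bar c * (u * bar u)) ^ 2 := by
  unfold wt zt
  split_ifs <;> ring

lemma bar_wt (a b : ι) (c u : Lam) (i : ι) : bar (wt a b c u i) =
    if i = a then c * bar c * (u * bar u) * c else if i = b then c * (u * bar u)
    else c * bar c * (u * bar u) := by
  unfold wt
  split_ifs <;> simp only [map_mul, bar_bar] <;> ring

lemma prod_wt (a b : ι) (hab : a ≠ b) (c u : Lam) :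
    c * ∏ i, wt a b c u i = bar c * (c * bar c * (u * bar u)) ^ Fintype.card ι := by
  have h1 : ∏ i, (wt a b c u i * (if i = b then c else 1)) =
      ∏ i, ((c * bar c * (u * bar u)) * (if i = a then bar c else 1)) := by
    refine Finset.prod_congr rfl fun i _ => ?_
    unfold wt
    by_cases h : i = a
    · subst h
      rw [if_pos rfl, if_pos rfl, if_neg hab]
      ring
    · rw [if_neg h, if_neg h]
      split_ifs <;> ring
  rw [Finset.prod_mul_distrib, Finset.prod_mul_distrib, Finset.prod_ite_eq' Finset.univ b,
    Finset.prod_ite_eq' Finset.univ a, if_pos (Finset.mem_univ _), if_pos (Finset.mem_univ _),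
    Finset.prod_const, Finset.card_univ] at h1
  linear_combination h1

theorem scaled (A : Matrix ι ι Lam) (hA : conjT A = A) (a b : ι) (hab : a ≠ b)
    (c u d : Lam) (s : ι → Lam) (hc : c ≠ 0) (hu : u ≠ 0)
    (hbb : A b b = c * bar c * d) (hj : ∀ j, j ≠ a → j ≠ b → A j b = c * s j) :
    ∃ A' : Matrix ι ι Lam, conjT A' = A' ∧ A'.det = A.det ∧
      conjT (Matrix.diagonal (wt a b c u)) * A * Matrix.diagonal (wt a b c u) =
        (c * bar c * (u * bar u)) ^ 2 • A' := by
  have hcb : bar c ≠ 0 := by
    intro h
    apply hc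
    rw [← bar_bar c, h, map_zero]
  have hub : bar u ≠ 0 := by
    intro h
    apply hu
    rw [← bar_bar u, h, map_zero]
  set σ : Lam := c * bar c * (u * bar u) with hσ
  have hσ0 : σ ≠ 0 := mul_ne_zero (mul_ne_zero hc hcb) (mul_ne_zero hu hub)
  have hσb : bar σ = σ := by
    rw [hσ]; simp only [map_mul, bar_bar]; ring
  have hAh : ∀ i j, A i j = bar (A j i) := fun i j => by
    conv_lhs => rw [← hA]
    rfl
  have key : ∀ i j, ∃ e : Lam, bar (wt a b c u i) * A i j * wt a b c u j = σ ^ 2 * e := by
    intro i j
    rw [bar_wt]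
    unfold wt
    by_cases hia : i = a
    · rw [if_pos hia]
      by_cases hja : j = a
      · rw [if_pos hja]
        exact ⟨c * bar c * A i j, by rw [hσ]; ring⟩
      · rw [if_neg hja]
        by_cases hjb : j = b
        · rw [if_pos hjb]
          exact ⟨A i j, by rw [hσ]; ring⟩
        · rw [if_neg hjb]
          exact ⟨c * A i j, by rw [hσ]; ring⟩
    · rw [if_neg hia]
      by_cases hib : i = b
      · rw [if_pos hib]
        by_cases hja : j = a
        · rw [if_pos hja]
          exact ⟨A i j, by rw [hσ]; ring⟩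
        · rw [if_neg hja]
          by_cases hjb : j = b
          · rw [if_pos hjb]
            refine ⟨d, ?_⟩
            rw [hib, hjb, hbb, hσ]; ring
          · rw [if_neg hjb]
            refine ⟨bar (s j), ?_⟩
            rw [hib, hAh, hj j hja hjb, hσ]
            simp only [map_mul]; ring
      · rw [if_neg hib]
        by_cases hja : j = a
        · rw [if_pos hja]
          exact ⟨bar c * A i j, by rw [hσ]; ring⟩
        · rw [if_neg hja]
          by_cases hjb : j = b
          · rw [if_pos hjb]
            refine ⟨s i, ?_⟩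
            rw [hjb, hj i hia hib, hσ]; ring
          · rw [if_neg hjb]
            exact ⟨A i j, by ring⟩
  choose A' hA' using key
  have hmat : conjT (Matrix.diagonal (wt a b c u)) * A * Matrix.diagonal (wt a b c u) =
        σ ^ 2 • (Matrix.of A') := by
    apply Matrix.ext; intro i j
    rw [Matrix.mul_diagonal, Matrix.smul_apply, smul_eq_mul, Matrix.of_apply, ← hA' i j]
    congr 1
    have : conjT (Matrix.diagonal (wt a b c u)) =
        Matrix.diagonal (fun i => bar (wt a b c u i)) := by
      apply Matrix.ext; intro i j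
      rw [conjT_apply, Matrix.diagonal_apply, Matrix.diagonal_apply]
      by_cases h : i = j
      · subst h; simp
      · rw [if_neg h, if_neg (Ne.symm h), map_zero]
    rw [this, Matrix.diagonal_mul]
  refine ⟨Matrix.of A', ?_, ?_, hmat⟩
  · apply smul_cancel (pow_ne_zero 2 hσ0)
    rw [← hmat]
    have h1 : σ ^ 2 • conjT (Matrix.of A') = conjT (σ ^ 2 • Matrix.of A') := by
      rw [conjT_smul, map_pow, hσb]
    rw [h1, ← hmat, conjT_mul, conjT_mul, conjT_conjT, hA, Matrix.mul_assoc]
  · have h1 := congrArg Matrix.det hmat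
    rw [Matrix.det_mul, Matrix.det_mul, conjT_det, Matrix.det_diagonal, Matrix.det_smul] at h1
    have h2 := prod_wt a b hab c u
    rw [← hσ] at h2
    have h3 := congrArg bar h2
    simp only [map_mul, map_pow, bar_bar, hσb] at h3
    have h4 : bar (∏ i, wt a b c u i) * (∏ i, wt a b c u i) = (σ ^ 2) ^ Fintype.card ι := by
      apply mul_left_cancel₀ (mul_ne_zero hc hcb)
      calc c * bar c * (bar (∏ i, wt a b c u i) * ∏ i, wt a b c u i)
          = (bar c * bar (∏ i, wt a b c u i)) * (c * ∏ i, wt a b c u i) := by ring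
        _ = (c * σ ^ Fintype.card ι) * (bar c * σ ^ Fintype.card ι) := by rw [h2, h3]
        _ = c * bar c * (σ ^ 2) ^ Fintype.card ι := by rw [← pow_mul, two_mul, pow_add]; ring
    have h5 : (σ ^ 2) ^ Fintype.card ι ≠ 0 := pow_ne_zero _ (pow_ne_zero _ hσ0)
    apply mul_left_cancel₀ h5
    rw [← h1, ← h4]
    ring

end Scaled

section Evaluation

variable {ι : Type*} [Fintype ι] [DecidableEq ι]

lemma atOne_mul (A B : Matrix ι ι Lam) : atOne (A * B) = atOne A * atOne B := by
  apply Matrix.ext; intro i j
  rw [atOne_apply, Matrix.mul_apply, Matrix.mul_apply, map_sum]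
  exact Finset.sum_congr rfl fun k _ => by rw [map_mul, atOne_apply, atOne_apply]

lemma atOne_conjT (A : Matrix ι ι Lam) : atOne (conjT A) = (atOne A)ᵀ := by
  apply Matrix.ext; intro i j
  rw [atOne_apply, conjT_apply, ev1_bar]; rfl

lemma atOne_det (A : Matrix ι ι Lam) : (atOne A).det = ev1 A.det :=
  (RingHom.map_det ev1 A).symm

lemma atOne_adjugate (A : Matrix ι ι Lam) : atOne A.adjugate = (atOne A).adjugate :=
  RingHom.map_adjugate ev1 A

lemma atOne_smul (a : Lam) (A : Matrix ι ι Lam) : atOne (a • A) = ev1 a • atOne A := by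
  apply Matrix.ext; intro i j
  rw [atOne_apply, Matrix.smul_apply, Matrix.smul_apply, smul_eq_mul, smul_eq_mul, map_mul,
    atOne_apply]

end Evaluation

section Nbr

variable {ι : Type*} [Fintype ι] [DecidableEq ι]

/-- the elementary matrix with `b`-th column `v + e_b` -/
noncomputable def el (b : ι) (v : ι → Lam) : Matrix ι ι Lam :=
  1 + Matrix.vecMulVec v (Pi.single b 1)

lemma el_mul (b : ι) (v w : ι → Lam) (hv : w b = 0) : el b v * el b w = el b (v + w) := by
  unfold el
  rw [Matrix.mul_add, Matrix.add_mul, Matrix.add_mul, Matrix.one_mul, Matrix.one_mul,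
    Matrix.mul_one, Matrix.vecMulVec_mul_vecMulVec]
  have : (Pi.single b (1 : Lam)) ⬝ᵥ w = 0 := by
    rw [single_dotProduct, hv, mul_zero]
  rw [this, Matrix.add_vecMulVec]
  simp
  abel

lemma el_zero (b : ι) : el b (0 : ι → Lam) = 1 := by
  unfold el; simp

lemma el_mul_apply (b : ι) (v : ι → Lam) (A : Matrix ι ι Lam) (i j : ι) :
    (A * el b v) i j = A i j + if j = b then (A *ᵥ v) i else 0 := by
  unfold el
  rw [Matrix.mul_add, Matrix.mul_one, Matrix.mul_vecMulVec, Matrix.add_apply,
    Matrix.vecMulVec_apply]
  congr 1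
  by_cases h : j = b
  · subst h; simp
  · rw [if_neg h, Pi.single_apply, if_neg h, mul_zero]

end Nbr

end Pool.Agent.N558
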