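import Mathlib
import Pool.Agent.N558.Nbr

/-!
# Neighbours of hermitian matrices over `Λ`, the main construction
-/

set_option autoImplicit false

namespace Pool.Agent.N558

open LaurentPolynomial Matrix Pool.Agent.R799

section Nbr

variable {ι : Type*} [Fintype ι] [DecidableEq ι]

lemma conj_el_mul_apply (b : ι) (v : ι → Lam) (B : Matrix ι ι Lam) (i j : ι) :
    (conjT (el b v) * B) i j = B i j + if i = b then cv v ⬝ᵥ (fun k => B k j) else 0 := by
  have h : conjT (el b v) = 1 + Matrix.vecMulVec (Pi.single b 1) (cv v) := by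
    apply Matrix.ext; intro i j
    rw [conjT_apply]
    unfold el
    rw [Matrix.add_apply, Matrix.add_apply, Matrix.vecMulVec_apply, Matrix.vecMulVec_apply,
      map_add, map_mul]
    congr 1
    · rw [Matrix.one_apply, Matrix.one_apply]
      by_cases h : i = j
      · subst h; simp
      · rw [if_neg h, if_neg (Ne.symm h), map_zero]
    · rw [mul_comm]
      congr 1
      rw [Pi.single_apply]
      split_ifs <;> simp
  rw [h, Matrix.add_mul, Matrix.one_mul, Matrix.vecMulVec_mul, Matrix.add_apply,
    Matrix.vecMulVec_apply]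
  congr 1
  by_cases h : i = b
  · subst h; simp [Matrix.vecMul]
  · rw [if_neg h, Pi.single_apply, if_neg h, zero_mul]

lemma herm_apply {A : Matrix ι ι Lam} (hA : conjT A = A) (i j : ι) : A i j = bar (A j i) := by
  conv_lhs => rw [← hA]
  rfl

lemma bar_det {A : Matrix ι ι Lam} (hA : conjT A = A) : bar A.det = A.det := by
  rw [← conjT_det, hA]

lemma herm_adj {A : Matrix ι ι Lam} (hA : conjT A = A) : conjT A.adjugate = A.adjugate := by
  rw [conjT_adjugate, hA]

lemma cv_smul' (r : Lam) (x : ι → Lam) : cv (r • x) = bar r • cv x := by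
  funext i; simp [cv]

lemma cv_sub' (x y : ι → Lam) : cv (x - y) = cv x - cv y := by
  funext i; simp [cv]

lemma cv_single (a : ι) (r : Lam) : cv (Pi.single a r : ι → Lam) = Pi.single a (bar r) := by
  funext i
  unfold cv
  rw [Pi.single_apply, Pi.single_apply]
  split_ifs <;> simp

/-- the vector defining the elementary transformation -/
noncomputable def vv (A : Matrix ι ι Lam) (a b : ι) (c u κ α : Lam) : ι → Lam :=
  c • (Pi.single a (bar (κ * A.adjugate b a * bar (A.adjugate b a)) * bar α *
    (κ * bar (A.adjugate b a) * A.det)) + Pi.single b u)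
    - (κ * bar (A.adjugate b a) * A.det) • (fun i => A.adjugate i a) - Pi.single b 1

lemma vv_b (A : Matrix ι ι Lam) (a b : ι) (hab : a ≠ b) (c u κ α : Lam)
    (hcu : c * u = 1 + κ * (A.adjugate b a * bar (A.adjugate b a) * A.det)) :
    vv A a b c u κ α b = 0 := by
  unfold vv
  simp only [Pi.sub_apply, Pi.smul_apply, Pi.add_apply, smul_eq_mul, Pi.single_eq_same,
    Pi.single_apply, if_neg (Ne.symm hab)]
  linear_combination hcu

theorem nbr (A : Matrix ι ι Lam) (hA : conjT A = A) (a b : ι) (hab : a ≠ b)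
    (c u κ α θ : Lam) (hc : c ≠ 0) (hu : u ≠ 0) (hD0 : A.det ≠ 0)
    (hcu : c * u = 1 + κ * (A.adjugate b a * bar (A.adjugate b a) * A.det))
    (hα : α * bar c + bar α * c = -(A.det * A.adjugate a a + θ * (c * bar c))) :
    ∃ A' : Matrix ι ι Lam, conjT A' = A' ∧ A'.det = A.det ∧
      IsometricPairings A (toOm A)⁻¹ A' (toOm A')⁻¹ ∧
      conjT (el b (vv A a b c u κ α) * Matrix.diagonal (wt a b c u)) * A *
        (el b (vv A a b c u κ α) * Matrix.diagonal (wt a b c u)) =
        (c * bar c * (u * bar u)) ^ 2 • A' := by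
  have hvb := vv_b A a b hab c u κ α hcu
  set v := vv A a b c u κ α with hv
  set D := A.det with hD
  have hDb : bar D = D := bar_det hA
  set qb := A.adjugate b a with hqb
  set f := κ * bar qb * D with hf
  set k := κ * qb * bar qb with hk
  set q : ι → Lam := fun i => A.adjugate i a with hq
  set x : ι → Lam := Pi.single a (bar k * bar α * f) + Pi.single b u with hx
  have hv2 : v + Pi.single b 1 = c • x - f • q := by
    rw [hv]; unfold vv
    rw [sub_add_cancel]
  have hkD : k * D = c * u - 1 := by rw [hcu, hk]; ring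
  have hkDb : bar k * D = bar c * bar u - 1 := by
    have := congrArg bar hkD
    simpa only [map_mul, map_sub, map_one, hDb] using this
  have hqa : bar (A.adjugate a a) = A.adjugate a a := (herm_apply (herm_adj hA) a a).symm
  -- A q = D e_a
  have hAq : A *ᵥ q = D • (Pi.single a 1 : ι → Lam) := by
    have h1 : q = A.adjugate *ᵥ Pi.single a 1 := by
      rw [Matrix.mulVec_single_one]; rfl
    rw [h1, Matrix.mulVec_mulVec, Matrix.mul_adjugate, Matrix.smul_mulVec, Matrix.one_mulVec]
  have hqA : cv q ᵥ* A = D • (Pi.single a 1 : ι → Lam) := by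
    have h1 : cv (A *ᵥ q) = cv q ᵥ* conjT A := cv_mulVec A q
    rw [hA, hAq, cv_smul', cv_single, map_one, hDb] at h1
    exact h1.symm
  have hAv : A *ᵥ (v + Pi.single b 1) = c • (A *ᵥ x) - (f * D) • (Pi.single a 1 : ι → Lam) := by
    rw [hv2, Matrix.mulVec_sub, Matrix.mulVec_smul, Matrix.mulVec_smul, hAq, smul_smul]
  -- entries of the new matrix in column b
  have hcol : ∀ i, (A * el b v) i b = (A *ᵥ (v + Pi.single b 1)) i := by
    intro i
    rw [el_mul_apply, if_pos rfl, Matrix.mulVec_add, Matrix.mulVec_single_one, Pi.add_apply,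
      add_comm]
    rfl
  set A1 := conjT (el b v) * A * el b v with hA1
  have hA1h : conjT A1 = A1 := by
    rw [hA1, conjT_mul, conjT_mul, conjT_conjT, hA, Matrix.mul_assoc]
  have hxa : x a = bar k * bar α * f := by
    rw [hx, Pi.add_apply, Pi.single_eq_same, Pi.single_apply, if_neg hab, add_zero]
  have hAj : ∀ j, j ≠ a → j ≠ b → A1 j b = c * (A *ᵥ x) j := by
    intro j hja hjb
    rw [hA1, Matrix.mul_assoc, conj_el_mul_apply, if_neg hjb, add_zero, hcol, hAv,
      Pi.sub_apply, Pi.smul_apply, Pi.smul_apply, Pi.single_apply, if_neg hja]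
    simp
  have hAbb : A1 b b = c * bar c * (cv x ⬝ᵥ (A *ᵥ x) -
      f * bar f * (bar α * bar u + α * u + θ)) := by
    have h1 : A1 b b = cv (v + Pi.single b 1) ⬝ᵥ (A *ᵥ (v + Pi.single b 1)) := by
      rw [hA1, Matrix.mul_assoc, conj_el_mul_apply, if_pos rfl, cv_add, cv_single, map_one,
        add_dotProduct, single_dotProduct, one_mul, hcol, add_comm]
      congr 2
      funext i
      exact hcol i
    rw [h1, hAv, hv2, cv_sub', cv_smul', cv_smul', sub_dotProduct, dotProduct_sub,
      dotProduct_sub, smul_dotProduct, smul_dotProduct, smul_dotProduct, smul_dotProduct,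
      dotProduct_smul, dotProduct_smul, dotProduct_smul, dotProduct_smul,
      dotProduct_single_one, dotProduct_single_one]
    have h2 : cv q ⬝ᵥ (A *ᵥ x) = D * (bar k * bar α * f) := by
      rw [Matrix.dotProduct_mulVec, hqA, smul_dotProduct, single_dotProduct, one_mul, hxa,
        smul_eq_mul]
    have h3 : cv x a = k * α * bar f := by
      change bar (x a) = _
      rw [hxa]; simp only [map_mul, bar_bar]
    have h4 : cv q a = A.adjugate a a := hqa
    rw [h2, h3, h4]
    simp only [smul_eq_mul]
    linear_combination (-(bar c * f * bar f * α)) * hkD + (-(c * f * bar f * bar α)) * hkDb +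
      (f * bar f) * hα
  obtain ⟨A', hA'h, hA'd, hA'e⟩ := scaled A1 hA1h a b hab c u _ _ hc hu hAbb hAj
  set W := el b v * Matrix.diagonal (wt a b c u) with hW
  have hWAW : conjT W * A * W = (c * bar c * (u * bar u)) ^ 2 • A' := by
    rw [← hA'e, hW, hA1, conjT_mul]
    simp only [Matrix.mul_assoc]
  have hdet1 : A1.det = D := by
    have h1 : el b v * el b (-v) = 1 := by
      rw [el_mul b v (-v) (by simp [hvb]), add_neg_cancel, el_zero]
    have h2 : (el b v).det = 1 := by
      have : el b v = (1 : Matrix ι ι Lam) + Matrix.vecMulVec v (Pi.single b 1) := rfl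
      rw [this, Matrix.vecMulVec_eq Unit, Matrix.det_one_add_replicateCol_mul_replicateRow,
        single_dotProduct, hvb]
      simp
    rw [hA1, Matrix.det_mul, Matrix.det_mul, conjT_det, h2, map_one, one_mul, mul_one]
  refine ⟨A', hA'h, hA'd.trans hdet1, ?_, hWAW⟩
  have hcb : bar c ≠ 0 := by
    intro h
    apply hc
    rw [← bar_bar c, h, map_zero]
  have hub : bar u ≠ 0 := by
    intro h
    apply hu
    rw [← bar_bar u, h, map_zero]
  set σ : Lam := c * bar c * (u * bar u) with hσ
  have hσ0 : σ ≠ 0 := mul_ne_zero (mul_ne_zero hc hcb) (mul_ne_zero hu hub)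
  have hσb : bar σ = σ := by
    rw [hσ]; simp only [map_mul, bar_bar]; ring
  set Z := Matrix.diagonal (zt a b c u) * el b (-v) with hZ
  have hwz : Matrix.diagonal (wt a b c u) * Matrix.diagonal (zt a b c u) =
      σ ^ 2 • (1 : Matrix ι ι Lam) := by
    rw [Matrix.diagonal_mul_diagonal, Matrix.smul_one_eq_diagonal]
    congr 1
    funext i
    exact wt_mul_zt a b c u i
  have hzw : Matrix.diagonal (zt a b c u) * Matrix.diagonal (wt a b c u) =
      σ ^ 2 • (1 : Matrix ι ι Lam) := by
    rw [← hwz, Matrix.diagonal_mul_diagonal, Matrix.diagonal_mul_diagonal]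
    congr 1
    funext i
    exact mul_comm _ _
  have e1 : el b v * el b (-v) = 1 := by
    rw [el_mul b v (-v) (by simp [hvb]), add_neg_cancel, el_zero]
  have e2 : el b (-v) * el b v = 1 := by
    rw [el_mul b (-v) v hvb, neg_add_cancel, el_zero]
  have hWZ : W * Z = σ ^ 2 • (1 : Matrix ι ι Lam) := by
    calc W * Z = el b v * (Matrix.diagonal (wt a b c u) * Matrix.diagonal (zt a b c u)) *
          el b (-v) := by rw [hW, hZ]; simp only [Matrix.mul_assoc]
      _ = σ ^ 2 • (1 : Matrix ι ι Lam) := by
        rw [hwz, Matrix.mul_smul, Matrix.smul_mul, Matrix.mul_one, e1]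
  have hZW : Z * W = σ ^ 2 • (1 : Matrix ι ι Lam) := by
    calc Z * W = Matrix.diagonal (zt a b c u) * (el b (-v) * el b v) *
          Matrix.diagonal (wt a b c u) := by rw [hW, hZ]; simp only [Matrix.mul_assoc]
      _ = σ ^ 2 • (1 : Matrix ι ι Lam) := by
        rw [e2, Matrix.mul_one, hzw]
  have hσ1 : σ = 1 + D * (k + bar k + k * bar k * D) := by
    rw [hσ]
    linear_combination (-(bar c * bar u)) * hkD + (-(1 + k * D)) * hkDb
  refine iso_of_WZ A A' W Z σ (-((k + bar k + k * bar k * D) *
    (2 + D * (k + bar k + k * bar k * D)))) D hA hA'h rfl (hA'd.trans hdet1) hD0 hσ0 hσb hWZ hZW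
    hWAW ?_
  rw [hσ1]; ring

end Nbr

end Pool.Agent.N558
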