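import Mathlib
import Pool.Agent.N558.Nbr2

/-!
# Neighbours of hermitian matrices over `Λ`, evaluation at `t = 1`
-/

set_option autoImplicit false

namespace Pool.Agent.N558

open LaurentPolynomial Matrix Pool.Agent.R799

section Nbr

variable {ι : Type*} [Fintype ι] [DecidableEq ι]

/-- the form of the plane `[[0, 1], [1, θ]]` added to the form of `M` -/
def form (M : Matrix ι ι ℤ) (θ : ℤ) (z z' : (ι → ℤ) × ℤ × ℤ) : ℤ :=
  z.1 ⬝ᵥ (M *ᵥ z'.1) + z.2.1 * z'.2.2 + z.2.2 * z'.2.1 + θ * z.2.2 * z'.2.2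

/-- the integral vector attached to an element of the orthogonal complement -/
def sv (x₀ : ι → ℤ) (a b : ι) (ε β u₀ α₀ θ k₀ : ℤ) (z : (ι → ℤ) × ℤ × ℤ) : ι → ℤ := fun i =>
  if i = a then ε * (-z.2.1 - θ * z.2.2 + α₀ * z.2.2 * (u₀ ^ 2 * β - 2 * u₀))
    - ε * (2 * α₀ + θ * β) * ((u₀ * β - 1) * z.1 b - z.2.2 * u₀)
    - k₀ * α₀ * (u₀ * β - 1) * z.1 b
  else if i = b then β * z.1 b - z.2.2
  else z.1 i + (u₀ * β - 1) * x₀ i * z.1 b - z.2.2 * x₀ i * u₀

theorem nbr_eval (A : Matrix ι ι Lam) (hA : conjT A = A) (a b : ι) (hab : a ≠ b)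
    (c u κ α : Lam) (θ : ℤ) (β α₀ ε : ℤ) (hβ : ev1 c = β) (hβ0 : β ≠ 0) (hu : ev1 u ≠ 0)
    (hD0 : A.det ≠ 0) (hε : ev1 A.det = ε) (hε2 : ε * ε = 1)
    (hq1 : ev1 (A.adjugate b a) = 1) (hα₀ : ev1 α = α₀)
    (hcu : c * u = 1 + κ * (A.adjugate b a * bar (A.adjugate b a) * A.det))
    (hα : α * bar c + bar α * c = -(A.det * A.adjugate a a + (θ : Lam) * (c * bar c))) :
    ∃ A' : Matrix ι ι Lam, conjT A' = A' ∧ A'.det = A.det ∧
      IsometricPairings A (toOm A)⁻¹ A' (toOm A')⁻¹ ∧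
      ∃ s : (ι → ℤ) × ℤ × ℤ → (ι → ℤ), ∀ z z' : (ι → ℤ) × ℤ × ℤ,
        form (atOne A) θ z (fun i => (atOne A).adjugate i a, α₀, β) = 0 →
        form (atOne A) θ z' (fun i => (atOne A).adjugate i a, α₀, β) = 0 →
        s z ⬝ᵥ (atOne A' *ᵥ s z') = form (atOne A) θ z z' := by
  have hc : c ≠ 0 := by
    rintro rfl
    rw [map_zero] at hβ
    exact hβ0 hβ.symm
  have hu' : u ≠ 0 := by
    rintro rfl
    exact hu (map_zero _)
  obtain ⟨A', h1, h2, h3, h4⟩ := nbr A hA a b hab c u κ α θ hc hu' hD0 hcu hα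
  refine ⟨A', h1, h2, h3, ?_⟩
  set M := atOne A with hM
  set x₀ : ι → ℤ := fun i => M.adjugate i a with hx₀
  have hx₀' : ∀ i, ev1 (A.adjugate i a) = x₀ i := by
    intro i
    rw [hx₀, hM, ← atOne_adjugate]; rfl
  have hx₀b : x₀ b = 1 := by rw [← hx₀' b, hq1]
  have hMdet : M.det = ε := by rw [hM, atOne_det, hε]
  have hMs : Mᵀ = M := by rw [hM, ← atOne_conjT, hA]
  have hMx : M *ᵥ x₀ = ε • (Pi.single a 1 : ι → ℤ) := by
    have h1 : x₀ = M.adjugate *ᵥ Pi.single a 1 := by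
      rw [Matrix.mulVec_single_one]; rfl
    rw [h1, Matrix.mulVec_mulVec, Matrix.mul_adjugate, Matrix.smul_mulVec, Matrix.one_mulVec,
      hMdet]
  have hdotx : ∀ y : ι → ℤ, y ⬝ᵥ (M *ᵥ x₀) = ε * y a := by
    intro y
    rw [hMx, dotProduct_smul, dotProduct_single_one, smul_eq_mul]
  have hsymm : ∀ y y' : ι → ℤ, y ⬝ᵥ (M *ᵥ y') = y' ⬝ᵥ (M *ᵥ y) := by
    intro y y'
    rw [Matrix.dotProduct_mulVec, ← Matrix.mulVec_transpose, hMs, dotProduct_comm]
  -- relations at `t = 1`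
  obtain ⟨u₀, hu₀⟩ : ∃ u₀, ev1 u = u₀ := ⟨_, rfl⟩
  obtain ⟨κ₀, hκ₀⟩ : ∃ κ₀, ev1 κ = κ₀ := ⟨_, rfl⟩
  have r1 : β * u₀ = 1 + κ₀ * ε := by
    have := congrArg ev1 hcu
    simp only [map_mul, map_add, map_one, ev1_bar, hβ, hu₀, hκ₀, hq1, hε] at this
    linear_combination this
  have r2 : 2 * α₀ * β = -(ε * x₀ a + θ * β * β) := by
    have := congrArg ev1 hα
    simp only [map_mul, map_add, map_neg, ev1_bar, hβ, hα₀, hε, map_intCast, hx₀' a] at this
    simp only [Int.cast_id] at this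
    linear_combination this
  have r3 : κ₀ = ε * (β * u₀ - 1) := by
    linear_combination (-ε) * r1 + (-κ₀) * hε2
  have r4 : x₀ a = -ε * (2 * α₀ + θ * β) * β := by
    linear_combination ε * r2 + (-x₀ a) * hε2
  set w := wt a b c u with hw
  set W := el b (vv A a b c u κ α) * Matrix.diagonal w with hW
  have hw1 : ∀ i, ev1 (w i) = if i = a then β ^ 2 * u₀ ^ 2 * β else if i = b then β * u₀ ^ 2
      else β ^ 2 * u₀ ^ 2 := by
    intro i
    rw [hw]; unfold wt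
    split_ifs <;> simp only [map_mul, ev1_bar, hβ, hu₀] <;> ring
  have hv1 : ∀ i, ev1 (vv A a b c u κ α i) =
      (if i = a then β * (κ₀ * α₀ * (κ₀ * ε)) else 0) + (if i = b then β * u₀ - 1 else 0)
        - κ₀ * ε * x₀ i := by
    intro i
    unfold vv
    simp only [Pi.sub_apply, Pi.smul_apply, Pi.add_apply, smul_eq_mul, Pi.single_apply,
      map_sub, map_mul, map_add, ev1_bar, hx₀', hβ, hκ₀, hε, hx₀b]
    by_cases hia : i = a
    · rw [if_pos hia, if_pos hia, if_neg (by rw [hia]; exact hab), if_neg (by rw [hia]; exact hab),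
        if_neg (by rw [hia]; exact hab)]
      simp only [map_mul, ev1_bar, hq1, hκ₀, hα₀, hε, map_zero]
      ring
    · rw [if_neg hia, if_neg hia]
      by_cases hib : i = b
      · rw [if_pos hib, if_pos hib, if_pos hib, map_zero, map_one, hu₀]
        ring
      · rw [if_neg hib, if_neg hib, if_neg hib, map_zero]
        ring
  have hWv : ∀ (y : ι → ℤ) (i : ι), (atOne W *ᵥ y) i =
      ev1 (w i) * y i + ev1 (w b) * y b * ev1 (vv A a b c u κ α i) := by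
    intro y i
    have e1 : atOne W = (1 + Matrix.vecMulVec (fun i => ev1 (vv A a b c u κ α i))
        (Pi.single b 1)) * Matrix.diagonal (fun i => ev1 (w i)) := by
      rw [hW, atOne_mul]
      congr 1
      · apply Matrix.ext; intro i j
        unfold el
        rw [atOne_apply, Matrix.add_apply, Matrix.add_apply, map_add, Matrix.vecMulVec_apply,
          Matrix.vecMulVec_apply, map_mul, Matrix.one_apply, Matrix.one_apply, Pi.single_apply,
          Pi.single_apply]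
        split_ifs <;> simp
      · apply Matrix.ext; intro i j
        rw [atOne_apply, Matrix.diagonal_apply, Matrix.diagonal_apply]
        split_ifs <;> simp
    rw [e1, ← Matrix.mulVec_mulVec, Matrix.add_mulVec, Matrix.one_mulVec,
      Matrix.vecMulVec_mulVec, Pi.add_apply, Matrix.mulVec_diagonal]
    congr 1
    simp only [Pi.smul_apply, MulOpposite.smul_eq_mul_unop, MulOpposite.unop_op]
    rw [single_dotProduct, one_mul, Matrix.mulVec_diagonal]
    ring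
  have hσ1 : ev1 ((c * bar c * (u * bar u)) ^ 2) = (β ^ 2 * u₀ ^ 2) ^ 2 := by
    simp only [map_mul, map_pow, ev1_bar, hβ, hu₀]
    ring
  have hWMW : (atOne W)ᵀ * M * atOne W = (β ^ 2 * u₀ ^ 2) ^ 2 • atOne A' := by
    have := congrArg atOne h4
    rwa [atOne_mul, atOne_mul, atOne_conjT, atOne_smul, hσ1] at this
  rw [hu₀] at hu
  have hε1 : ε = 1 ∨ ε = -1 := by
    have : (ε - 1) * (ε + 1) = 0 := by linear_combination hε2
    rcases mul_eq_zero.mp this with h | h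
    · left; linear_combination h
    · right; linear_combination h
  refine ⟨sv x₀ a b ε β u₀ α₀ θ κ₀, ?_⟩
  intro z z' hz hz'
  obtain ⟨y, a₁, b₁⟩ := z
  obtain ⟨y', a₁', b₁'⟩ := z'
  have key : ∀ (y : ι → ℤ) (a₁ b₁ : ℤ), form M θ (y, a₁, b₁) (x₀, α₀, β) = 0 →
      atOne W *ᵥ (sv x₀ a b ε β u₀ α₀ θ κ₀ (y, a₁, b₁)) =
        (β ^ 2 * u₀ ^ 2) • y - (β * u₀ ^ 2 * b₁) • x₀ := by
    intro y a₁ b₁ h
    unfold form at h
    simp only [hdotx] at h
    have ya : y a = -ε * (a₁ * β + b₁ * α₀ + θ * b₁ * β) := by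
      linear_combination ε * h + (-(y a)) * hε2
    funext i
    rw [hWv, hw1, hw1, hv1]
    simp only [Pi.sub_apply, Pi.smul_apply, smul_eq_mul]
    unfold sv
    by_cases hia : i = a
    · simp only [hia, if_true, if_neg hab, if_neg (Ne.symm hab)]
      rw [ya, r4, r3]
      rcases hε1 with rfl | rfl <;> ring
    · by_cases hib : i = b
      · simp only [hib, if_true, if_neg (Ne.symm hab), hx₀b]
        rw [r3]
        rcases hε1 with rfl | rfl <;> ring
      · simp only [if_neg hia, if_neg hib, if_true, if_neg (Ne.symm hab)]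
        rw [r3]
        rcases hε1 with rfl | rfl <;> ring
  have k1 := key y a₁ b₁ hz
  have k2 := key y' a₁' b₁' hz'
  set s1 := sv x₀ a b ε β u₀ α₀ θ κ₀ (y, a₁, b₁)
  set s2 := sv x₀ a b ε β u₀ α₀ θ κ₀ (y', a₁', b₁')
  have k3 : (atOne W *ᵥ s1) ⬝ᵥ (M *ᵥ (atOne W *ᵥ s2)) =
      (β ^ 2 * u₀ ^ 2) ^ 2 * (s1 ⬝ᵥ (atOne A' *ᵥ s2)) := by
    have e1 : (atOne W *ᵥ s1) ⬝ᵥ (M *ᵥ (atOne W *ᵥ s2)) =
        s1 ⬝ᵥ (((atOne W)ᵀ * M * atOne W) *ᵥ s2) := by
      rw [← Matrix.mulVec_mulVec, ← Matrix.mulVec_mulVec, Matrix.dotProduct_mulVec s1,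
        Matrix.vecMul_transpose]
    rw [e1, hWMW, Matrix.smul_mulVec, dotProduct_smul, smul_eq_mul]
  have h0 : (β ^ 2 * u₀ ^ 2) ^ 2 ≠ 0 :=
    pow_ne_zero _ (mul_ne_zero (pow_ne_zero _ hβ0) (pow_ne_zero _ hu))
  apply mul_left_cancel₀ h0
  rw [← k3, k1, k2, Matrix.mulVec_sub, Matrix.mulVec_smul, Matrix.mulVec_smul, dotProduct_sub,
    sub_dotProduct, sub_dotProduct]
  simp only [smul_dotProduct, dotProduct_smul, smul_eq_mul]
  rw [hsymm x₀ y', hdotx, hdotx, hdotx]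
  unfold form at hz hz' ⊢
  simp only [hdotx] at hz hz' ⊢
  rw [r4]
  have e2 : ε * (-ε * (2 * α₀ + θ * β) * β) = -(2 * α₀ + θ * β) * β := by
    linear_combination (-(2 * α₀ + θ * β) * β) * hε2
  rw [e2]
  linear_combination (-(β ^ 3 * u₀ ^ 4 * b₁')) * hz + (-(β ^ 3 * u₀ ^ 4 * b₁)) * hz'

end Nbr

end Pool.Agent.N558
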