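import Mathlib
import Pool.Agent.N558.Nbr3

/-!
# Symmetric Laurent polynomials and the choice of the parameters of a neighbour
-/

set_option autoImplicit false

namespace Pool.Agent.N558

open LaurentPolynomial Matrix Pool.Agent.R799

/-- evaluation at a unit -/
noncomputable def evu (a : ℤˣ) : Lam →+* ℤ := eval₂ (RingHom.id ℤ) a

/-- evaluation at `-1` -/
noncomputable abbrev evm : Lam →+* ℤ := evu (-1)

lemma evu_T (a : ℤˣ) (n : ℤ) : evu a (T n) = ((a ^ n : ℤˣ) : ℤ) := by
  unfold evu; rw [eval₂_T]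

lemma evm_T1 : evm (T 1) = -1 := by
  unfold evm; rw [evu_T]; simp

lemma evm_Tm1 : evm (T (-1)) = -1 := by
  unfold evm; rw [evu_T]; simp

lemma evm_bar (x : Lam) : evm (bar x) = evm x := by
  induction x using LaurentPolynomial.induction_on' with
  | add p q hp hq => rw [map_add, map_add, map_add, hp, hq]
  | C_mul_T n a =>
    have h : bar (C a) = C a := by simp [bar]
    rw [map_mul, map_mul, map_mul, bar_T, h]
    unfold evm
    rw [evu_T, evu_T]
    simp

lemma root_dvd (a : ℤˣ) (x : Lam) (h : evu a x = 0) : ∃ y, x = (T 1 - C (a : ℤ)) * y := by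
  obtain ⟨n, p, hp⟩ := LaurentPolynomial.exists_T_pow x
  have h1 : p.eval (a : ℤ) = 0 := by
    have h2 : evu a (Polynomial.toLaurent p) = p.eval (a : ℤ) := by
      unfold evu
      rw [LaurentPolynomial.eval₂_toLaurent]
      simp [Polynomial.eval₂_id]
    rw [← h2, hp, map_mul, h, zero_mul]
  obtain ⟨q, hq⟩ := Polynomial.dvd_iff_isRoot.mpr h1
  refine ⟨Polynomial.toLaurent q * T (-n), ?_⟩
  have h3 : x = Polynomial.toLaurent p * T (-n) := by
    rw [hp, mul_assoc, ← T_add]; simp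
  rw [h3, hq, map_mul, map_sub, Polynomial.toLaurent_X, Polynomial.toLaurent_C, mul_assoc]

lemma ev1_eq : ev1 = evu 1 := rfl

lemma TT : (T 1 : Lam) * T (-1) = 1 := hts

lemma sub_ne : (T 1 - 1 : Lam) ≠ 0 := by
  intro h
  have h1 := congrArg evm h
  rw [map_sub, evm_T1, map_one, map_zero] at h1
  norm_num at h1

lemma add_ne : (T 1 + 1 : Lam) ≠ 0 := by
  intro h
  have h1 := congrArg ev1 h
  rw [map_add, ev1_T, map_one, map_zero] at h1
  norm_num at h1

lemma sym_ev1 (E : Lam) (hE : bar E = E) (h : ev1 E = 0) :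
    ∃ G, bar G = G ∧ E = (T 1 + T (-1) - 2) * G := by
  obtain ⟨F, hF⟩ := root_dvd 1 E h
  have hF : E = (T 1 - 1) * F := by simpa using hF
  have hb : bar (T 1 : Lam) = T (-1) := bar_T 1
  have hb' : bar (T (-1) : Lam) = T 1 := by rw [bar_T]; simp
  have htt := TT
  have h1 : F = -(T (-1) * bar F) := by
    apply mul_left_cancel₀ sub_ne
    have h2 : (T (-1) - 1) * bar F = (T 1 - 1) * F := by
      rw [← hF, ← hE, hF, map_mul, map_sub, hb, map_one]
    linear_combination -h2 + (bar F) * htt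
  have h2 : ev1 F = 0 := by
    have := congrArg ev1 h1
    rw [map_neg, map_mul, ev1_T, ev1_bar] at this
    linarith
  obtain ⟨F', hF'⟩ := root_dvd 1 F h2
  have hF' : F = (T 1 - 1) * F' := by simpa using hF'
  have e1 : E = (T 1 + T (-1) - 2) * (T 1 * F') := by
    rw [hF, hF']
    linear_combination (-F') * htt
  refine ⟨T 1 * F', ?_, e1⟩
  have hne : (T 1 + T (-1) - 2 : Lam) ≠ 0 := by
    have : (T 1 + T (-1) - 2 : Lam) = T (-1) * ((T 1 - 1) * (T 1 - 1)) := by
      linear_combination (2 - T 1) * htt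
    rw [this]
    refine mul_ne_zero ?_ (mul_ne_zero sub_ne sub_ne)
    intro h
    rw [h, mul_zero] at htt
    exact zero_ne_one htt
  apply mul_left_cancel₀ hne
  rw [← e1]
  conv_rhs => rw [← hE, e1]
  simp only [map_mul, map_sub, map_add, hb, hb', map_ofNat]
  ring

lemma sym_evm (E : Lam) (hE : bar E = E) (h : evm E = 0) :
    ∃ G, bar G = G ∧ E = (T 1 + T (-1) + 2) * G := by
  obtain ⟨F, hF⟩ := root_dvd (-1) E h
  have hF : E = (T 1 + 1) * F := by simpa using hF
  have hb : bar (T 1 : Lam) = T (-1) := bar_T 1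
  have hb' : bar (T (-1) : Lam) = T 1 := by rw [bar_T]; simp
  have htt := TT
  have h1 : F = (T (-1) * bar F) := by
    apply mul_left_cancel₀ add_ne
    have h2 : (T (-1) + 1) * bar F = (T 1 + 1) * F := by
      rw [← hF, ← hE, hF, map_mul, map_add, hb, map_one]
    linear_combination -h2 + (-(bar F)) * htt
  have h2 : evm F = 0 := by
    have := congrArg evm h1
    rw [map_mul, evm_Tm1, evm_bar] at this
    linarith
  obtain ⟨F', hF'⟩ := root_dvd (-1) F h2
  have hF' : F = (T 1 + 1) * F' := by simpa using hF'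
  have e1 : E = (T 1 + T (-1) + 2) * (T 1 * F') := by
    rw [hF, hF']
    linear_combination (-F') * htt
  refine ⟨T 1 * F', ?_, e1⟩
  have hne : (T 1 + T (-1) + 2 : Lam) ≠ 0 := by
    have : (T 1 + T (-1) + 2 : Lam) = T (-1) * ((T 1 + 1) * (T 1 + 1)) := by
      linear_combination (-2 - T 1) * htt
    rw [this]
    refine mul_ne_zero ?_ (mul_ne_zero add_ne add_ne)
    intro h
    rw [h, mul_zero] at htt
    exact zero_ne_one htt
  apply mul_left_cancel₀ hne
  rw [← e1]
  conv_rhs => rw [← hE, e1]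
  simp only [map_mul, map_add, hb, hb', map_ofNat]
  ring

lemma sym_mod4 (E : Lam) (hE : bar E = E) : ∃ k : ℤ, evm E = ev1 E + 4 * k := by
  have hC : ∀ (f : Lam →+* ℤ) (n : ℤ), f (n : Lam) = n := fun f n => map_intCast f n
  obtain ⟨G, -, hG⟩ := sym_ev1 (E - (ev1 E : Lam)) (by rw [map_sub, hE, map_intCast])
    (by rw [map_sub, hC, sub_self])
  refine ⟨-evm G, ?_⟩
  have h1 := congrArg evm hG
  rw [map_sub, hC, map_mul, map_sub, map_add, evm_T1, evm_Tm1, map_ofNat] at h1
  linear_combination h1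

theorem exists_alpha (c u₁ v₁ E : Lam) (β γ α₀ B p : ℤ) (hc : ev1 c = β) (hβ : β ≠ 0)
    (hγ : evm c = γ) (hE : bar E = E) (h1 : ev1 E = 2 * α₀ * β) (h2 : evm E = 2 * γ * B)
    (hpar : α₀ + B = 2 * p) (hδ : T 1 - T (-1) = c * u₁ + bar c * v₁) :
    ∃ α : Lam, α * bar c + bar α * c = E ∧ ev1 α = α₀ := by
  have hb : bar (T 1 : Lam) = T (-1) := bar_T 1
  have hb' : bar (T (-1) : Lam) = T 1 := by rw [bar_T]; simp
  have htt := TT
  obtain ⟨P, hP⟩ : ∃ P : Lam, P = (p : Lam) := ⟨_, rfl⟩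
  obtain ⟨R, hR⟩ : ∃ R : Lam, R = ((α₀ - p : ℤ) : Lam) := ⟨_, rfl⟩
  have bP : bar P = P := by rw [hP, map_intCast]
  have bR : bar R = R := by rw [hR, map_intCast]
  have e1P : ev1 P = p := by rw [hP, map_intCast]; rfl
  have e1R : ev1 R = α₀ - p := by rw [hR, map_intCast]; rfl
  have emP : evm P = p := by rw [hP, map_intCast]; rfl
  have emR : evm R = α₀ - p := by rw [hR, map_intCast]; rfl
  obtain ⟨G, hGb, hG⟩ := sym_ev1 (E - (P + R * T 1) * c - (P + R * T (-1)) * bar c) (by
      simp only [map_sub, map_mul, map_add, hb, hb', bP, bR, bar_bar, hE]; ring) (by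
      simp only [map_sub, map_mul, map_add, ev1_T, e1P, e1R, ev1_bar, hc, h1]; ring)
  have hGm : evm G = 0 := by
    have := congrArg evm hG
    simp only [map_sub, map_mul, map_add, evm_T1, evm_Tm1, emP, emR, evm_bar, hγ, h2,
      map_ofNat] at this
    have h3 : 4 * evm G = 0 := by
      linear_combination this + (-(2 * γ)) * hpar
    linarith
  obtain ⟨E₂, hE₂b, hE₂⟩ := sym_evm G hGb hGm
  have hδb := congrArg bar hδ
  simp only [map_sub, map_add, map_mul, hb, hb', bar_bar] at hδb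
  refine ⟨bar (P + R * T 1 + E₂ * (T 1 * u₁ + T (-1) * bar v₁)), ?_, ?_⟩
  · rw [bar_bar]
    simp only [map_add, map_mul, hb, hb', bP, bR, bar_bar, hE₂b]
    rw [hE₂] at hG
    linear_combination (-(E₂ * T 1)) * hδ + (-(E₂ * T (-1))) * hδb - hG + (-(4 * E₂)) * htt
  · rw [ev1_bar]
    have h3 : β * (ev1 u₁ + ev1 v₁) = 0 := by
      have := congrArg ev1 hδ
      simp only [map_sub, map_add, map_mul, ev1_T, ev1_bar, hc] at this
      linear_combination -this
    have h4 : ev1 u₁ + ev1 v₁ = 0 := by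
      rcases mul_eq_zero.mp h3 with h | h
      · exact absurd h hβ
      · exact h
    simp only [map_add, map_mul, ev1_T, ev1_bar, e1P, e1R]
    linear_combination (ev1 E₂) * h4

end Pool.Agent.N558
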