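import Pool.Agent.N208.BT.Stm

/-!
# BT: the form of signature `(1, n)` and the operators `R`, `N` (helper558)
-/

set_option autoImplicit false

namespace Pool.Agent.N558.BTB

open Matrix Pool.Agent.N208.BT

variable {n : ℕ}

lemma hf_add_left (x x' y : V n) : hf (x + x') y = hf x y + hf x' y := by
  unfold hf
  simp only [Pi.add_apply, add_mul, Finset.sum_add_distrib]
  ring

lemma hf_smul_left (c : ℂ) (x y : V n) : hf (c • x) y = c * hf x y := by
  unfold hf
  simp only [Pi.smul_apply, smul_eq_mul, mul_assoc, ← Finset.mul_sum]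
  ring

lemma hf_star (x y : V n) : star (hf x y) = hf y x := by
  unfold hf
  simp only [star_sub, star_sum, star_mul', star_star]
  congr 1
  · ring
  · exact Finset.sum_congr rfl fun i _ => mul_comm _ _

lemma hf_add_right (x y y' : V n) : hf x (y + y') = hf x y + hf x y' := by
  rw [← hf_star, hf_add_left, star_add, hf_star, hf_star]

lemma hf_smul_right (c : ℂ) (x y : V n) : hf x (c • y) = star c * hf x y := by
  rw [← hf_star, hf_smul_left, star_mul', hf_star]

lemma hf_neg_left (x y : V n) : hf (-x) y = -hf x y := by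
  rw [← neg_one_smul ℂ, hf_smul_left, neg_one_mul]

lemma hf_neg_right (x y : V n) : hf x (-y) = -hf x y := by
  rw [← hf_star, hf_neg_left, star_neg, hf_star]

lemma hf_sub_left (x x' y : V n) : hf (x - x') y = hf x y - hf x' y := by
  rw [sub_eq_add_neg, hf_add_left, hf_neg_left, sub_eq_add_neg]

lemma hf_sub_right (x y y' : V n) : hf x (y - y') = hf x y - hf x y' := by
  rw [sub_eq_add_neg, hf_add_right, hf_neg_right, sub_eq_add_neg]

lemma hf_zero_left (y : V n) : hf 0 y = 0 := by
  have := hf_smul_left 0 0 y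
  rwa [zero_smul, zero_mul] at this

lemma hf_zero_right (y : V n) : hf y 0 = 0 := by
  rw [← hf_star, hf_zero_left, star_zero]

/-- the sign of the coordinate `j` -/
def sgn (j : Fin (n + 1)) : ℂ := if j = 0 then 1 else -1

lemma hf_eq (x y : V n) : hf x y = ∑ j, sgn j * (x j * star (y j)) := by
  unfold hf
  rw [Fin.sum_univ_succ]
  unfold sgn
  simp only [if_true, one_mul, Fin.succ_ne_zero, if_false, neg_one_mul, Finset.sum_neg_distrib]
  ring

lemma hf_single (j : Fin (n + 1)) (y : V n) : hf (Pi.single j 1) y = sgn j * star (y j) := by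
  rw [hf_eq, Finset.sum_eq_single j]
  · rw [Pi.single_eq_same, one_mul]
  · intro i _ hij
    rw [Pi.single_eq_of_ne hij, zero_mul, mul_zero]
  · intro h
    exact absurd (Finset.mem_univ j) h

lemma sgn_ne (j : Fin (n + 1)) : sgn j ≠ 0 := by
  unfold sgn
  split_ifs <;> norm_num

lemma nondeg {x : V n} (h : ∀ y, hf x y = 0) : x = 0 := by
  funext j
  have h1 := h (Pi.single j 1)
  rw [← hf_star, hf_single, star_mul', star_star] at h1
  rcases mul_eq_zero.1 h1 with h2 | h2
  · exact absurd (star_eq_zero.1 h2) (sgn_ne j)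
  · exact h2

lemma R_mulVec (a b x : V n) : R a b *ᵥ x = hf x b • a := by
  funext i
  show ∑ j, a i * hf (Pi.single j 1) b * x j = hf x b * a i
  rw [hf_eq x b, Finset.sum_mul]
  refine Finset.sum_congr rfl fun j _ => ?_
  rw [hf_single]
  ring

lemma N_mulVec (u w x : V n) : N u w *ᵥ x = hf x u • w - hf x w • u := by
  unfold N
  rw [sub_mulVec, R_mulVec, R_mulVec]

lemma mat_ext {A B : M n} (h : ∀ x, A *ᵥ x = B *ᵥ x) : A = B := by
  ext i j
  have := congrFun (h (Pi.single j 1)) i
  rwa [mulVec_single_one, mulVec_single_one] at this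

lemma N_add (u w w' : V n) : N u (w + w') = N u w + N u w' := by
  refine mat_ext fun x => ?_
  rw [add_mulVec, N_mulVec, N_mulVec, N_mulVec, hf_add_right]
  module

lemma N_smul (u w : V n) (c : ℝ) : N u ((c : ℂ) • w) = c • N u w := by
  refine mat_ext fun x => ?_
  rw [smul_mulVec, N_mulVec, N_mulVec, hf_smul_right]
  have h1 : star (c : ℂ) = c := Complex.conj_ofReal c
  rw [h1, ← Complex.coe_smul]
  module

lemma brk_mulVec (A B : M n) (x : V n) : (A * B - B * A) *ᵥ x = A *ᵥ (B *ᵥ x) - B *ᵥ (A *ᵥ x) := by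
  rw [sub_mulVec, mulVec_mulVec, mulVec_mulVec]

/-- the bracket with a skew operator for which `u` is an eigenvector -/
lemma brk_N {Y : M n} (hY : IsSk Y) {u w : V n} {c : ℂ} (hu : Y *ᵥ u = c • u) :
    Y * N u w - N u w * Y = N u (Y *ᵥ w + star c • w) := by
  refine mat_ext fun x => ?_
  have h1 : hf (Y *ᵥ x) u = -hf x (c • u) := by
    have := hY x u
    rw [hu] at this
    linear_combination this
  have h2 : hf (Y *ᵥ x) w = -hf x (Y *ᵥ w) := by
    linear_combination hY x w
  rw [brk_mulVec, N_mulVec, N_mulVec, N_mulVec, mulVec_sub, mulVec_smul, mulVec_smul, hu, h1, h2,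
    hf_smul_right, hf_add_right, hf_smul_right, star_star]
  module

/-- the form is negative definite on the complement of `u`, `v` -/
lemma neg_def {u v w : V n} (huu : hf u u = 0) (hvv : hf v v = 0) (huv : hf u v = 1)
    (hwu : hf w u = 0) (hwv : hf w v = 0) (hw : w ≠ 0) : hf w w ≠ 0 := by
  intro h0
  have hdiag : ∀ x : V n, hf x x = ((Complex.normSq (x 0) - ∑ i : Fin n, Complex.normSq (x i.succ) : ℝ) : ℂ) := by
    intro x
    unfold hf
    push_cast
    congr 1
    · rw [Complex.normSq_eq_conj_mul_self, mul_comm]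
      rfl
    · refine Finset.sum_congr rfl fun i _ => ?_
      rw [Complex.normSq_eq_conj_mul_self, mul_comm]
      rfl
  have hvu : hf v u = 1 := by rw [← hf_star, huv, star_one]
  have huw : hf u w = 0 := by rw [← hf_star, hwu, star_zero]
  have hvw : hf v w = 0 := by rw [← hf_star, hwv, star_zero]
  set z : V n := u + v with hz
  set x : V n := w 0 • z - z 0 • w with hx
  have hx0 : x 0 = 0 := by
    rw [hx]
    simp only [Pi.sub_apply, Pi.smul_apply, smul_eq_mul]
    ring
  have h1 : hf x x = 2 * (w 0 * star (w 0)) := by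
    rw [hx, hz]
    simp only [hf_sub_left, hf_sub_right, hf_smul_left, hf_smul_right, hf_add_left, hf_add_right,
      huu, hvv, huv, hvu, hwu, hwv, huw, hvw, h0]
    ring
  have h2 : (hf x x).re ≤ 0 := by
    rw [hdiag, Complex.ofReal_re, hx0, map_zero, zero_sub]
    have : 0 ≤ ∑ i : Fin n, Complex.normSq (x i.succ) :=
      Finset.sum_nonneg fun i _ => Complex.normSq_nonneg _
    linarith
  have h3 : w 0 * star (w 0) = (Complex.normSq (w 0) : ℂ) := by
    rw [Complex.normSq_eq_conj_mul_self, mul_comm]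
    rfl
  have h4 : w 0 = 0 := by
    rw [h1, h3] at h2
    have h5 : (2 * (Complex.normSq (w 0) : ℂ)).re = 2 * Complex.normSq (w 0) := by
      rw [← Complex.ofReal_ofNat, ← Complex.ofReal_mul, Complex.ofReal_re]
    rw [h5] at h2
    have h6 := Complex.normSq_nonneg (w 0)
    exact Complex.normSq_eq_zero.1 (by linarith)
  apply hw
  have h5 := hdiag w
  rw [h0, h4, map_zero, zero_sub] at h5
  have h6 : ∑ i : Fin n, Complex.normSq (w i.succ) = 0 := by
    have h7 : (0 : ℝ) = -∑ i : Fin n, Complex.normSq (w i.succ) := by exact_mod_cast h5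
    linarith
  rw [Finset.sum_eq_zero_iff_of_nonneg (fun i _ => Complex.normSq_nonneg _)] at h6
  funext j
  refine Fin.cases ?_ (fun i => ?_) j
  · exact h4
  · exact Complex.normSq_eq_zero.1 (h6 i (Finset.mem_univ i))

end Pool.Agent.N558.BTB
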