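import Mathlib
import Pool.Agent.N558.WG

/-!
# Descent on primes in the Witt group of `ℚ`
-/

set_option autoImplicit false

namespace Pool.Agent.N558.WG

/-- all prime divisors are smaller than `p` -/
def Sm (p : ℕ) (m : ℤ) : Prop := m ≠ 0 ∧ ∀ q : ℕ, q.Prime → (q : ℤ) ∣ m → q < p

lemma Sm.mul {p : ℕ} {a b : ℤ} (ha : Sm p a) (hb : Sm p b) : Sm p (a * b) := by
  refine ⟨mul_ne_zero ha.1 hb.1, fun q hq h => ?_⟩
  rcases (Nat.prime_iff_prime_int.mp hq).dvd_or_dvd h with h | h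
  · exact ha.2 q hq h
  · exact hb.2 q hq h

lemma Sm.neg {p : ℕ} {a : ℤ} (ha : Sm p a) : Sm p (-a) :=
  ⟨neg_ne_zero.mpr ha.1, fun q hq h => ha.2 q hq ((dvd_neg).mp h)⟩

lemma Sm.of_lt {p : ℕ} {m : ℤ} (h0 : m ≠ 0) (h1 : |m| < p) : Sm p m := by
  refine ⟨h0, fun q hq h => ?_⟩
  have h2 := Int.le_of_dvd (abs_pos.mpr h0) ((dvd_abs _ _).mpr h)
  exact_mod_cast lt_of_le_of_lt h2 h1

lemma Sm.of_dvd {p : ℕ} {a b : ℤ} (hb : Sm p b) (h : a ∣ b) : Sm p a := by
  refine ⟨fun h0 => hb.1 (by rw [h0] at h; exact zero_dvd_iff.mp h), fun q hq h1 => ?_⟩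
  exact hb.2 q hq (h1.trans h)

lemma Sm.one (p : ℕ) : Sm p 1 :=
  ⟨one_ne_zero, fun q hq h => absurd (Int.natAbs_dvd_natAbs.mpr h) (by
    simpa using hq.one_lt.ne')⟩

lemma Sm.not_dvd {p : ℕ} (hp : p.Prime) {a : ℤ} (ha : Sm p a) : ¬ (p : ℤ) ∣ a := fun h =>
  lt_irrefl p (ha.2 p hp h)

/-- the subgroup generated by the classes of smooth integers -/
noncomputable def S (p : ℕ) : AddSubgroup WQ where
  carrier := {x | ∃ l : List ℤ, (∀ m ∈ l, Sm p m) ∧ x = (l.map fun m : ℤ => c (m : ℚ)).sum}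
  zero_mem' := ⟨[], by simp, by simp⟩
  add_mem' := by
    rintro x y ⟨l, hl, rfl⟩ ⟨l', hl', rfl⟩
    refine ⟨l ++ l', ?_, by rw [List.map_append, List.sum_append]⟩
    intro m hm
    rcases List.mem_append.mp hm with h | h
    · exact hl m h
    · exact hl' m h
  neg_mem' := by
    rintro x ⟨l, hl, rfl⟩
    refine ⟨l.map (fun m => -m), ?_, ?_⟩
    · intro m hm
      obtain ⟨a, ha, rfl⟩ := List.mem_map.mp hm
      exact (hl a ha).neg
    · clear hl
      induction l with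
      | nil => simp
      | cons a l ih =>
        simp only [List.map_cons, List.sum_cons, neg_add]
        rw [ih]
        congr 1
        push_cast
        rw [c_neg]

lemma mem_S_of_Sm {p : ℕ} {m : ℤ} (h : Sm p m) : c (m : ℚ) ∈ S p := ⟨[m], by simpa using h, by simp⟩

/-- the class modulo the subgroup -/
noncomputable def cb (p : ℕ) (x : ℚ) : WQ ⧸ S p := QuotientAddGroup.mk' (S p) (c x)

lemma cb_Sm {p : ℕ} {m : ℤ} (h : Sm p m) : cb p (m : ℚ) = 0 := by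
  unfold cb
  rw [QuotientAddGroup.mk'_apply, QuotientAddGroup.eq_zero_iff]
  exact mem_S_of_Sm h

lemma cb_neg (p : ℕ) (x : ℚ) : cb p (-x) = -cb p x := by
  unfold cb; rw [c_neg, map_neg]

lemma cb_sq (p : ℕ) (a b : ℚ) (hb : b ≠ 0) : cb p (a * b ^ 2) = cb p a := by
  unfold cb; rw [c_sq a b hb]

lemma cb_pair (p : ℕ) (a b : ℚ) : cb p a + cb p b = cb p (a + b) + cb p (a * b * (a + b)) := by
  unfold cb; rw [← map_add, c_pair, map_add]

lemma E1 {p : ℕ} (hp : 0 < p) {m r l v : ℤ} (hm : m = r + p * l) (hv : Sm p v) (hm' : Sm p m)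
    (hr : Sm p r) (hl : l = 0 ∨ Sm p l) :
    cb p ((p : ℚ) * v * m) = cb p ((p : ℚ) * v * r) := by
  rcases hl with rfl | hl
  · rw [hm]; simp
  have hpq : (p : ℚ) ≠ 0 := by exact_mod_cast hp.ne'
  have hvq : (v : ℚ) ≠ 0 := by exact_mod_cast hv.1
  have h1 := cb_pair p ((p : ℚ) * v * r) (((v * l : ℤ) : ℚ) * (p : ℚ) ^ 2)
  rw [cb_sq p _ _ hpq, cb_Sm (hv.mul hl), add_zero] at h1
  have h2 : (p : ℚ) * v * r + ((v * l : ℤ) : ℚ) * (p : ℚ) ^ 2 = (p : ℚ) * v * m := by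
    rw [hm]; push_cast; ring
  rw [h2] at h1
  have h3 : (p : ℚ) * v * r * (((v * l : ℤ) : ℚ) * (p : ℚ) ^ 2) * ((p : ℚ) * v * m) =
      ((v * r * l * m : ℤ) : ℚ) * ((p : ℚ) ^ 2 * v) ^ 2 := by
    push_cast; ring
  rw [h3, cb_sq p _ _ (mul_ne_zero (pow_ne_zero _ hpq) hvq),
    cb_Sm (((hv.mul hr).mul hl).mul hm'), add_zero] at h1
  exact h1.symm

lemma E2pos {p : ℕ} (hp : p.Prime) : ∀ n : ℕ, Sm p (n : ℤ) → ∃ r : ℤ, 0 < r ∧ r < p ∧
    (p : ℤ) ∣ (n : ℤ) - r ∧ ∀ v, Sm p v → cb p ((p : ℚ) * v * ((n : ℤ) : ℚ)) =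
      cb p ((p : ℚ) * v * r) := by
  intro n
  induction n using Nat.strong_induction_on with
  | _ n ih =>
    intro hn
    have hn0 : 0 < n := by
      rcases Nat.eq_zero_or_pos n with h | h
      · exact absurd (by rw [h]; rfl) hn.1
      · exact h
    by_cases hlt : n < p
    · exact ⟨n, by exact_mod_cast hn0, by exact_mod_cast hlt, by simp, fun v _ => rfl⟩
    push Not at hlt
    have hn1 : n ≠ 1 := by
      have := hp.two_le; omega
    obtain ⟨n', hn'⟩ := Nat.minFac_dvd n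
    set q := n.minFac with hq
    have hqp : q.Prime := Nat.minFac_prime hn1
    have hqn : (q : ℤ) ∣ (n : ℤ) := by exact_mod_cast Nat.minFac_dvd n
    have hqlt : q < p := hn.2 q hqp hqn
    have hn'0 : 0 < n' := by
      rcases Nat.eq_zero_or_pos n' with h | h
      · rw [h] at hn'; omega
      · exact h
    have hn'lt : n' < n := by
      rw [hn']
      have := hqp.two_le
      nlinarith
    have hqS : Sm p (q : ℤ) := hn.of_dvd hqn
    have hn'S : Sm p (n' : ℤ) := hn.of_dvd (by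
      rw [hn']; exact ⟨q, by push_cast; ring⟩)
    obtain ⟨r', hr'0, hr'p, hr'd, hr'⟩ := ih n' hn'lt hn'S
    have hr'S : Sm p r' := Sm.of_lt hr'0.ne' (by rw [abs_of_pos hr'0]; exact hr'p)
    set r := ((q : ℤ) * r') % p with hr
    set l := ((q : ℤ) * r') / p with hl
    have hp0 : (0 : ℤ) < p := by exact_mod_cast hp.pos
    have hrl : (q : ℤ) * r' = r + p * l := by
      rw [hr, hl]; exact (Int.emod_add_mul_ediv _ _).symm
    have hr0 : 0 ≤ r := Int.emod_nonneg _ hp0.ne'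
    have hrp : r < p := Int.emod_lt_of_pos _ hp0
    have hrne : r ≠ 0 := by
      intro h0
      have : (p : ℤ) ∣ (q : ℤ) * r' := by rw [hrl, h0, zero_add]; exact dvd_mul_right _ _
      rcases (Nat.prime_iff_prime_int.mp hp).dvd_or_dvd this with h | h
      · exact hqS.not_dvd hp h
      · exact hr'S.not_dvd hp h
    have hrpos : 0 < r := lt_of_le_of_ne hr0 (Ne.symm hrne)
    have hqr0 : (0 : ℤ) ≤ (q : ℤ) * r' := mul_nonneg (by positivity) hr'0.le
    have hl0 : 0 ≤ l := Int.ediv_nonneg hqr0 hp0.le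
    have hlp : l < p := by
      apply Int.ediv_lt_of_lt_mul hp0
      have : (q : ℤ) < p := by exact_mod_cast hqlt
      nlinarith
    have hlS : l = 0 ∨ Sm p l := by
      by_cases h : l = 0
      · left; exact h
      · right; exact Sm.of_lt h (by rw [abs_of_nonneg hl0]; exact hlp)
    have hrS : Sm p r := Sm.of_lt hrne (by rw [abs_of_nonneg hr0]; exact hrp)
    refine ⟨r, hrpos, hrp, ?_, ?_⟩
    · have h1 : (n : ℤ) - r = q * ((n' : ℤ) - r') + p * l := by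
        have : (n : ℤ) = q * n' := by rw [hn']; push_cast; rfl
        rw [this]
        linear_combination hrl
      rw [h1]
      exact dvd_add (dvd_mul_of_dvd_right hr'd _) (dvd_mul_right _ _)
    · intro v hv
      have h1 : (p : ℚ) * v * ((n : ℤ) : ℚ) = (p : ℚ) * ((v * q : ℤ) : ℚ) * ((n' : ℤ) : ℚ) := by
        have : (n : ℚ) = q * n' := by
          conv_lhs => rw [hn']
          push_cast; rfl
        push_cast
        rw [this]; ring
      rw [h1, hr' (v * q) (hv.mul hqS)]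
      have h2 : (p : ℚ) * ((v * q : ℤ) : ℚ) * (r' : ℚ) = (p : ℚ) * v * (((q : ℤ) * r' : ℤ) : ℚ) := by
        push_cast; ring
      rw [h2]
      exact E1 hp.pos hrl hv (hqS.mul hr'S) hrS hlS

lemma E2 {p : ℕ} (hp : p.Prime) (m : ℤ) (hm : Sm p m) : ∃ r : ℤ, 0 < r ∧ r < p ∧
    (p : ℤ) ∣ m - r ∧ ∀ v, Sm p v → cb p ((p : ℚ) * v * m) = cb p ((p : ℚ) * v * r) := by
  rcases le_total 0 m with h | h
  · obtain ⟨n, rfl⟩ := Int.eq_ofNat_of_zero_le h
    exact E2pos hp n hm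
  · obtain ⟨n, hn⟩ := Int.eq_ofNat_of_zero_le (neg_nonneg.mpr h)
    have hm' : m = -(n : ℤ) := by linear_combination -hn
    have hnS : Sm p (n : ℤ) := by rw [← hn]; exact hm.neg
    obtain ⟨r, hr0, hrp, hrd, hr⟩ := E2pos hp n hnS
    have hrS : Sm p r := Sm.of_lt hr0.ne' (by rw [abs_of_pos hr0]; exact hrp)
    refine ⟨p - r, by linarith, by linarith, ?_, ?_⟩
    · have : m - (p - r) = -((n : ℤ) - r) + p * (-1) := by rw [hm']; ring
      rw [this]
      exact dvd_add ((dvd_neg).mpr hrd) (dvd_mul_right _ _)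
    · intro v hv
      have h1 : (p : ℚ) * v * (m : ℚ) = (p : ℚ) * ((-v : ℤ) : ℚ) * ((n : ℤ) : ℚ) := by
        rw [hm']; push_cast; ring
      rw [h1, hr (-v) hv.neg]
      have h2 : (p : ℚ) * ((-v : ℤ) : ℚ) * (r : ℚ) = (p : ℚ) * v * ((-r : ℤ) : ℚ) := by
        push_cast; ring
      rw [h2]
      refine E1 hp.pos (l := -1) (by ring) hv hrS.neg ?_ (Or.inr (Sm.one p).neg)
      exact Sm.of_lt (by linarith) (by rw [abs_of_pos (by linarith)]; linarith)

lemma E3 {p : ℕ} (hp : p.Prime) {m m' : ℤ} (hm : Sm p m) (hm' : Sm p m')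
    (h : (p : ℤ) ∣ m - m') : cb p ((p : ℚ) * m) = cb p ((p : ℚ) * m') := by
  obtain ⟨r, hr0, hrp, hrd, hr⟩ := E2 hp m hm
  obtain ⟨r', hr'0, hr'p, hr'd, hr'⟩ := E2 hp m' hm'
  have h1 : r = r' := by
    have h2 : (p : ℤ) ∣ r - r' := by
      have : r - r' = (m - m') - (m - r) + (m' - r') := by ring
      rw [this]
      exact dvd_add (dvd_sub h hrd) hr'd
    obtain ⟨k, hk⟩ := h2
    have h3 : k = 0 := by
      have hp0 : (0 : ℤ) < p := by exact_mod_cast hp.pos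
      by_contra hk0
      rcases lt_or_gt_of_ne hk0 with h | h
      · have : (p : ℤ) * k ≤ p * (-1) := by nlinarith
        linarith
      · have : (p : ℤ) * 1 ≤ p * k := by nlinarith
        linarith
    rw [h3, mul_zero] at hk
    linarith
  have e1 := hr 1 (Sm.one p)
  have e2 := hr' 1 (Sm.one p)
  simp only [Int.cast_one, mul_one] at e1 e2
  rw [e1, e2, h1]

lemma E4 {p : ℕ} (hp : p.Prime) {a b : ℤ} (ha : Sm p a) (hb : Sm p b)
    (hab : ¬ (p : ℤ) ∣ a + b) : ∃ d, Sm p d ∧ (p : ℤ) ∣ d - (a + b) ∧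
      cb p ((p : ℚ) * a) + cb p ((p : ℚ) * b) =
        cb p ((p : ℚ) * d) + cb p ((p : ℚ) * ((a * b * d : ℤ) : ℚ)) := by
  have hp0 : (0 : ℤ) < p := by exact_mod_cast hp.pos
  obtain ⟨r, hr0, hrp, hrd, -⟩ := E2 hp a ha
  obtain ⟨s, hs0, hsp, hsd, -⟩ := E2 hp b hb
  have hrS : Sm p r := Sm.of_lt hr0.ne' (by rw [abs_of_pos hr0]; exact hrp)
  obtain ⟨s', hs'S, hs'd, h0, h1⟩ : ∃ s', Sm p s' ∧ (p : ℤ) ∣ b - s' ∧ 0 < r + s' ∧
      r + s' < p := by
    by_cases h : r + s < p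
    · exact ⟨s, Sm.of_lt hs0.ne' (by rw [abs_of_pos hs0]; exact hsp), hsd, by linarith, h⟩
    · have hne : r + s ≠ p := by
        intro h2
        apply hab
        have : a + b = (a - r) + (b - s) + p := by rw [← h2]; ring
        rw [this]
        exact dvd_add (dvd_add hrd hsd) dvd_rfl
      refine ⟨s - p, Sm.of_lt (by linarith) (by rw [abs_of_neg (by linarith)]; linarith), ?_, ?_,
        by linarith⟩
      · have : b - (s - p) = (b - s) + p := by ring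
        rw [this]
        exact dvd_add hsd dvd_rfl
      · push Not at h
        have : (p : ℤ) < r + s := lt_of_le_of_ne h (Ne.symm hne)
        linarith
  have hdS : Sm p (r + s') := Sm.of_lt h0.ne' (by rw [abs_of_pos h0]; exact h1)
  refine ⟨r + s', hdS, ?_, ?_⟩
  · have : r + s' - (a + b) = -((a - r) + (b - s')) := by ring
    rw [this]
    exact (dvd_neg).mpr (dvd_add hrd hs'd)
  · have hpq : (p : ℚ) ≠ 0 := by exact_mod_cast hp.ne_zero
    have h2 := cb_pair p ((p : ℚ) * r) ((p : ℚ) * s')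
    rw [E3 hp ha hrS hrd, E3 hp hb hs'S hs'd, h2]
    congr 1
    · congr 1; push_cast; ring
    · have h3 : (p : ℚ) * r * ((p : ℚ) * s') * ((p : ℚ) * r + (p : ℚ) * s') =
          ((p : ℚ) * ((r * s' * (r + s') : ℤ) : ℚ)) * (p : ℚ) ^ 2 := by
        push_cast; ring
      rw [h3, cb_sq p _ _ hpq]
      refine E3 hp ((hrS.mul hs'S).mul hdS) ((ha.mul hb).mul hdS) ?_
      have h4 : r * s' * (r + s') - a * b * (r + s') =
          (-(r + s')) * ((a - r) * b + r * (b - s')) := by ring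
      rw [h4]
      exact dvd_mul_of_dvd_right (dvd_add (dvd_mul_of_dvd_left hrd _)
        (dvd_mul_of_dvd_right hs'd _)) _

lemma cb_mul_sq {p : ℕ} (a x : ℤ) (hx : x ≠ 0) :
    cb p ((p : ℚ) * ((a * x ^ 2 : ℤ) : ℚ)) = cb p ((p : ℚ) * a) := by
  have : (p : ℚ) * ((a * x ^ 2 : ℤ) : ℚ) = (p : ℚ) * a * (x : ℚ) ^ 2 := by push_cast; ring
  rw [this, cb_sq p _ _ (by exact_mod_cast hx)]

lemma exists_rep {p : ℕ} (hp : p.Prime) (hp2 : p ≠ 2) (a b e : ℤ) (ha : ¬ (p : ℤ) ∣ a)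
    (hb : ¬ (p : ℤ) ∣ b) : ∃ x y : ℤ, 0 ≤ x ∧ x < p ∧ 0 ≤ y ∧ y < p ∧
      (p : ℤ) ∣ a * x ^ 2 + b * y ^ 2 - e := by
  haveI := Fact.mk hp
  have ha' : (a : ZMod p) ≠ 0 := by
    rw [Ne, ZMod.intCast_zmod_eq_zero_iff_dvd]; exact ha
  have hb' : (b : ZMod p) ≠ 0 := by
    rw [Ne, ZMod.intCast_zmod_eq_zero_iff_dvd]; exact hb
  have hd1 : (Polynomial.C (a : ZMod p) * Polynomial.X ^ 2 + Polynomial.C 0 * Polynomial.X +
      Polynomial.C 0).degree = 2 := Polynomial.degree_quadratic ha'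
  have hd2 : (Polynomial.C (b : ZMod p) * Polynomial.X ^ 2 + Polynomial.C 0 * Polynomial.X +
      Polynomial.C (-(e : ZMod p))).degree = 2 := Polynomial.degree_quadratic hb'
  obtain ⟨x, y, hxy⟩ := FiniteField.exists_root_sum_quadratic hd1 hd2 (by
    rw [ZMod.card]
    exact (hp.eq_two_or_odd).resolve_left hp2)
  refine ⟨x.val, y.val, by positivity, by exact_mod_cast ZMod.val_lt x, by positivity,
    by exact_mod_cast ZMod.val_lt y, ?_⟩
  rw [← ZMod.intCast_zmod_eq_zero_iff_dvd]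
  push_cast
  rw [ZMod.natCast_zmod_val, ZMod.natCast_zmod_val]
  simp only [Polynomial.eval_add, Polynomial.eval_mul, Polynomial.eval_C, Polynomial.eval_pow,
    Polynomial.eval_X] at hxy
  linear_combination hxy

lemma E5 {p : ℕ} (hp : p.Prime) (hp2 : p ≠ 2) {a b e : ℤ} (ha : Sm p a) (hb : Sm p b)
    (he : Sm p e) : cb p ((p : ℚ) * a) + cb p ((p : ℚ) * b) =
      cb p ((p : ℚ) * e) + cb p ((p : ℚ) * ((a * b * e : ℤ) : ℚ)) := by
  obtain ⟨x, y, hx0, hxp, hy0, hyp, hxy⟩ := exists_rep hp hp2 a b e (ha.not_dvd hp)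
    (hb.not_dvd hp)
  by_cases hx : x = 0
  · have hy : y ≠ 0 := by
      rintro rfl
      rw [hx] at hxy
      apply he.not_dvd hp
      have : e = -(a * 0 ^ 2 + b * 0 ^ 2 - e) := by ring
      rw [this]
      exact (dvd_neg).mpr hxy
    have hyS : Sm p y := Sm.of_lt hy (by rw [abs_of_nonneg hy0]; exact hyp)
    have hy2 : Sm p (y ^ 2) := by rw [sq]; exact hyS.mul hyS
    have h1 : cb p ((p : ℚ) * b) = cb p ((p : ℚ) * e) := by
      rw [← cb_mul_sq b y hy]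
      refine E3 hp (hb.mul hy2) he ?_
      have : b * y ^ 2 - e = a * x ^ 2 + b * y ^ 2 - e := by rw [hx]; ring
      rw [this]; exact hxy
    have h2 : cb p ((p : ℚ) * ((a * b * e : ℤ) : ℚ)) = cb p ((p : ℚ) * a) := by
      have hby : b * y ≠ 0 := (hb.mul hyS).1
      rw [← cb_mul_sq a (b * y) hby]
      refine E3 hp ((ha.mul hb).mul he) (ha.mul (by rw [sq]; exact (hb.mul hyS).mul (hb.mul hyS))) ?_
      have : a * b * e - a * (b * y) ^ 2 = -(a * b) * (a * x ^ 2 + b * y ^ 2 - e) := by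
        rw [hx]; ring
      rw [this]
      exact dvd_mul_of_dvd_right hxy _
    rw [h1, h2, add_comm]
  have hxS : Sm p x := Sm.of_lt hx (by rw [abs_of_nonneg hx0]; exact hxp)
  have hx2 : Sm p (x ^ 2) := by rw [sq]; exact hxS.mul hxS
  by_cases hy : y = 0
  · have h1 : cb p ((p : ℚ) * a) = cb p ((p : ℚ) * e) := by
      rw [← cb_mul_sq a x hx]
      refine E3 hp (ha.mul hx2) he ?_
      have : a * x ^ 2 - e = a * x ^ 2 + b * y ^ 2 - e := by rw [hy]; ring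
      rw [this]; exact hxy
    have h2 : cb p ((p : ℚ) * ((a * b * e : ℤ) : ℚ)) = cb p ((p : ℚ) * b) := by
      have hby : a * x ≠ 0 := (ha.mul hxS).1
      rw [← cb_mul_sq b (a * x) hby]
      refine E3 hp ((ha.mul hb).mul he) (hb.mul (by rw [sq]; exact (ha.mul hxS).mul (ha.mul hxS))) ?_
      have : a * b * e - b * (a * x) ^ 2 = -(a * b) * (a * x ^ 2 + b * y ^ 2 - e) := by
        rw [hy]; ring
      rw [this]
      exact dvd_mul_of_dvd_right hxy _
    rw [h1, h2]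
  have hyS : Sm p y := Sm.of_lt hy (by rw [abs_of_nonneg hy0]; exact hyp)
  have hy2 : Sm p (y ^ 2) := by rw [sq]; exact hyS.mul hyS
  obtain ⟨d, hdS, hd, hE⟩ := E4 hp (ha.mul hx2) (hb.mul hy2) (by
    intro h
    apply he.not_dvd hp
    have : e = (a * x ^ 2 + b * y ^ 2) - (a * x ^ 2 + b * y ^ 2 - e) := by ring
    rw [this]
    exact dvd_sub h hxy)
  rw [cb_mul_sq a x hx, cb_mul_sq b y hy] at hE
  rw [hE]
  have hde : (p : ℤ) ∣ d - e := by
    have : d - e = (d - (a * x ^ 2 + b * y ^ 2)) + (a * x ^ 2 + b * y ^ 2 - e) := by ring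
    rw [this]
    exact dvd_add hd hxy
  congr 1
  · exact E3 hp hdS he hde
  · have h1 : a * x ^ 2 * (b * y ^ 2) * d = a * b * d * (x * y) ^ 2 := by ring
    rw [h1, cb_mul_sq _ _ (mul_ne_zero hx hy)]
    refine E3 hp ((ha.mul hb).mul hdS) ((ha.mul hb).mul he) ?_
    have : a * b * d - a * b * e = a * b * (d - e) := by ring
    rw [this]
    exact dvd_mul_of_dvd_right hde _

lemma E6 {p : ℕ} (hp : p.Prime) (hp2 : p ≠ 2) {a b e : ℤ} (ha : Sm p a) (hb : Sm p b)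
    (he : Sm p e) : cb p ((p : ℚ) * a) + cb p ((p : ℚ) * b) + cb p ((p : ℚ) * e) =
      cb p ((p : ℚ) * ((a * b * (-e) : ℤ) : ℚ)) := by
  rw [E5 hp hp2 ha hb he.neg]
  have h1 : (p : ℚ) * ((-e : ℤ) : ℚ) = -((p : ℚ) * e) := by push_cast; ring
  rw [h1, cb_neg]
  abel

lemma Sm_two {m : ℤ} (h : Sm 2 m) : m = 1 ∨ m = -1 := by
  have h1 : m.natAbs = 1 := by
    by_contra h2
    have h3 := Nat.minFac_prime h2
    have h4 := h.2 _ h3 (by
      rw [← Int.dvd_natAbs]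
      exact_mod_cast Nat.minFac_dvd m.natAbs)
    exact absurd h3.two_le (not_le.mpr h4)
  exact Int.natAbs_eq_iff.mp h1 |>.imp (fun h => by simpa using h) (fun h => by simpa using h)

lemma E7 {a b : ℤ} (ha : Sm 2 a) (hb : Sm 2 b) :
    cb 2 (((2 : ℕ) : ℚ) * a) + cb 2 (((2 : ℕ) : ℚ) * b) = 0 := by
  have h1 : cb 2 2 + cb 2 2 = 0 := by
    have h2 := cb_pair 2 1 1
    have h3 : cb 2 1 = 0 := by
      have := cb_Sm (Sm.one 2)
      simpa using this
    have e1 : (1 : ℚ) + 1 = 2 := by norm_num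
    have e2 : (1 : ℚ) * 1 * 2 = 2 := by norm_num
    rw [e1, e2, h3, add_zero] at h2
    exact h2.symm
  have e1 : ((2 : ℕ) : ℚ) * ((1 : ℤ) : ℚ) = 2 := by norm_num
  have e2 : ((2 : ℕ) : ℚ) * ((-1 : ℤ) : ℚ) = -2 := by norm_num
  rcases Sm_two ha with rfl | rfl <;> rcases Sm_two hb with rfl | rfl
  · rw [e1, h1]
  · rw [e1, e2, cb_neg]; abel
  · rw [e1, e2, cb_neg]; abel
  · rw [e2, cb_neg, ← neg_add, h1, neg_zero]

end Pool.Agent.N558.WG
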