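import Mathlib
import Pool.Agent.N558.Desc

/-!
# Descent on primes in the Witt group of `ℚ`, second part
-/

set_option autoImplicit false

namespace Pool.Agent.N558.WG

/-- reduction to at most two terms -/
lemma E8 {p : ℕ} (hp : p.Prime) (l : List ℤ) (hl : ∀ m ∈ l, Sm p m) :
    ∃ l' : List ℤ, (∀ m ∈ l', Sm p m) ∧ l'.length ≤ 2 ∧ (p = 2 → l'.length ≤ 1) ∧
      (l.map fun m : ℤ => cb p ((p : ℚ) * m)).sum =
        (l'.map fun m : ℤ => cb p ((p : ℚ) * m)).sum := by
  induction l with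
  | nil => exact ⟨[], by simp, by simp, by simp, rfl⟩
  | cons a l ih =>
    obtain ⟨l', h1, h2, h3, h4⟩ := ih (fun m hm => hl m (List.mem_cons_of_mem _ hm))
    have ha : Sm p a := hl a List.mem_cons_self
    rw [List.map_cons, List.sum_cons, h4]
    by_cases hp2 : p = 2
    · subst hp2
      have h3' := h3 rfl
      match l', h1, h3' with
      | [], _, _ => exact ⟨[a], by simpa using ha, by simp, by simp, by simp⟩
      | [b], h1, _ =>
        refine ⟨[], by simp, by simp, by simp, ?_⟩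
        have hb : Sm 2 b := h1 b (by simp)
        simp only [List.map_cons, List.map_nil, List.sum_cons, List.sum_nil, add_zero]
        exact E7 ha hb
      | _ :: _ :: _, _, h => simp at h
    · match l', h1, h2 with
      | [], _, _ =>
        exact ⟨[a], by simpa using ha, by simp, fun h => absurd h hp2, by simp⟩
      | [b], h1, _ =>
        refine ⟨[a, b], ?_, by simp, fun h => absurd h hp2, by simp⟩
        intro m hm
        simp only [List.mem_cons, List.not_mem_nil, or_false] at hm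
        rcases hm with rfl | rfl
        · exact ha
        · exact h1 m (by simp)
      | [b, e], h1, _ =>
        have hb : Sm p b := h1 b (by simp)
        have he : Sm p e := h1 e (by simp)
        refine ⟨[a * b * (-e)], ?_, by simp, fun h => absurd h hp2, ?_⟩
        · intro m hm
          simp only [List.mem_cons, List.not_mem_nil, or_false] at hm
          rw [hm]
          exact (ha.mul hb).mul he.neg
        · simp only [List.map_cons, List.map_nil, List.sum_cons, List.sum_nil, add_zero]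
          rw [← E6 hp hp2 ha hb he]
          abel
      | _ :: _ :: _ :: _, _, h => simp at h

lemma E9 {p : ℕ} (hp : p.Prime) {m : ℤ} (hm : Sm (p + 1) m) :
    cb p (m : ℚ) = 0 ∨ ∃ b, Sm p b ∧ cb p (m : ℚ) = cb p ((p : ℚ) * b) := by
  have hfin : FiniteMultiplicity (p : ℤ) m := by
    rw [Int.finiteMultiplicity_iff]
    exact ⟨by simpa using hp.ne_one, hm.1⟩
  obtain ⟨m₀, hm₀, hnd⟩ := hfin.exists_eq_pow_mul_and_not_dvd
  set k := multiplicity (p : ℤ) m
  have hm₀S : Sm p m₀ := by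
    have h1 : Sm (p + 1) m₀ := hm.of_dvd (by rw [hm₀]; exact dvd_mul_left _ _)
    refine ⟨h1.1, fun q hq hd => ?_⟩
    have h2 := h1.2 q hq hd
    rcases Nat.lt_succ_iff_lt_or_eq.mp h2 with h | h
    · exact h
    · rw [h] at hd; exact absurd hd hnd
  have hpq : (p : ℚ) ≠ 0 := by exact_mod_cast hp.ne_zero
  rcases Nat.even_or_odd' k with ⟨j, hj | hj⟩
  · left
    have : (m : ℚ) = (m₀ : ℚ) * ((p : ℚ) ^ j) ^ 2 := by
      rw [hm₀, hj]; push_cast; ring
    rw [this, cb_sq p _ _ (pow_ne_zero _ hpq), cb_Sm hm₀S]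
  · right
    refine ⟨m₀, hm₀S, ?_⟩
    have : (m : ℚ) = (p : ℚ) * (m₀ : ℚ) * ((p : ℚ) ^ j) ^ 2 := by
      rw [hm₀, hj]; push_cast; ring
    rw [this, cb_sq p _ _ (pow_ne_zero _ hpq)]

lemma E10 {p : ℕ} (hp : p.Prime) {x : WQ} (hx : x ∈ S (p + 1)) :
    ∃ l' : List ℤ, (∀ m ∈ l', Sm p m) ∧ l'.length ≤ 2 ∧ (p = 2 → l'.length ≤ 1) ∧
      QuotientAddGroup.mk' (S p) x = (l'.map fun m : ℤ => cb p ((p : ℚ) * m)).sum := by
  obtain ⟨l, hl, rfl⟩ := hx
  have h1 : ∃ l₁ : List ℤ, (∀ m ∈ l₁, Sm p m) ∧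
      QuotientAddGroup.mk' (S p) (l.map fun m : ℤ => c (m : ℚ)).sum =
        (l₁.map fun m : ℤ => cb p ((p : ℚ) * m)).sum := by
    induction l with
    | nil => exact ⟨[], by simp, by simp⟩
    | cons a l ih =>
      obtain ⟨l₁, h2, h3⟩ := ih (fun m hm => hl m (List.mem_cons_of_mem _ hm))
      have ha : Sm (p + 1) a := hl a List.mem_cons_self
      rw [List.map_cons, List.sum_cons, map_add, h3]
      have h4 : QuotientAddGroup.mk' (S p) (c (a : ℚ)) = cb p (a : ℚ) := rfl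
      rw [h4]
      rcases E9 hp ha with h | ⟨b, hb, h⟩
      · exact ⟨l₁, h2, by rw [h, zero_add]⟩
      · refine ⟨b :: l₁, ?_, by rw [h, List.map_cons, List.sum_cons]⟩
        intro m hm
        rcases List.mem_cons.mp hm with rfl | hm
        · exact hb
        · exact h2 m hm
  obtain ⟨l₁, h2, h3⟩ := h1
  obtain ⟨l', h5, h6, h7, h8⟩ := E8 hp l₁ h2
  exact ⟨l', h5, h6, h7, by rw [h3, h8]⟩

/-- the property of the class `x` used at the prime `p` -/
def PU (p : ℕ) (x : WQ) : Prop :=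
  ∀ (u : List ℤ) (n : ℕ) (b : Fin n → ℤ), (∀ m ∈ u, ¬ (p : ℤ) ∣ m) → (∀ i, ¬ (p : ℤ) ∣ b i) →
    0 < n → x = (u.map fun m : ℤ => c (m : ℚ)).sum + ∑ i, c ((p : ℚ) * b i) →
    ∃ z : Fin n → ℤ, (∃ i, ¬ (p : ℤ) ∣ z i) ∧ (p : ℤ) ∣ ∑ i, b i * z i ^ 2

lemma descent {p : ℕ} (hp : p.Prime) {x : WQ} (hx : x ∈ S (p + 1)) (hPU : PU p x) :
    x ∈ S p := by
  have hpi := Nat.prime_iff_prime_int.mp hp
  obtain ⟨l', h1, h2, h3, h4⟩ := E10 hp hx
  rw [← QuotientAddGroup.eq_zero_iff]
  change QuotientAddGroup.mk' (S p) x = 0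
  match l', h1, h2, h3, h4 with
  | [], _, _, _, h4 => simpa using h4
  | [b], h1, _, _, h4 =>
    exfalso
    have hb : Sm p b := h1 b (by simp)
    have h5 : x - c ((p : ℚ) * b) ∈ S p := by
      rw [← QuotientAddGroup.eq_zero_iff]
      change QuotientAddGroup.mk' (S p) (x - c ((p : ℚ) * b)) = 0
      rw [map_sub, h4]
      simp [cb]
    obtain ⟨u, hu, hxu⟩ := h5
    obtain ⟨z, ⟨i, hi⟩, hz⟩ := hPU u 1 ![b] (fun m hm => (hu m hm).not_dvd hp)
      (fun i => by fin_cases i; exact hb.not_dvd hp) one_pos (by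
        rw [← hxu]; simp)
    have hi0 : i = 0 := Subsingleton.elim _ _
    subst hi0
    rw [Fin.sum_univ_one] at hz
    rcases hpi.dvd_or_dvd hz with h | h
    · exact hb.not_dvd hp h
    · exact hi (hpi.dvd_of_dvd_pow h)
  | [b, b'], h1, _, hp2, h4 =>
    have hp2' : p ≠ 2 := by
      intro h
      have := hp2 h
      simp at this
    have hb : Sm p b := h1 b (by simp)
    have hb' : Sm p b' := h1 b' (by simp)
    have h4' : QuotientAddGroup.mk' (S p) x = cb p ((p : ℚ) * b) + cb p ((p : ℚ) * b') := by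
      simpa using h4
    have h5 : x - c ((p : ℚ) * b) - c ((p : ℚ) * b') ∈ S p := by
      rw [← QuotientAddGroup.eq_zero_iff]
      change QuotientAddGroup.mk' (S p) (x - c ((p : ℚ) * b) - c ((p : ℚ) * b')) = 0
      rw [map_sub, map_sub, h4']
      simp [cb]
    obtain ⟨u, hu, hxu⟩ := h5
    obtain ⟨z, hzne, hz⟩ := hPU u 2 ![b, b'] (fun m hm => (hu m hm).not_dvd hp)
      (fun i => by
        fin_cases i
        · exact hb.not_dvd hp
        · exact hb'.not_dvd hp) two_pos (by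
        rw [← hxu, Fin.sum_univ_two]; simp)
    rw [Fin.sum_univ_two] at hz
    simp only [Matrix.cons_val_zero, Matrix.cons_val_one] at hz
    have hz0 : ¬ (p : ℤ) ∣ z 0 := by
      intro h
      have h6 : (p : ℤ) ∣ b' * z 1 ^ 2 := by
        have : b' * z 1 ^ 2 = (b * z 0 ^ 2 + b' * z 1 ^ 2) - b * z 0 * z 0 := by ring
        rw [this]
        exact dvd_sub hz (dvd_mul_of_dvd_right h _)
      have h7 : (p : ℤ) ∣ z 1 := by
        rcases hpi.dvd_or_dvd h6 with h | h
        · exact absurd h (hb'.not_dvd hp)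
        · exact hpi.dvd_of_dvd_pow h
      obtain ⟨i, hi⟩ := hzne
      fin_cases i
      · exact hi h
      · exact hi h7
    have hz1 : ¬ (p : ℤ) ∣ z 1 := by
      intro h
      have h6 : (p : ℤ) ∣ b * z 0 ^ 2 := by
        have : b * z 0 ^ 2 = (b * z 0 ^ 2 + b' * z 1 ^ 2) - b' * z 1 * z 1 := by ring
        rw [this]
        exact dvd_sub hz (dvd_mul_of_dvd_right h _)
      rcases hpi.dvd_or_dvd h6 with h | h
      · exact hb.not_dvd hp h
      · exact hz0 (hpi.dvd_of_dvd_pow h)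
    have hp0 : (0 : ℤ) < p := by exact_mod_cast hp.pos
    have hrep : ∀ w : ℤ, ¬ (p : ℤ) ∣ w → ∃ r, Sm p r ∧ (p : ℤ) ∣ w - r := by
      intro w hw
      refine ⟨w % p, ?_, Int.dvd_self_sub_emod⟩
      refine Sm.of_lt ?_ ?_
      · intro h0; exact hw (Int.dvd_of_emod_eq_zero h0)
      · rw [abs_of_nonneg (Int.emod_nonneg _ hp0.ne')]
        exact Int.emod_lt_of_pos _ hp0
    obtain ⟨r, hrS, hr⟩ := hrep _ hz0
    obtain ⟨s, hsS, hs⟩ := hrep _ hz1
    rw [h4']
    have e1 : cb p ((p : ℚ) * b) = cb p ((p : ℚ) * ((-b' : ℤ) : ℚ)) := by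
      rw [← cb_mul_sq b r hrS.1, ← cb_mul_sq (-b') s hsS.1]
      refine E3 hp (hb.mul (by rw [sq]; exact hrS.mul hrS))
        (hb'.neg.mul (by rw [sq]; exact hsS.mul hsS)) ?_
      have : b * r ^ 2 - -b' * s ^ 2 = (b * z 0 ^ 2 + b' * z 1 ^ 2) -
          (b * (z 0 + r)) * (z 0 - r) - (b' * (z 1 + s)) * (z 1 - s) := by ring
      rw [this]
      exact dvd_sub (dvd_sub hz (dvd_mul_of_dvd_right hr _)) (dvd_mul_of_dvd_right hs _)
    have e2 : (p : ℚ) * ((-b' : ℤ) : ℚ) = -((p : ℚ) * b') := by push_cast; ring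
    rw [e1, e2, cb_neg, neg_add_cancel]
  | _ :: _ :: _ :: _, _, h, _, _ => simp at h

lemma S_le_of_not_prime {N : ℕ} (hN : ¬ N.Prime) {x : WQ} (hx : x ∈ S (N + 1)) : x ∈ S N := by
  obtain ⟨l, hl, rfl⟩ := hx
  refine ⟨l, fun m hm => ⟨(hl m hm).1, fun q hq hd => ?_⟩, rfl⟩
  have h2 := (hl m hm).2 q hq hd
  rcases Nat.lt_succ_iff_lt_or_eq.mp h2 with h | h
  · exact h
  · rw [h] at hq; exact absurd hq hN

lemma mem_S_zero {x : WQ} (hPU : ∀ p : ℕ, p.Prime → PU p x) : ∀ N, x ∈ S N → x ∈ S 0 := by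
  intro N
  induction N with
  | zero => exact fun h => h
  | succ N ih =>
    intro h
    by_cases hN : N.Prime
    · exact ih (descent hN h (hPU N hN))
    · exact ih (S_le_of_not_prime hN h)

lemma S_zero {x : WQ} (hx : x ∈ S 0) : ∃ k : ℤ, x = k • c 1 := by
  obtain ⟨l, hl, rfl⟩ := hx
  induction l with
  | nil => exact ⟨0, by simp⟩
  | cons a l ih =>
    obtain ⟨k, hk⟩ := ih (fun m hm => hl m (List.mem_cons_of_mem _ hm))
    rw [List.map_cons, List.sum_cons, hk]
    have ha : Sm 0 a := hl a List.mem_cons_self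
    have ha2 : Sm 2 a := ⟨ha.1, fun q hq hd => absurd (ha.2 q hq hd) (by omega)⟩
    rcases Sm_two ha2 with rfl | rfl
    · exact ⟨k + 1, by rw [add_smul, one_smul, Int.cast_one, add_comm]⟩
    · refine ⟨k - 1, ?_⟩
      rw [sub_smul, one_smul]
      have : ((-1 : ℤ) : ℚ) = -1 := by norm_num
      rw [this, c_neg]
      abel

/-- every element lies in some `S N` -/
lemma c_rat (a : ℚ) : c a = c (((a.num * a.den : ℤ)) : ℚ) := by
  have h : (((a.num * a.den : ℤ)) : ℚ) = a * (a.den : ℚ) ^ 2 := by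
    push_cast
    rw [← Rat.mul_den_eq_num a]
    ring
  rw [h, c_sq a _ (by exact_mod_cast a.den_ne_zero)]

lemma exists_S (s : Multiset ℚ) : ∃ N, (s.map c).sum ∈ S N := by
  induction s using Multiset.induction with
  | empty => exact ⟨0, by simp⟩
  | cons a s ih =>
    obtain ⟨N, hN⟩ := ih
    rw [Multiset.map_cons, Multiset.sum_cons]
    have hmono : ∀ N M : ℕ, N ≤ M → S N ≤ S M := by
      intro N M h x hx
      obtain ⟨l, hl, rfl⟩ := hx
      exact ⟨l, fun m hm => ⟨(hl m hm).1, fun q hq hd => lt_of_lt_of_le ((hl m hm).2 q hq hd) h⟩,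
        rfl⟩
    by_cases ha : a = 0
    · exact ⟨N, by rw [ha, c_zero, zero_add]; exact hN⟩
    · set m : ℤ := a.num * a.den with hm
      have hm0 : m ≠ 0 := by
        rw [hm]
        exact mul_ne_zero (Rat.num_ne_zero.mpr ha) (by exact_mod_cast a.den_ne_zero)
      refine ⟨max N (m.natAbs + 1), add_mem ?_ (hmono _ _ (le_max_left _ _) hN)⟩
      rw [c_rat]
      apply hmono _ _ (le_max_right _ _)
      apply mem_S_of_Sm
      refine Sm.of_lt hm0 ?_
      rw [Int.abs_eq_natAbs]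
      exact_mod_cast Nat.lt_succ_self _

theorem exists_int {s : Multiset ℚ} (h : ∀ p : ℕ, p.Prime → PU p (s.map c).sum) :
    ∃ k : ℤ, (s.map c).sum = k • c 1 := by
  obtain ⟨N, hN⟩ := exists_S s
  exact S_zero (mem_S_zero h N hN)

end Pool.Agent.N558.WG
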