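import Mathlib
import Pool.Agent.N558.Desc2

/-!
# Reduction modulo `p` of a rational Lagrangian
-/

set_option autoImplicit false

namespace Pool.Agent.N558.WG

open Module

/-- the inclusion of integral vectors -/
def castL (κ : Type*) : (κ → ℤ) →ₗ[ℤ] (κ → ℚ) where
  toFun x := fun i => (x i : ℚ)
  map_add' x y := by ext i; simp
  map_smul' r x := by ext i; simp

lemma castL_inj (κ : Type*) : Function.Injective (castL κ) := by
  intro x y h
  ext i
  have := congrFun h i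
  simp only [castL, LinearMap.coe_mk, AddHom.coe_mk] at this
  exact_mod_cast this

lemma exists_denom {κ : Type*} [Fintype κ] (t : κ → ℚ) :
    ∃ (N : ℤ) (y : κ → ℤ), N ≠ 0 ∧ castL κ y = (N : ℚ) • t := by
  classical
  refine ⟨∏ i, ((t i).den : ℤ), fun i => (t i).num * ∏ j ∈ Finset.univ.erase i, ((t j).den : ℤ),
    ?_, ?_⟩
  · rw [Finset.prod_ne_zero_iff]
    intro i _
    exact_mod_cast (t i).den_ne_zero
  · ext i
    simp only [castL, LinearMap.coe_mk, AddHom.coe_mk, Pi.smul_apply, smul_eq_mul]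
    have h1 : ∏ j, ((t j).den : ℤ) = (t i).den * ∏ j ∈ Finset.univ.erase i, ((t j).den : ℤ) :=
      (Finset.mul_prod_erase Finset.univ (fun j => ((t j).den : ℤ)) (Finset.mem_univ i)).symm
    rw [h1]
    push_cast
    rw [← Rat.mul_den_eq_num (t i)]
    ring

/-- totally isotropic spans are at most half dimensional -/
lemma isotropic_le {F : Type*} [Field F] {κ : Type*} [Fintype κ] [DecidableEq κ]
    (U : Matrix κ κ F) (hU : U.det ≠ 0) {r : ℕ} (v : Fin r → (κ → F))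
    (hv : LinearIndependent F v) (hiso : ∀ i j, v i ⬝ᵥ (U.mulVec (v j)) = 0) :
    2 * r ≤ Fintype.card κ := by
  let B : LinearMap.BilinForm F (κ → F) := Matrix.toBilin' U
  have hBapp : ∀ a b, B a b = a ⬝ᵥ (U.mulVec b) := fun a b => Matrix.toBilin'_apply' U a b
  have hBnd : B.Nondegenerate :=
    LinearMap.BilinForm.nondegenerate_toBilin'_of_det_ne_zero' U hU
  set L := Submodule.span F (Set.range v) with hL
  have h1 : L ≤ B.orthogonal L := by
    rw [hL, Submodule.span_le]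
    rintro _ ⟨j, rfl⟩
    rw [SetLike.mem_coe, LinearMap.BilinForm.mem_orthogonal_iff]
    intro y hy
    change B y (v j) = 0
    induction hy using Submodule.span_induction with
    | mem x hx =>
      obtain ⟨i, rfl⟩ := hx
      rw [hBapp]; exact hiso i j
    | zero => simp
    | add x y _ _ hx hy => rw [map_add, LinearMap.add_apply, hx, hy, add_zero]
    | smul a x _ hx => rw [map_smul, LinearMap.smul_apply, hx, smul_zero]
  have h2 := Submodule.finrank_mono h1
  rw [LinearMap.BilinForm.finrank_orthogonal hBnd, Module.finrank_fintype_fun_eq_card] at h2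
  have h3 : finrank F L = r := by
    rw [hL, finrank_span_eq_card hv, Fintype.card_fin]
  have h4 : finrank F L ≤ Fintype.card κ := by
    have := Submodule.finrank_le L
    rwa [Module.finrank_fintype_fun_eq_card] at this
  omega

theorem tlemma {κ₁ κ₂ : Type*} [Fintype κ₁] [DecidableEq κ₁] [Fintype κ₂] [DecidableEq κ₂]
    {p : ℕ} (hp : p.Prime) (U : Matrix κ₁ κ₁ ℤ) (hU : ¬ (p : ℤ) ∣ U.det) (b : κ₂ → ℤ)
    (T : Submodule ℚ (κ₁ ⊕ κ₂ → ℚ)) (hT : Fintype.card κ₁ < 2 * finrank ℚ T)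
    (hiso : ∀ x ∈ T, ∀ y ∈ T, (fun i => x (Sum.inl i)) ⬝ᵥ
      ((U.map (Int.cast : ℤ → ℚ)).mulVec (fun i => y (Sum.inl i))) +
        ∑ k, (p : ℚ) * b k * x (Sum.inr k) * y (Sum.inr k) = 0) :
    ∃ z : κ₂ → ℤ, (∃ i, ¬ (p : ℤ) ∣ z i) ∧ (p : ℤ) ∣ ∑ i, b i * z i ^ 2 := by
  have := Fact.mk hp
  have hp0 : (p : ℤ) ≠ 0 := by exact_mod_cast hp.ne_zero
  have hpq : (p : ℚ) ≠ 0 := by exact_mod_cast hp.ne_zero
  let Λ : Submodule ℤ (κ₁ ⊕ κ₂ → ℤ) := (T.restrictScalars ℤ).comap (castL (κ₁ ⊕ κ₂))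
  have hΛ : ∀ x, x ∈ Λ ↔ castL (κ₁ ⊕ κ₂) x ∈ T := fun x => Iff.rfl
  let bas := Module.finBasis ℤ Λ
  set r := finrank ℤ Λ with hr
  -- the rank
  have hrank : finrank ℚ T ≤ r := by
    have h1 : T ≤ Submodule.span ℚ (Set.range fun i : Fin r => castL (κ₁ ⊕ κ₂) (bas i)) := by
      intro t ht
      obtain ⟨N, y, hN, hy⟩ := exists_denom t
      have hyΛ : y ∈ Λ := by
        rw [hΛ, hy]; exact T.smul_mem _ ht
      have h2 : y = ∑ i, (bas.repr ⟨y, hyΛ⟩ i) • ((bas i : Λ) : κ₁ ⊕ κ₂ → ℤ) := by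
        have := congrArg (fun z : Λ => (z : κ₁ ⊕ κ₂ → ℤ)) (bas.sum_repr ⟨y, hyΛ⟩)
        simp only [Submodule.coe_sum, Submodule.coe_smul] at this
        exact this.symm
      have h3 : t = (N : ℚ)⁻¹ • castL (κ₁ ⊕ κ₂) y := by
        rw [hy, smul_smul, inv_mul_cancel₀ (by exact_mod_cast hN), one_smul]
      rw [h3, h2, map_sum]
      refine Submodule.smul_mem _ _ (Submodule.sum_mem _ fun i _ => ?_)
      rw [map_smul, ← Int.cast_smul_eq_zsmul ℚ]
      exact Submodule.smul_mem _ _ (Submodule.subset_span ⟨i, rfl⟩)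
    refine (Submodule.finrank_mono h1).trans ?_
    have := finrank_range_le_card (R := ℚ) (fun i : Fin r => castL (κ₁ ⊕ κ₂) (bas i))
    rwa [Fintype.card_fin] at this
  -- integral isotropy
  have hisoZ : ∀ x ∈ Λ, ∀ y ∈ Λ, (fun i => x (Sum.inl i)) ⬝ᵥ (U.mulVec (fun i => y (Sum.inl i))) +
        ∑ k, (p : ℤ) * b k * x (Sum.inr k) * y (Sum.inr k) = 0 := by
    intro x hx y hy
    have h1 := hiso _ ((hΛ x).mp hx) _ ((hΛ y).mp hy)
    have h2 : (((fun i => x (Sum.inl i)) ⬝ᵥ (U.mulVec (fun i => y (Sum.inl i))) +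
        ∑ k, (p : ℤ) * b k * x (Sum.inr k) * y (Sum.inr k) : ℤ) : ℚ) = 0 := by
      rw [← h1]
      simp only [castL, LinearMap.coe_mk, AddHom.coe_mk, dotProduct, Matrix.mulVec,
        Matrix.map_apply]
      push_cast
      rfl
    exact_mod_cast h2
  -- reduction
  let v : Fin r → (κ₁ → ZMod p) := fun i j => ((((bas i : Λ) : κ₁ ⊕ κ₂ → ℤ) (Sum.inl j) : ℤ) : ZMod p)
  have hnl : ¬ LinearIndependent (ZMod p) v := by
    intro hv
    have hdet : (U.map (Int.cast : ℤ → ZMod p)).det ≠ 0 := by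
      have h1 : (U.map (Int.cast : ℤ → ZMod p)).det = ((U.det : ℤ) : ZMod p) :=
        (RingHom.map_det (Int.castRingHom (ZMod p)) U).symm
      rw [h1, Ne, ZMod.intCast_zmod_eq_zero_iff_dvd]
      exact hU
    have h1 := isotropic_le (U.map (Int.cast : ℤ → ZMod p)) hdet v hv (by
      intro i j
      have h2 := hisoZ _ (bas i).2 _ (bas j).2
      have h3 := congrArg (Int.cast : ℤ → ZMod p) h2
      simp only [dotProduct, Matrix.mulVec] at h3
      push_cast at h3
      simp only [CharP.cast_eq_zero, zero_mul, Finset.sum_const_zero, add_zero] at h3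
      simp only [dotProduct, Matrix.mulVec, Matrix.map_apply, v]
      exact h3)
    omega
  rw [Fintype.not_linearIndependent_iff] at hnl
  obtain ⟨g, hg, i₀, hi₀⟩ := hnl
  let x : Λ := ∑ i, ((g i).val : ℤ) • bas i
  have hxl : ∀ j, (p : ℤ) ∣ (x : κ₁ ⊕ κ₂ → ℤ) (Sum.inl j) := by
    intro j
    rw [← ZMod.intCast_zmod_eq_zero_iff_dvd]
    have h1 := congrFun hg j
    simp only [Finset.sum_apply, Pi.smul_apply, smul_eq_mul, Pi.zero_apply, v] at h1
    rw [← h1]
    simp only [x, Submodule.coe_sum, Submodule.coe_smul, Finset.sum_apply, Pi.smul_apply,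
      smul_eq_mul]
    push_cast
    simp only [ZMod.natCast_zmod_val]
  refine ⟨fun k => (x : κ₁ ⊕ κ₂ → ℤ) (Sum.inr k), ?_, ?_⟩
  · by_contra hcon
    push Not at hcon
    have hall : ∀ k, ∃ y, (x : κ₁ ⊕ κ₂ → ℤ) k = p * y := by
      rintro (j | k)
      · exact hxl j
      · exact hcon k
    choose y hy using hall
    have hyΛ : y ∈ Λ := by
      rw [hΛ]
      have h1 : castL (κ₁ ⊕ κ₂) y = (p : ℚ)⁻¹ • castL (κ₁ ⊕ κ₂) (x : κ₁ ⊕ κ₂ → ℤ) := by
        ext k
        simp only [castL, LinearMap.coe_mk, AddHom.coe_mk, Pi.smul_apply, smul_eq_mul]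
        rw [hy k]
        push_cast
        field_simp
      rw [h1]
      exact T.smul_mem _ ((hΛ _).mp x.2)
    have h2 : x = (p : ℤ) • (⟨y, hyΛ⟩ : Λ) := by
      apply Subtype.ext
      funext k
      simp only [SetLike.mk_smul_mk, Pi.smul_apply, smul_eq_mul]
      exact hy k
    have h3 := congrArg (fun z => bas.repr z i₀) h2
    simp only [x, map_sum, map_smul, Finsupp.coe_finsetSum, Finsupp.coe_smul, Finset.sum_apply,
      Pi.smul_apply, Basis.repr_self, smul_eq_mul] at h3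
    have h4 : ∑ i : Fin r, ((g i).val : ℤ) * (Finsupp.single i (1 : ℤ)) i₀ = ((g i₀).val : ℤ) := by
      rw [Finset.sum_eq_single i₀]
      · simp
      · intro i _ hi
        rw [Finsupp.single_eq_of_ne (Ne.symm hi), mul_zero]
      · intro h
        exact absurd (Finset.mem_univ _) h
    rw [h4] at h3
    have h5 : (p : ℤ) ∣ ((g i₀).val : ℤ) := ⟨_, h3⟩
    have h6 : p ∣ (g i₀).val := by exact_mod_cast h5
    have h7 := Nat.eq_zero_of_dvd_of_lt h6 (ZMod.val_lt _)
    exact hi₀ ((ZMod.val_eq_zero _).mp h7)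
  · have h1 := hisoZ _ x.2 _ x.2
    choose y hy using hxl
    have h2 : (fun i => (x : κ₁ ⊕ κ₂ → ℤ) (Sum.inl i)) = (p : ℤ) • y := by
      funext i; rw [hy i]; simp
    rw [h2, Matrix.mulVec_smul, dotProduct_smul, smul_dotProduct, smul_eq_mul, smul_eq_mul] at h1
    have h3 : ∑ k, (p : ℤ) * b k * (x : κ₁ ⊕ κ₂ → ℤ) (Sum.inr k) *
        (x : κ₁ ⊕ κ₂ → ℤ) (Sum.inr k) =
        p * ∑ k, b k * (x : κ₁ ⊕ κ₂ → ℤ) (Sum.inr k) ^ 2 := by
      rw [Finset.mul_sum]
      exact Finset.sum_congr rfl fun k _ => by ring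
    rw [h3] at h1
    refine ⟨-(y ⬝ᵥ U.mulVec y), ?_⟩
    apply mul_left_cancel₀ hp0
    linear_combination h1

end Pool.Agent.N558.WG
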