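import Mathlib
import Pool.Agent.N558.TLem

/-!
# Indefinite unimodular forms over `ℤ` are isotropic
-/

set_option autoImplicit false

namespace Pool.Agent.N558.WG

open Module Pool.Agent.H109R2.Witt

lemma map_const_univ (k : ℕ) (a : ℚ) :
    (Finset.univ : Finset (Fin k)).val.map (fun _ => a) = Multiset.replicate k a := by
  rw [Multiset.map_const']; simp

lemma lemK {n k : ℕ} (a : Fin n → ℚ)
    (h : MM (Finset.univ.val.map a + Multiset.replicate k (-1))) (y : Fin n → ℚ)
    (hy : ∑ i, a i * y i ^ 2 < 0) : ∃ w : Fin n → ℚ, w ≠ 0 ∧ ∑ i, a i * w i ^ 2 = 0 := by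
  rw [← map_const_univ, ← map_sumElim] at h
  obtain ⟨L, hL, hL2⟩ := Met_of_MM h
  by_contra hcon
  push Not at hcon
  have hq : ∀ w ∈ L, ∑ i, a i * w (Sum.inl i) ^ 2 = ∑ j, w (Sum.inr j) ^ 2 := by
    intro w hw
    have h1 := hL2 w hw w hw
    rw [Fintype.sum_sum_type] at h1
    simp only [Sum.elim_inl, Sum.elim_inr] at h1
    have h2 : ∑ j : Fin k, -1 * w (Sum.inr j) * w (Sum.inr j) = -∑ j : Fin k, w (Sum.inr j) ^ 2 := by
      rw [← Finset.sum_neg_distrib]
      exact Finset.sum_congr rfl fun i _ => by ring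
    have h3 : ∑ i, a i * w (Sum.inl i) ^ 2 = ∑ i, a i * w (Sum.inl i) * w (Sum.inl i) :=
      Finset.sum_congr rfl fun i _ => by ring
    rw [h3]
    linarith
  let f : L →ₗ[ℚ] (Fin n → ℚ) := (LinearMap.funLeft ℚ ℚ Sum.inl).domRestrict L
  let g : L →ₗ[ℚ] (Fin k → ℚ) := (LinearMap.funLeft ℚ ℚ Sum.inr).domRestrict L
  have hf0 : ∀ w : L, f w = 0 → w = 0 := by
    intro w hw
    have h1 : ∀ i, (w : Fin n ⊕ Fin k → ℚ) (Sum.inl i) = 0 := fun i => congrFun hw i
    have h2 := hq w w.2
    simp only [h1] at h2
    have h3 : ∑ j, (w : Fin n ⊕ Fin k → ℚ) (Sum.inr j) ^ 2 = 0 := by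
      rw [← h2]; simp
    rw [Finset.sum_eq_zero_iff_of_nonneg (fun j _ => sq_nonneg _)] at h3
    apply Subtype.ext
    funext i
    rcases i with i | i
    · exact h1 i
    · exact pow_eq_zero_iff (two_ne_zero) |>.mp (h3 i (Finset.mem_univ _))
  have hg0 : ∀ w : L, g w = 0 → w = 0 := by
    intro w hw
    have h1 : ∀ i, (w : Fin n ⊕ Fin k → ℚ) (Sum.inr i) = 0 := fun i => congrFun hw i
    have h2 := hq w w.2
    simp only [h1] at h2
    by_contra hw0
    have h3 : f w ≠ 0 := fun h => hw0 (hf0 w h)
    apply hcon (f w) h3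
    change ∑ i, a i * (w : Fin n ⊕ Fin k → ℚ) (Sum.inl i) ^ 2 = 0
    rw [h2]; simp
  have hf : Function.Injective f := (injective_iff_map_eq_zero f).mpr hf0
  have hg : Function.Injective g := (injective_iff_map_eq_zero g).mpr hg0
  have d1 := LinearMap.finrank_le_finrank_of_injective hf
  have d2 := LinearMap.finrank_le_finrank_of_injective hg
  rw [Module.finrank_fintype_fun_eq_card, Fintype.card_fin] at d1 d2
  rw [Fintype.card_sum, Fintype.card_fin, Fintype.card_fin] at hL
  have d3 : finrank ℚ L = finrank ℚ (Fin n → ℚ) := by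
    rw [Module.finrank_fintype_fun_eq_card, Fintype.card_fin]; omega
  have hsurj := (LinearMap.injective_iff_surjective_of_finrank_eq_finrank d3).mp hf
  obtain ⟨w, hw⟩ := hsurj y
  have h2 := hq w w.2
  have h3 : ∑ i, a i * (w : Fin n ⊕ Fin k → ℚ) (Sum.inl i) ^ 2 = ∑ i, a i * y i ^ 2 := by
    rw [← hw]; rfl
  rw [h3] at h2
  have h4 : 0 ≤ ∑ j, (w : Fin n ⊕ Fin k → ℚ) (Sum.inr j) ^ 2 :=
    Finset.sum_nonneg fun j _ => sq_nonneg _
  linarith

theorem exists_isotropic {n : ℕ} (M : Matrix (Fin n) (Fin n) ℤ) (hs : M.transpose = M)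
    (hu : IsUnit M.det) (x y : Fin n → ℤ) (hx : 0 < x ⬝ᵥ M.mulVec x)
    (hy : y ⬝ᵥ M.mulVec y < 0) : ∃ z : Fin n → ℤ, z ≠ 0 ∧ z ⬝ᵥ M.mulVec z = 0 := by
  classical
  set MQ : Matrix (Fin n) (Fin n) ℚ := M.map (Int.cast : ℤ → ℚ) with hMQ
  have hMQdet : MQ.det = ((M.det : ℤ) : ℚ) := (RingHom.map_det (Int.castRingHom ℚ) M).symm
  have hdet0 : MQ.det ≠ 0 := by
    rw [hMQdet]
    exact_mod_cast hu.ne_zero
  have hMQs : MQ.transpose = MQ := by
    rw [hMQ, ← Matrix.transpose_map, hs]
  let B : LinearMap.BilinForm ℚ (Fin n → ℚ) := Matrix.toBilin' MQ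
  have hBapp : ∀ a b, B a b = a ⬝ᵥ (MQ.mulVec b) := fun a b => Matrix.toBilin'_apply' MQ a b
  have hBsym : ∀ a b, B a b = B b a := by
    intro a b
    rw [hBapp, hBapp, Matrix.dotProduct_mulVec, ← Matrix.mulVec_transpose, hMQs,
      dotProduct_comm]
  have hBs : LinearMap.IsSymm B := ⟨fun a b => by simpa using hBsym a b⟩
  have hBnd : B.Nondegenerate :=
    LinearMap.BilinForm.nondegenerate_toBilin'_of_det_ne_zero' MQ hdet0
  obtain ⟨v0, hv0⟩ := LinearMap.BilinForm.exists_orthogonal_basis hBs
  have hfr : finrank ℚ (Fin n → ℚ) = n := by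
    rw [Module.finrank_fintype_fun_eq_card, Fintype.card_fin]
  let v : Basis (Fin n) ℚ (Fin n → ℚ) := v0.reindex (finCongr hfr)
  have hv : ∀ i j, i ≠ j → B (v i) (v j) = 0 := by
    intro i j hij
    simp only [v, Basis.reindex_apply]
    apply hv0
    intro h
    exact hij ((finCongr hfr).symm.injective h)
  set a : Fin n → ℚ := fun i => B (v i) (v i) with ha
  have hexp : ∀ w w' : Fin n → ℚ, B (∑ i, w i • v i) (∑ i, w' i • v i) =
      ∑ i, a i * w i * w' i := by
    intro w w'
    rw [map_sum]
    refine Finset.sum_congr rfl fun i _ => ?_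
    rw [map_smul, map_sum, LinearMap.sum_apply, Finset.sum_eq_single i]
    · rw [map_smul, LinearMap.smul_apply]; simp only [smul_eq_mul, ha]; ring
    · intro j _ hj
      rw [map_smul, LinearMap.smul_apply, hv j i hj, smul_zero]
    · intro h; exact absurd (Finset.mem_univ _) h
  have ha0 : ∀ i, a i ≠ 0 := by
    intro i hi
    have h1 : v i = 0 := by
      apply hBnd.1
      intro z
      have h2 : z = ∑ j, (v.repr z j) • v j := (v.sum_repr z).symm
      rw [h2, map_sum]
      refine Finset.sum_eq_zero fun j _ => ?_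
      rw [map_smul]
      by_cases h : i = j
      · subst h
        have : B (v i) (v i) = 0 := hi
        rw [this, smul_zero]
      · rw [hv i j h, smul_zero]
    exact v.ne_zero i h1
  have ha0' : (0 : ℚ) ∉ Finset.univ.val.map a := by
    intro h
    obtain ⟨i, -, hi⟩ := Multiset.mem_map.mp h
    exact ha0 i hi
  have hPU : ∀ p : ℕ, p.Prime → PU p ((Finset.univ.val.map a).map c).sum := by
    intro p hp u n' b hu' hb hn' heq
    have hpi := Nat.prime_iff_prime_int.mp hp
    have hpq : (p : ℚ) ≠ 0 := by exact_mod_cast hp.ne_zero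
    have hu0 : ∀ i : Fin u.length, u.get i ≠ 0 := by
      intro i h
      apply hu' (u.get i) (u.get_mem i)
      rw [h]; exact dvd_zero _
    have hb0 : ∀ i, b i ≠ 0 := by
      intro i h
      apply hb i
      rw [h]; exact dvd_zero _
    have hMM : MM ((Finset.univ.val.map a +
        Finset.univ.val.map (fun i : Fin u.length => -((u.get i : ℤ) : ℚ))) +
        Finset.univ.val.map (fun i : Fin n' => -((p : ℚ) * b i))) := by
      rw [← sum_eq_zero_iff]
      · rw [Multiset.map_add, Multiset.map_add, Multiset.sum_add, Multiset.sum_add, heq]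
        have e1 : ((Finset.univ.val.map (fun i : Fin u.length => -((u.get i : ℤ) : ℚ))).map c).sum
            = -(u.map fun m : ℤ => c (m : ℚ)).sum := by
          have e2 : (u.map fun m : ℤ => c (m : ℚ)).sum =
              ∑ i : Fin u.length, c ((u.get i : ℤ) : ℚ) := by
            conv_lhs => rw [← List.ofFn_get u]
            rw [List.map_ofFn, List.sum_ofFn]
            rfl
          rw [e2, ← Finset.sum_neg_distrib, Multiset.map_map]
          change (Multiset.map _ Finset.univ.val).sum = (Multiset.map _ Finset.univ.val).sum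
          congr 1
          apply Multiset.map_congr rfl
          intro i _
          simp only [Function.comp_apply]
          rw [c_neg]
        have e3 : ((Finset.univ.val.map (fun i : Fin n' => -((p : ℚ) * b i))).map c).sum
            = -∑ i, c ((p : ℚ) * b i) := by
          rw [← Finset.sum_neg_distrib, Multiset.map_map]
          change (Multiset.map _ Finset.univ.val).sum = (Multiset.map _ Finset.univ.val).sum
          congr 1
          apply Multiset.map_congr rfl
          intro i _
          simp only [Function.comp_apply]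
          rw [c_neg]
        rw [e1, e3]
        abel
      · refine add_ne (add_ne ha0' ?_) ?_
        · intro h
          obtain ⟨i, -, hi⟩ := Multiset.mem_map.mp h
          exact hu0 i (by exact_mod_cast neg_eq_zero.mp hi)
        · intro h
          obtain ⟨i, -, hi⟩ := Multiset.mem_map.mp h
          exact mul_ne_zero hpq (by exact_mod_cast hb0 i) (neg_eq_zero.mp hi)
    rw [← map_sumElim, ← map_sumElim] at hMM
    obtain ⟨L, hL, hL2⟩ := Met_of_MM hMM
    let F : ((Fin n ⊕ Fin u.length) ⊕ Fin n' → ℚ) →ₗ[ℚ]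
        ((Fin n ⊕ Fin u.length) ⊕ Fin n' → ℚ) :=
      { toFun := fun w => Sum.elim (Sum.elim (∑ i, w (Sum.inl (Sum.inl i)) • v i)
          (fun i => w (Sum.inl (Sum.inr i)))) (fun i => w (Sum.inr i))
        map_add' := by
          intro w w'
          funext i
          rcases i with (i | i) | i
          · simp [add_smul, Finset.sum_add_distrib]
          · simp
          · simp
        map_smul' := by
          intro r w
          funext i
          rcases i with (i | i) | i
          · simp [mul_smul, Finset.mul_sum]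
          · simp
          · simp }
    have hF : Function.Injective F := by
      rw [injective_iff_map_eq_zero]
      intro w hw
      have h1 : ∑ i, w (Sum.inl (Sum.inl i)) • v i = 0 := by
        funext j
        exact congrFun hw (Sum.inl (Sum.inl j))
      funext i
      rcases i with (i | i) | i
      · have h2 := congrArg (fun z => v.repr z i) h1
        simp only [map_sum, map_smul, map_zero] at h2
        simpa [Finsupp.single_apply] using h2
      · exact congrFun hw (Sum.inl (Sum.inr i))
      · exact congrFun hw (Sum.inr i)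
    have hfin : finrank ℚ (L.map F) = finrank ℚ L :=
      (LinearEquiv.finrank_eq (Submodule.equivMapOfInjective F hF L)).symm
    set U : Matrix (Fin n ⊕ Fin u.length) (Fin n ⊕ Fin u.length) ℤ :=
      Matrix.fromBlocks M 0 0 (Matrix.diagonal fun i : Fin u.length => -(u.get i)) with hU
    have hUdet : ¬ (p : ℤ) ∣ U.det := by
      rw [hU, Matrix.det_fromBlocks_zero₂₁, Matrix.det_diagonal]
      intro h
      rcases hpi.dvd_or_dvd h with h | h
      · exact hpi.not_isUnit (isUnit_of_dvd_unit h hu)
      · obtain ⟨i, -, hi⟩ := (hpi.dvd_finsetProd_iff _).mp h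
        exact hu' _ (u.get_mem i) ((dvd_neg).mp hi)
    have hcard : Fintype.card (Fin n ⊕ Fin u.length) < 2 * finrank ℚ (L.map F) := by
      rw [hfin]
      rw [Fintype.card_sum, Fintype.card_fin n'] at hL
      omega
    have hTiso : ∀ x ∈ L.map F, ∀ y ∈ L.map F, (fun i => x (Sum.inl i)) ⬝ᵥ
      ((U.map (Int.cast : ℤ → ℚ)).mulVec (fun i => y (Sum.inl i))) +
        ∑ k, (p : ℚ) * ((-(b k) : ℤ) : ℚ) * x (Sum.inr k) * y (Sum.inr k) = 0 := by
      rintro _ ⟨w, hw, rfl⟩ _ ⟨w', hw', rfl⟩
      have h1 := hL2 w hw w' hw'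
      rw [Fintype.sum_sum_type, Fintype.sum_sum_type] at h1
      simp only [Sum.elim_inl, Sum.elim_inr] at h1
      have h2 := hexp (fun i => w (Sum.inl (Sum.inl i))) (fun i => w' (Sum.inl (Sum.inl i)))
      rw [hBapp] at h2
      rw [← h2] at h1
      rw [← h1]
      have e1 : ∀ w : (Fin n ⊕ Fin u.length) ⊕ Fin n' → ℚ, (fun i => F w (Sum.inl i)) =
          Sum.elim (∑ i, w (Sum.inl (Sum.inl i)) • v i) (fun i => w (Sum.inl (Sum.inr i))) := by
        intro w; rfl
      have e2 : U.map (Int.cast : ℤ → ℚ) = Matrix.fromBlocks MQ 0 0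
          (Matrix.diagonal fun i : Fin u.length => -((u.get i : ℤ) : ℚ)) := by
        have d : (Matrix.diagonal fun i : Fin u.length => -(u.get i)).map (Int.cast : ℤ → ℚ) =
            Matrix.diagonal fun i : Fin u.length => -((u.get i : ℤ) : ℚ) := by
          ext i j
          simp only [Matrix.map_apply, Matrix.diagonal_apply]
          split_ifs <;> simp
        rw [hU, Matrix.fromBlocks_map, d, hMQ]
        simp [Matrix.map_zero]
      rw [e1, e1, e2, Matrix.fromBlocks_mulVec]
      simp only [Matrix.zero_mulVec, add_zero, zero_add, Sum.elim_comp_inl, Sum.elim_comp_inr]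
      rw [sumElim_dotProduct_sumElim]
      congr 1
      · congr 1
        simp only [dotProduct, Matrix.mulVec_diagonal]
        exact Finset.sum_congr rfl fun i _ => by ring
      · refine Finset.sum_congr rfl fun i _ => ?_
        have e3 : ∀ w : (Fin n ⊕ Fin u.length) ⊕ Fin n' → ℚ, F w (Sum.inr i) = w (Sum.inr i) :=
          fun w => rfl
        rw [e3, e3]
        push_cast
        ring
    obtain ⟨z, hz1, hz2⟩ := tlemma hp U hUdet (fun i => -(b i)) (L.map F) hcard hTiso
    refine ⟨z, hz1, ?_⟩
    have : ∑ i, -(b i) * z i ^ 2 = -∑ i, b i * z i ^ 2 := by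
      rw [← Finset.sum_neg_distrib]
      exact Finset.sum_congr rfl fun i _ => by ring
    rw [this] at hz2
    exact (dvd_neg).mp hz2
  obtain ⟨k, hk⟩ := exists_int hPU
  -- from rational to integral vectors
  have hfin : (∃ w : Fin n → ℚ, w ≠ 0 ∧ ∑ i, a i * w i ^ 2 = 0) →
      ∃ z : Fin n → ℤ, z ≠ 0 ∧ z ⬝ᵥ M.mulVec z = 0 := by
    rintro ⟨w, hw0, hw⟩
    set W := ∑ i, w i • v i with hW
    have hWB : B W W = 0 := by
      rw [hW, hexp, ← hw]
      exact Finset.sum_congr rfl fun i _ => by ring
    have hW0 : W ≠ 0 := by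
      intro h
      apply hw0
      funext i
      have h1 := congrArg (fun z => v.repr z i) h
      simp only [hW, map_sum, map_smul, map_zero] at h1
      simpa [Finsupp.single_apply] using h1
    obtain ⟨N, z, hN, hz⟩ := exists_denom W
    have hcz : ∀ z : Fin n → ℤ, B (castL (Fin n) z) (castL (Fin n) z) =
        ((z ⬝ᵥ M.mulVec z : ℤ) : ℚ) := by
      intro z
      rw [hBapp]
      simp only [castL, LinearMap.coe_mk, AddHom.coe_mk, dotProduct, Matrix.mulVec, hMQ,
        Matrix.map_apply]
      push_cast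
      rfl
    refine ⟨z, ?_, ?_⟩
    · rintro rfl
      rw [map_zero] at hz
      exact smul_ne_zero (by exact_mod_cast hN) hW0 hz.symm
    · have h1 := hcz z
      simp only [hz, map_smul, LinearMap.smul_apply, hWB, smul_zero] at h1
      exact_mod_cast h1.symm
  have hcoord : ∀ z : Fin n → ℤ, ∃ w : Fin n → ℚ, ∑ i, a i * w i ^ 2 =
      ((z ⬝ᵥ M.mulVec z : ℤ) : ℚ) := by
    intro z
    refine ⟨fun i => v.repr (castL (Fin n) z) i, ?_⟩
    have h1 := hexp (fun i => v.repr (castL (Fin n) z) i) (fun i => v.repr (castL (Fin n) z) i)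
    rw [v.sum_repr] at h1
    have h2 : B (castL (Fin n) z) (castL (Fin n) z) = ((z ⬝ᵥ M.mulVec z : ℤ) : ℚ) := by
      rw [hBapp]
      simp only [castL, LinearMap.coe_mk, AddHom.coe_mk, dotProduct, Matrix.mulVec, hMQ,
        Matrix.map_apply]
      push_cast
      rfl
    rw [← h2, h1]
    exact Finset.sum_congr rfl fun i _ => by ring
  apply hfin
  rcases le_total 0 k with hk0 | hk0
  · obtain ⟨K, rfl⟩ := Int.eq_ofNat_of_zero_le hk0
    obtain ⟨w, hw⟩ := hcoord y
    refine lemK (k := K) a ?_ w (by rw [hw]; exact_mod_cast hy)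
    rw [← sum_eq_zero_iff]
    · rw [Multiset.map_add, Multiset.sum_add, hk, Multiset.map_replicate, Multiset.sum_replicate,
        c_neg]
      simp
    · refine add_ne ha0' ?_
      intro h
      have := Multiset.eq_of_mem_replicate h
      norm_num at this
  · obtain ⟨K, hK⟩ := Int.eq_ofNat_of_zero_le (neg_nonneg.mpr hk0)
    obtain ⟨w, hw⟩ := hcoord x
    have h1 : ∃ w : Fin n → ℚ, w ≠ 0 ∧ ∑ i, (-a i) * w i ^ 2 = 0 := by
      refine lemK (k := K) (fun i => -a i) ?_ w ?_
      · rw [← sum_eq_zero_iff]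
        · have h2 : ((Finset.univ.val.map fun i => -a i).map c).sum =
              -((Finset.univ.val.map a).map c).sum := by
            rw [Multiset.map_map, Multiset.map_map, ← Multiset.sum_map_neg]
            congr 1
            apply Multiset.map_congr rfl
            intro i _
            simp only [Function.comp_apply]
            rw [c_neg]
          rw [Multiset.map_add, Multiset.sum_add, h2, hk, Multiset.map_replicate,
            Multiset.sum_replicate, c_neg, ← neg_smul, hK]
          simp
        · refine add_ne ?_ ?_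
          · intro h
            obtain ⟨i, -, hi⟩ := Multiset.mem_map.mp h
            exact ha0 i (neg_eq_zero.mp hi)
          · intro h
            have := Multiset.eq_of_mem_replicate h
            norm_num at this
      · have h3 : ∑ i, (-a i) * w i ^ 2 = -∑ i, a i * w i ^ 2 := by
          rw [← Finset.sum_neg_distrib]
          exact Finset.sum_congr rfl fun i _ => by ring
        rw [h3, hw]
        have : (0 : ℚ) < ((x ⬝ᵥ M.mulVec x : ℤ) : ℚ) := by exact_mod_cast hx
        linarith
    obtain ⟨w', hw'0, hw'⟩ := h1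
    refine ⟨w', hw'0, ?_⟩
    have h3 : ∑ i, (-a i) * w' i ^ 2 = -∑ i, a i * w' i ^ 2 := by
      rw [← Finset.sum_neg_distrib]
      exact Finset.sum_congr rfl fun i _ => by ring
    rw [h3] at hw'
    linarith

end Pool.Agent.N558.WG
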