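import Mathlib
import Pool.Agent.N558.Isot

/-!
# Odd indefinite unimodular lattices are diagonal
-/

set_option autoImplicit false

namespace Pool.Agent.N558.Lat

open Module

/-- symmetric unimodular bilinear form -/
structure Uni {L : Type} [AddCommGroup L] (B : L →ₗ[ℤ] L →ₗ[ℤ] ℤ) : Prop where
  symm : ∀ x y, B x y = B y x
  surj : ∀ f : L →ₗ[ℤ] ℤ, ∃ x, ∀ y, B x y = f y

/-- the form has an orthogonal basis of vectors of norm `±1` -/
def Dg {L : Type} [AddCommGroup L] (B : L →ₗ[ℤ] L →ₗ[ℤ] ℤ) : Prop :=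
  ∃ (n : ℕ) (b : Basis (Fin n) ℤ L) (d : Fin n → ℤ), (∀ i, d i = 1 ∨ d i = -1) ∧
    ∀ i j, B (b i) (b j) = if i = j then d i else 0

section

variable {L : Type} [AddCommGroup L] [Module.Free ℤ L] [Module.Finite ℤ L]
  {B : L →ₗ[ℤ] L →ₗ[ℤ] ℤ}

lemma Uni.nondeg (h : Uni B) {x : L} (hx : ∀ y, B x y = 0) : x = 0 := by
  let b := Module.finBasis ℤ L
  apply b.repr.injective
  rw [map_zero]
  ext i
  obtain ⟨z, hz⟩ := h.surj (b.coord i)
  have h1 := hz x
  rw [h.symm, hx] at h1
  simpa using h1.symm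

lemma gram {n : ℕ} (b : Basis (Fin n) ℤ L) (z w : Fin n → ℤ) :
    B (∑ i, z i • b i) (∑ j, w j • b j) =
      z ⬝ᵥ (Matrix.of fun i j => B (b i) (b j)).mulVec w := by
  simp only [map_sum, LinearMap.sum_apply, map_smul, LinearMap.smul_apply, smul_eq_mul,
    dotProduct, Matrix.mulVec, Matrix.of_apply, Finset.mul_sum]
  rw [Finset.sum_comm]
  refine Finset.sum_congr rfl fun i _ => Finset.sum_congr rfl fun j _ => ?_
  ring

lemma gram_det (h : Uni B) {n : ℕ} (b : Basis (Fin n) ℤ L) :
    IsUnit (Matrix.of fun i j => B (b i) (b j)).det := by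
  choose x hx using fun j => h.surj (b.coord j)
  have h1 : (Matrix.of fun j i => b.repr (x j) i) * (Matrix.of fun i j => B (b i) (b j)) = 1 := by
    ext j k
    rw [Matrix.mul_apply]
    simp only [Matrix.of_apply]
    have h2 := hx j (b k)
    conv_lhs at h2 => rw [← b.sum_repr (x j)]
    rw [map_sum, LinearMap.sum_apply] at h2
    simp only [map_smul, LinearMap.smul_apply, smul_eq_mul] at h2
    rw [h2, Matrix.one_apply]
    simp [Finsupp.single_apply, eq_comm]
  exact Matrix.isUnit_det_of_left_inverse h1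

lemma exists_iso (h : Uni B) (hp : ∃ x, 0 < B x x) (hn : ∃ y, B y y < 0) :
    ∃ z, z ≠ 0 ∧ B z z = 0 := by
  obtain ⟨x, hx⟩ := hp
  obtain ⟨y, hy⟩ := hn
  let b := Module.finBasis ℤ L
  obtain ⟨z, hz0, hz⟩ := WG.exists_isotropic (Matrix.of fun i j => B (b i) (b j))
    (by ext i j; simp only [Matrix.transpose_apply, Matrix.of_apply]; exact h.symm _ _)
    (gram_det h b) (fun i => b.repr x i) (fun i => b.repr y i)
    (by rw [← gram, b.sum_repr]; exact hx) (by rw [← gram, b.sum_repr]; exact hy)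
  refine ⟨∑ i, z i • b i, ?_, by rw [gram]; exact hz⟩
  intro h0
  apply hz0
  funext i
  have h1 := congrArg (fun w => b.repr w i) h0
  simp only [map_sum, map_smul, map_zero] at h1
  simpa [Finsupp.single_apply] using h1

lemma exists_prim (h : Uni B) {x : L} (hx : x ≠ 0) :
    ∃ (g : ℤ) (x' : L), g ≠ 0 ∧ x = g • x' ∧ ∃ y, B x' y = 1 := by
  let b := Module.finBasis ℤ L
  have hpr := IsPrincipalIdealRing.principal (LinearMap.range (B x))
  obtain ⟨g, hg⟩ := hpr.principal
  have hmem : ∀ y, ∃ k : ℤ, B x y = g * k := by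
    intro y
    have h1 : B x y ∈ LinearMap.range (B x) := ⟨y, rfl⟩
    rw [hg] at h1
    obtain ⟨k, hk⟩ := Submodule.mem_span_singleton.mp h1
    exact ⟨k, by rw [← hk, smul_eq_mul, mul_comm]⟩
  have hg0 : g ≠ 0 := by
    rintro rfl
    apply hx
    apply h.nondeg
    intro y
    obtain ⟨k, hk⟩ := hmem y
    rw [hk, zero_mul]
  obtain ⟨y₀, hy₀⟩ : ∃ y₀, B x y₀ = g := by
    have h1 : g ∈ LinearMap.range (B x) := by
      rw [hg]; exact Submodule.mem_span_singleton_self g
    exact h1
  choose k hk using hmem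
  let f' : L →ₗ[ℤ] ℤ := b.constr ℤ (fun i => k (b i))
  have hf' : ∀ y, B x y = g * f' y := by
    have h1 : B x = g • f' := by
      apply b.ext
      intro i
      rw [LinearMap.smul_apply, smul_eq_mul, Basis.constr_basis]
      exact hk (b i)
    intro y
    rw [h1]; rfl
  obtain ⟨x', hx'⟩ := h.surj f'
  refine ⟨g, x', hg0, ?_, y₀, ?_⟩
  · rw [← sub_eq_zero]
    apply h.nondeg
    intro y
    rw [map_sub, LinearMap.sub_apply, map_smul, LinearMap.smul_apply, hx', hf' y, smul_eq_mul,
      sub_self]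
  · rw [hx']
    have h1 := hf' y₀
    rw [hy₀] at h1
    apply mul_left_cancel₀ hg0
    rw [← h1, mul_one]

/-- the restriction of the form to the orthogonal complement of `e` -/
def res (B : L →ₗ[ℤ] L →ₗ[ℤ] ℤ) (e : L) :
    LinearMap.ker (B e) →ₗ[ℤ] LinearMap.ker (B e) →ₗ[ℤ] ℤ :=
  B.compl₁₂ (LinearMap.ker (B e)).subtype (LinearMap.ker (B e)).subtype

lemma res_apply (e : L) (x y : LinearMap.ker (B e)) : res B e x y = B (x : L) (y : L) := rfl

/-- the projection to the orthogonal complement of `e` -/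
def pr (B : L →ₗ[ℤ] L →ₗ[ℤ] ℤ) (e : L) (ε : ℤ) (hε : ε * ε = 1) (he : B e e = ε) :
    L →ₗ[ℤ] LinearMap.ker (B e) :=
  LinearMap.codRestrict _ (LinearMap.id - (ε • B e).smulRight e) (by
    intro x
    rw [LinearMap.mem_ker]
    simp only [LinearMap.sub_apply, LinearMap.id_apply, LinearMap.smulRight_apply,
      LinearMap.smul_apply, map_sub, map_smul, he, smul_eq_mul]
    linear_combination (-(B e x)) * hε)

lemma pr_apply (e : L) (ε : ℤ) (hε : ε * ε = 1) (he : B e e = ε) (x : L) :
    (pr B e ε hε he x : L) = x - (ε * B e x) • e := rfl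

lemma res_uni (h : Uni B) (e : L) (ε : ℤ) (hε : ε * ε = 1) (he : B e e = ε) :
    Uni (res B e) := by
  refine ⟨fun x y => h.symm _ _, fun f => ?_⟩
  obtain ⟨x, hx⟩ := h.surj (f.comp (pr B e ε hε he))
  refine ⟨pr B e ε hε he x, fun y => ?_⟩
  have hy : B e (y : L) = 0 := y.2
  have h1 : pr B e ε hε he (y : L) = y := by
    apply Subtype.ext
    rw [pr_apply, hy, mul_zero, zero_smul, sub_zero]
  rw [res_apply, pr_apply, map_sub, LinearMap.sub_apply, map_smul, LinearMap.smul_apply, hy,
    smul_zero, sub_zero, hx, LinearMap.comp_apply, h1]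

/-- the basis of `L` from a basis of the orthogonal complement of `e` -/
noncomputable def consB (B : L →ₗ[ℤ] L →ₗ[ℤ] ℤ) (e : L) (ε : ℤ) (hε : ε * ε = 1) (he : B e e = ε)
    {n : ℕ} (b : Basis (Fin n) ℤ (LinearMap.ker (B e))) : Basis (Fin (n + 1)) ℤ L :=
  Basis.mkFinCons e b (by
    intro c x hx h0
    have h1 := congrArg (B e) h0
    have hx' : B e x = 0 := hx
    rw [map_add, map_smul, he, hx', add_zero, map_zero, smul_eq_mul] at h1
    linear_combination ε * h1 + (-c) * hε) (by
    intro z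
    refine ⟨-(ε * B e z), ?_⟩
    rw [LinearMap.mem_ker, map_add, map_smul, he, smul_eq_mul]
    linear_combination (-(B e z)) * hε)

lemma Dg_of_res (h : Uni B) (e : L) (ε : ℤ) (hε : ε = 1 ∨ ε = -1) (he : B e e = ε)
    (hD : Dg (res B e)) : Dg B := by
  have hε2 : ε * ε = 1 := by rcases hε with rfl | rfl <;> norm_num
  obtain ⟨n, b, d, hd, hb⟩ := hD
  have hcoe : (consB B e ε hε2 he b : Fin (n + 1) → L) = Fin.cons e ((↑) ∘ b) :=
    Basis.coe_mkFinCons _ _ _ _
  refine ⟨n + 1, consB B e ε hε2 he b, Fin.cons ε d, ?_, ?_⟩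
  · intro i
    refine Fin.cases ?_ (fun i => ?_) i
    · simpa using hε
    · simpa using hd i
  · intro i j
    rw [hcoe]
    have hker : ∀ i, B e (b i : L) = 0 := fun i => (b i).2
    refine Fin.cases ?_ (fun i => ?_) i <;> refine Fin.cases ?_ (fun j => ?_) j
    · simpa using he
    · simp only [Fin.cons_zero, Fin.cons_succ, Function.comp_apply, hker]
      rw [if_neg (Fin.succ_ne_zero j).symm]
    · simp only [Fin.cons_zero, Fin.cons_succ, Function.comp_apply]
      rw [h.symm, hker, if_neg (Fin.succ_ne_zero i)]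
    · simp only [Fin.cons_succ, Function.comp_apply]
      have := hb i j
      rw [res_apply] at this
      rw [this]
      simp

lemma finrank_res (e : L) (ε : ℤ) (hε : ε * ε = 1) (he : B e e = ε) :
    finrank ℤ L = finrank ℤ (LinearMap.ker (B e)) + 1 := by
  have h1 := Module.finrank_eq_card_basis
    (consB B e ε hε he (Module.finBasis ℤ (LinearMap.ker (B e))))
  rw [h1, Fintype.card_fin]

lemma Dg_of_subsingleton [Subsingleton L] : Dg B :=
  ⟨0, Basis.empty L, fun i => i.elim0, fun i => i.elim0, fun i => i.elim0⟩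

end

theorem thmA : ∀ (n : ℕ) (L : Type) [AddCommGroup L] [Module.Free ℤ L] [Module.Finite ℤ L]
    (B : L →ₗ[ℤ] L →ₗ[ℤ] ℤ), finrank ℤ L = n → Uni B → (∃ x, Odd (B x x)) →
    (∃ x, 0 < B x x) → (∃ y, B y y < 0) → Dg B := by
  intro n
  induction n with
  | zero =>
    intro L _ _ _ B hfr _ _ hp _
    have : Subsingleton L := Module.finrank_zero_iff.mp hfr
    exact Dg_of_subsingleton
  | succ n ih =>
    intro L _ _ _ B hfr h hodd hp hn
    obtain ⟨z, hz0, hz⟩ := exists_iso h hp hn
    obtain ⟨g, x, hg, hgx, y₀, hy₀⟩ := exists_prim h hz0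
    have hx : B x x = 0 := by
      rw [hgx] at hz
      simp only [map_smul, LinearMap.smul_apply, smul_eq_mul] at hz
      rcases mul_eq_zero.mp hz with h1 | h1
      · exact absurd h1 hg
      · rcases mul_eq_zero.mp h1 with h1 | h1
        · exact absurd h1 hg
        · exact h1
    obtain ⟨y, hy, hyo⟩ : ∃ y, B x y = 1 ∧ Odd (B y y) := by
      by_cases h1 : Odd (B y₀ y₀)
      · exact ⟨y₀, hy₀, h1⟩
      · rw [Int.not_odd_iff_even] at h1
        obtain ⟨w, hw⟩ := hodd
        refine ⟨w + (1 - B x w) • y₀, ?_, ?_⟩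
        · rw [map_add, map_smul, hy₀, smul_eq_mul]; ring
        · simp only [map_add, map_smul, LinearMap.add_apply, LinearMap.smul_apply, smul_eq_mul]
          rw [h.symm y₀ w]
          obtain ⟨k, hk⟩ := h1
          obtain ⟨l, hl⟩ := hw
          rw [hk, hl]
          exact ⟨l + (1 - B x w) * B w y₀ + (1 - B x w) * ((1 - B x w) * k), by ring⟩
    obtain ⟨m, hm⟩ := hyo
    have hyx : B y x = 1 := by rw [h.symm, hy]
    have he₁ : B (y - m • x) (y - m • x) = 1 := by
      simp only [map_sub, map_smul, LinearMap.sub_apply, LinearMap.smul_apply, smul_eq_mul]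
      rw [hm, hy, hyx, hx]; ring
    have he₂ : B (y - (m + 1) • x) (y - (m + 1) • x) = -1 := by
      simp only [map_sub, map_smul, LinearMap.sub_apply, LinearMap.smul_apply, smul_eq_mul]
      rw [hm, hy, hyx, hx]; ring
    have he₁₂ : B (y - m • x) (y - (m + 1) • x) = 0 := by
      simp only [map_sub, map_smul, LinearMap.sub_apply, LinearMap.smul_apply, smul_eq_mul]
      rw [hm, hy, hyx, hx]; ring
    set e₁ := y - m • x
    set e₂ := y - (m + 1) • x
    have he₂₁ : B e₂ e₁ = 0 := by rw [h.symm, he₁₂]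
    have hU1 := res_uni h e₁ 1 (by norm_num) he₁
    have hU2 := res_uni h e₂ (-1) (by norm_num) he₂
    by_cases hw : ∃ w, w ≠ 0 ∧ B e₁ w = 0 ∧ B e₂ w = 0
    · obtain ⟨w, hw0, hw1, hw2⟩ := hw
      obtain ⟨w', hw'1, hw'2, hw'⟩ : ∃ w', B e₁ w' = 0 ∧ B e₂ w' = 0 ∧ B w' w' ≠ 0 := by
        by_cases hww : B w w = 0
        · obtain ⟨w₂, hw₂⟩ : ∃ w₂, B w w₂ ≠ 0 := by
            by_contra hcon
            push Not at hcon
            exact hw0 (h.nondeg hcon)
          set w₃ := w₂ - (B e₁ w₂) • e₁ + (B e₂ w₂) • e₂ with hw₃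
          have a1 : B e₁ w₃ = 0 := by
            simp only [hw₃, map_add, map_sub, map_smul, smul_eq_mul, he₁, he₁₂]; ring
          have a2 : B e₂ w₃ = 0 := by
            simp only [hw₃, map_add, map_sub, map_smul, smul_eq_mul, he₂, he₂₁]; ring
          have a3 : B w w₃ = B w w₂ := by
            simp only [hw₃, map_add, map_sub, map_smul, smul_eq_mul]
            rw [h.symm w e₁, h.symm w e₂, hw1, hw2]; ring
          by_cases hw33 : B w₃ w₃ = 0
          · refine ⟨w + w₃, by rw [map_add, hw1, a1, add_zero], by rw [map_add, hw2, a2, add_zero],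
              ?_⟩
            simp only [map_add, LinearMap.add_apply]
            rw [hww, hw33, h.symm w₃ w, a3]
            intro h0
            apply hw₂
            linarith
          · exact ⟨w₃, a1, a2, hw33⟩
        · exact ⟨w, hw1, hw2, hww⟩
      rcases lt_or_gt_of_ne hw' with hneg | hpos
      · -- use the complement of `e₂`
        apply Dg_of_res h e₂ (-1) (Or.inr rfl) he₂
        have hf := finrank_res e₂ (-1) (by norm_num) he₂
        refine ih _ (res B e₂) (by omega) hU2 ⟨⟨e₁, he₂₁⟩, ?_⟩ ⟨⟨e₁, he₂₁⟩, ?_⟩ ⟨⟨w', hw'2⟩, ?_⟩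
        · rw [res_apply]; rw [he₁]; exact odd_one
        · rw [res_apply]; rw [he₁]; exact one_pos
        · rw [res_apply]; exact hneg
      · apply Dg_of_res h e₁ 1 (Or.inl rfl) he₁
        have hf := finrank_res e₁ 1 (by norm_num) he₁
        refine ih _ (res B e₁) (by omega) hU1 ⟨⟨e₂, he₁₂⟩, ?_⟩ ⟨⟨w', hw'1⟩, ?_⟩ ⟨⟨e₂, he₁₂⟩, ?_⟩
        · rw [res_apply]; rw [he₂]; exact ⟨-1, by norm_num⟩
        · rw [res_apply]; exact hpos
        · rw [res_apply]; rw [he₂]; norm_num
    · push Not at hw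
      apply Dg_of_res h e₁ 1 (Or.inl rfl) he₁
      refine Dg_of_res hU1 ⟨e₂, he₁₂⟩ (-1) (Or.inr rfl) (by rw [res_apply]; exact he₂) ?_
      have : Subsingleton (LinearMap.ker (res B e₁ ⟨e₂, he₁₂⟩)) := by
        constructor
        intro a b
        have key : ∀ a : LinearMap.ker (res B e₁ ⟨e₂, he₁₂⟩), a = 0 := by
          intro a
          have h1 : B e₁ ((a : LinearMap.ker (B e₁)) : L) = 0 := (a : LinearMap.ker (B e₁)).2
          have h2 : B e₂ ((a : LinearMap.ker (B e₁)) : L) = 0 := a.2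
          by_contra h3
          have h4 : ((a : LinearMap.ker (B e₁)) : L) ≠ 0 := by
            intro h5
            apply h3
            apply Subtype.ext
            apply Subtype.ext
            exact h5
          exact hw _ h4 h1 h2
        rw [key a, key b]
      exact Dg_of_subsingleton

end Pool.Agent.N558.Lat
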