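import Mathlib
import Pool.Agent.N558.Arith

/-!
# The two kinds of steps
-/

set_option autoImplicit false

namespace Pool.Agent.N558

open LaurentPolynomial Matrix Pool.Agent.R799

section Steps

variable {ι : Type*} [Fintype ι] [DecidableEq ι]

/-- the conclusion of a step: a new matrix with isometric pairing, whose value at `1` is
controlled by the orthogonal complement of an isotropic vector -/
def StepTo (A : Matrix ι ι Lam) (θ : ℤ) (w : (ι → ℤ) × ℤ × ℤ) : Prop :=
  ∃ A' : Matrix ι ι Lam, conjT A' = A' ∧ A'.det = A.det ∧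
      IsometricPairings A (toOm A)⁻¹ A' (toOm A')⁻¹ ∧
      ∃ s : (ι → ℤ) × ℤ × ℤ → (ι → ℤ), ∀ z z' : (ι → ℤ) × ℤ × ℤ,
        form (atOne A) θ z w = 0 → form (atOne A) θ z' w = 0 →
        s z ⬝ᵥ (atOne A' *ᵥ s z') = form (atOne A) θ z z'

theorem step_odd (A : Matrix ι ι Lam) (hA : conjT A = A) (a b : ι) (hab : a ≠ b)
    (β α₀ ε j : ℤ) (hβ : β = 4 * j + 3) (hε : ev1 A.det = ε) (hε2 : ε * ε = 1)
    (hq1 : ev1 (A.adjugate b a) = 1)
    (hx : ε * (atOne A).adjugate a a + 2 * α₀ * β = 0) :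
    StepTo A 0 (fun i => (atOne A).adjugate i a, α₀, β) := by
  have hb : bar (T 1 : Lam) = T (-1) := bar_T 1
  have hb' : bar (T (-1) : Lam) = T 1 := by rw [bar_T]; simp
  have hβ0 : β ≠ 0 := by omega
  have hD0 : A.det ≠ 0 := by
    intro h
    rw [h, map_zero] at hε
    rw [← hε] at hε2
    norm_num at hε2
  have hDb : bar A.det = A.det := bar_det hA
  obtain ⟨N, hN⟩ : ∃ N, N = A.adjugate b a * bar (A.adjugate b a) * A.det := ⟨_, rfl⟩
  have hNb : bar N = N := by rw [hN]; simp only [map_mul, bar_bar, hDb]; ring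
  have hN1 : ev1 N = ε := by rw [hN]; simp only [map_mul, ev1_bar, hq1, hε]; ring
  obtain ⟨l, hl⟩ : ∃ l : ℤ, ε * (β - 1) = 4 * l + 2 := by
    have : ε = 1 ∨ ε = -1 := by
      have : (ε - 1) * (ε + 1) = 0 := by linear_combination hε2
      rcases mul_eq_zero.mp this with h | h
      · left; linear_combination h
      · right; linear_combination h
    rcases this with rfl | rfl
    · exact ⟨j, by rw [hβ]; ring⟩
    · exact ⟨-j - 1, by rw [hβ]; ring⟩
  obtain ⟨L, hL⟩ : ∃ L : Lam, L = (l : Lam) := ⟨_, rfl⟩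
  have bL : bar L = L := by rw [hL, map_intCast]
  have e1L : ev1 L = l := by rw [hL, map_intCast]; rfl
  have emL : evm L = l := by rw [hL, map_intCast]; rfl
  obtain ⟨κ, hκ⟩ : ∃ κ : Lam, κ = 1 + L * (T 1 + T (-1) + 2) + T 1 := ⟨_, rfl⟩
  have bκ : bar κ = κ - (T 1 - T (-1)) := by
    rw [hκ]; simp only [map_add, map_mul, map_one, hb, hb', bL, map_ofNat]; ring
  have e1κ : ev1 κ = ε * (β - 1) := by
    rw [hκ, hl]; simp only [map_add, map_mul, map_one, ev1_T, e1L, map_ofNat]; ring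
  have emκ : evm κ = 0 := by
    rw [hκ]; simp only [map_add, map_mul, map_one, evm_T1, evm_Tm1, emL, map_ofNat]; ring
  obtain ⟨c, hc⟩ : ∃ c : Lam, c = 1 + κ * N := ⟨_, rfl⟩
  have bc : bar c = 1 + (κ - (T 1 - T (-1))) * N := by
    rw [hc, map_add, map_mul, map_one, bκ, hNb]
  have e1c : ev1 c = β := by
    rw [hc, map_add, map_mul, map_one, e1κ, hN1]
    linear_combination (β - 1) * hε2
  have emc : evm c = 1 := by
    rw [hc, map_add, map_mul, map_one, emκ, zero_mul, add_zero]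
  have hqa : bar (A.adjugate a a) = A.adjugate a a := (herm_apply (herm_adj hA) a a).symm
  have hEb : bar (-(A.det * A.adjugate a a)) = -(A.det * A.adjugate a a) := by
    rw [map_neg, map_mul, hDb, hqa]
  have hadj : ev1 (A.adjugate a a) = (atOne A).adjugate a a := by
    rw [← atOne_adjugate]; rfl
  have hE1 : ev1 (-(A.det * A.adjugate a a)) = 2 * α₀ * β := by
    rw [map_neg, map_mul, hε, hadj]
    linear_combination -hx
  obtain ⟨k, hk⟩ := sym_mod4 _ hEb
  obtain ⟨α, hα, hα1⟩ := exists_alpha c (T 1 - T (-1) - κ) κ _ β 1 α₀ (α₀ * β + 2 * k)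
    (2 * α₀ * j + 2 * α₀ + k) e1c hβ0 emc hEb hE1 (by rw [hk, hE1]; ring) (by rw [hβ]; ring) (by
      rw [bc, hc]; ring)
  refine nbr_eval A hA a b hab c 1 κ α 0 β α₀ ε e1c hβ0 (by rw [map_one]; exact one_ne_zero) hD0
    hε hε2 hq1 hα1 ?_ ?_
  · rw [hc, hN]; ring
  · rw [hα]
    simp

theorem step_par (A : Matrix ι ι Lam) (hA : conjT A = A) (a b : ι) (hab : a ≠ b)
    (α₀ ε m : ℤ) (hε : ev1 A.det = ε) (hε2 : ε * ε = 1)
    (hq1 : ev1 (A.adjugate b a) = 1)
    (hx : ε * (atOne A).adjugate a a + 4 * α₀ + 4 = 0)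
    (hm : evm (A.det * A.adjugate a a) = 8 * α₀ + 16 * m) :
    StepTo A 1 (fun i => (atOne A).adjugate i a, α₀, 2) := by
  have hb : bar (T 1 : Lam) = T (-1) := bar_T 1
  have hb' : bar (T (-1) : Lam) = T 1 := by rw [bar_T]; simp
  have htt := TT
  have hD0 : A.det ≠ 0 := by
    intro h
    rw [h, map_zero] at hε
    rw [← hε] at hε2
    norm_num at hε2
  have hε0 : ε ≠ 0 := by
    rintro rfl
    norm_num at hε2
  have hDb : bar A.det = A.det := bar_det hA
  obtain ⟨N, hN⟩ : ∃ N, N = A.adjugate b a * bar (A.adjugate b a) * A.det := ⟨_, rfl⟩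
  have hNb : bar N = N := by rw [hN]; simp only [map_mul, bar_bar, hDb]; ring
  have hN1 : ev1 N = ε := by rw [hN]; simp only [map_mul, ev1_bar, hq1, hε]; ring
  obtain ⟨e, he⟩ : ∃ e : Lam, e = (ε : Lam) := ⟨_, rfl⟩
  have be : bar e = e := by rw [he, map_intCast]
  have e1e : ev1 e = ε := by rw [he, map_intCast]; rfl
  have eme : evm e = ε := by rw [he, map_intCast]; rfl
  have he2 : e * e = 1 := by rw [he, ← Int.cast_mul, hε2, Int.cast_one]
  obtain ⟨N₁, hN₁b, hN₁⟩ := sym_ev1 (N - e) (by rw [map_sub, hNb, be])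
    (by rw [map_sub, hN1, e1e, sub_self])
  obtain ⟨c, hc⟩ : ∃ c : Lam, c = (T 1 + T (-1) - 2) + e * (1 + T 1) * N := ⟨_, rfl⟩
  obtain ⟨u, hu⟩ : ∃ u : Lam, u = -(e * N₁) := ⟨_, rfl⟩
  obtain ⟨κ, hκ⟩ : ∃ κ : Lam, κ = -(e + (1 + T 1) * N₁) := ⟨_, rfl⟩
  have bc : bar c = (T 1 + T (-1) - 2) + e * (1 + T (-1)) * N := by
    rw [hc]; simp only [map_add, map_sub, map_mul, map_one, hb, hb', be, hNb, map_ofNat]; ring
  have e1c : ev1 c = 2 := by
    rw [hc]; simp only [map_add, map_sub, map_mul, map_one, ev1_T, e1e, hN1, map_ofNat]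
    linear_combination 2 * hε2
  have emc : evm c = -4 := by
    rw [hc]; simp only [map_add, map_sub, map_mul, map_one, evm_T1, evm_Tm1, eme, map_ofNat]
    ring
  have hcu : c * u = 1 + κ * N := by
    rw [hc, hu, hκ]
    linear_combination e * hN₁ + (1 - (1 + T 1) * N * N₁) * he2
  have hδ : T 1 - T (-1) = c * ((T 1 - T (-1)) * u - e * κ) + bar c * (e * κ) := by
    rw [bc]
    have : c * ((T 1 - T (-1)) * u - e * κ) = (T 1 - T (-1)) * (c * u) - c * (e * κ) := by ring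
    rw [this, hcu, hc]
    linear_combination (κ * N * (T 1 - T (-1))) * he2
  have hqa : bar (A.adjugate a a) = A.adjugate a a := (herm_apply (herm_adj hA) a a).symm
  have hEb : bar (-(A.det * A.adjugate a a + (1 : ℤ) * (c * bar c))) =
      -(A.det * A.adjugate a a + (1 : ℤ) * (c * bar c)) := by
    simp only [map_neg, map_add, map_mul, hDb, hqa, bar_bar, map_intCast]
    ring
  have hadj : ev1 (A.adjugate a a) = (atOne A).adjugate a a := by
    rw [← atOne_adjugate]; rfl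
  have hE1 : ev1 (-(A.det * A.adjugate a a + (1 : ℤ) * (c * bar c))) = 2 * α₀ * 2 := by
    simp only [map_neg, map_add, map_mul, hε, hadj, ev1_bar, e1c, map_intCast, Int.cast_id]
    linear_combination -hx
  have hEm : evm (-(A.det * A.adjugate a a + (1 : ℤ) * (c * bar c))) =
      2 * (-4) * (α₀ + 2 * m + 2) := by
    rw [map_neg, map_add, hm]
    simp only [map_mul, evm_bar, emc, map_intCast, Int.cast_id]
    ring
  obtain ⟨α, hα, hα1⟩ := exists_alpha c _ _ _ 2 (-4) α₀ (α₀ + 2 * m + 2)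
    (α₀ + m + 1) e1c (by norm_num) emc hEb hE1 hEm (by ring) hδ
  by_cases hu0 : ev1 u = 0
  · refine nbr_eval A hA a b hab c (u + N) (κ + c) α 1 2 α₀ ε e1c (by norm_num) ?_ hD0
      hε hε2 hq1 hα1 ?_ hα
    · rw [map_add, hu0, hN1, zero_add]; exact hε0
    · rw [← hN]
      linear_combination hcu
  · refine nbr_eval A hA a b hab c u κ α 1 2 α₀ ε e1c (by norm_num) hu0 hD0
      hε hε2 hq1 hα1 ?_ hα
    rw [← hN]
    exact hcu

end Steps

end Pool.Agent.N558
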