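import Mathlib
import Pool.Agent.N558.Latt
import Pool.Agent.N558.Steps

/-!
# The integral side of the steps: isotropic vectors in `M ⊥ H`
-/

set_option autoImplicit false

namespace Pool.Agent.N558

open Module Matrix

lemma gcd_lem {ι : Type*} [DecidableEq ι] (a b : ι) (hab : a ≠ b) (x : ι → ℤ) (m : ℤ) :
    ∃ y : ι → ℤ, ∀ p : ℕ, p.Prime → (∀ i, (p : ℤ) ∣ x i + m * y i) → (p : ℤ) ∣ m := by
  by_cases hm : m = 0
  · exact ⟨0, fun p _ _ => by rw [hm]; exact dvd_zero _⟩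
  obtain ⟨r, hr⟩ : ∃ r : ℤ, x a + m * r ≠ 0 := by
    by_cases h : x a = 0
    · exact ⟨1, by rw [h]; simpa using hm⟩
    · exact ⟨0, by simpa using h⟩
  set X := x a + m * r with hX
  classical
  set P : Finset ℕ := X.natAbs.primeFactors.filter (fun p : ℕ => ¬ (p : ℤ) ∣ x b) with hP
  refine ⟨fun i => if i = a then r else if i = b then ∏ q ∈ P, (q : ℤ) else 0, ?_⟩
  intro p hp h
  by_contra hpm
  have hpi := Nat.prime_iff_prime_int.mp hp
  have h1 := h a
  simp only [if_true] at h1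
  rw [← hX] at h1
  have h2 := h b
  simp only [if_neg (Ne.symm hab), if_true] at h2
  have hpX : p ∈ X.natAbs.primeFactors := by
    rw [Nat.mem_primeFactors]
    exact ⟨hp, Int.natCast_dvd.mp h1, Int.natAbs_ne_zero.mpr hr⟩
  by_cases hb : (p : ℤ) ∣ x b
  · have h3 : (p : ℤ) ∣ m * ∏ q ∈ P, (q : ℤ) := (dvd_add_right hb).mp h2
    rcases hpi.dvd_or_dvd h3 with h4 | h4
    · exact hpm h4
    · obtain ⟨q, hq, hpq⟩ := (hpi.dvd_finsetProd_iff _).mp h4
      rw [hP, Finset.mem_filter, Nat.mem_primeFactors] at hq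
      have h5 : p = q := by
        rw [← Nat.prime_dvd_prime_iff_eq hp hq.1.1]
        exact_mod_cast hpq
      rw [← h5] at hq
      exact hq.2 hb
  · have h3 : p ∈ P := by rw [hP, Finset.mem_filter]; exact ⟨hpX, hb⟩
    have h4 : (p : ℤ) ∣ m * ∏ q ∈ P, (q : ℤ) :=
      dvd_mul_of_dvd_right (Finset.dvd_prod_of_mem (fun q : ℕ => (q : ℤ)) h3) _
    exact hb ((dvd_add_left h4).mp h2)

section

variable {ι : Type} [Fintype ι] [DecidableEq ι]

lemma dot_symm {M : Matrix ι ι ℤ} (hs : Mᵀ = M) (x y : ι → ℤ) :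
    x ⬝ᵥ (M *ᵥ y) = y ⬝ᵥ (M *ᵥ x) := by
  rw [Matrix.dotProduct_mulVec, ← Matrix.mulVec_transpose, hs, dotProduct_comm]

lemma form_symm {M : Matrix ι ι ℤ} (hs : Mᵀ = M) (θ : ℤ) (z z' : (ι → ℤ) × ℤ × ℤ) :
    form M θ z z' = form M θ z' z := by
  unfold form
  rw [dot_symm hs]; ring

/-- the form of `M ⊥ H` as a bilinear map -/
def BL (M : Matrix ι ι ℤ) : ((ι → ℤ) × ℤ × ℤ) →ₗ[ℤ] ((ι → ℤ) × ℤ × ℤ) →ₗ[ℤ] ℤ :=
  LinearMap.mk₂ ℤ (form M 0)
    (by intro x y z; unfold form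
        simp only [Prod.fst_add, Prod.snd_add, add_dotProduct]; ring)
    (by intro c x z; unfold form
        simp only [Prod.smul_fst, Prod.smul_snd, smul_dotProduct, smul_eq_mul]; ring)
    (by intro x y z; unfold form
        simp only [Prod.fst_add, Prod.snd_add, Matrix.mulVec_add, dotProduct_add]; ring)
    (by intro c x z; unfold form
        simp only [Prod.smul_fst, Prod.smul_snd, Matrix.mulVec_smul, dotProduct_smul,
          smul_eq_mul]; ring)

lemma BL_apply (M : Matrix ι ι ℤ) (z z' : (ι → ℤ) × ℤ × ℤ) : BL M z z' = form M 0 z z' := rfl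

lemma BL_uni {M : Matrix ι ι ℤ} (hs : Mᵀ = M) (hu : IsUnit M.det) : Lat.Uni (BL M) := by
  refine ⟨fun x y => form_symm hs 0 x y, fun f => ?_⟩
  refine ⟨(M⁻¹ *ᵥ (fun i => f (Pi.single i 1, 0, 0)), f (0, 0, 1), f (0, 1, 0)), ?_⟩
  rintro ⟨y, a, b⟩
  rw [BL_apply]
  unfold form
  have h1 : (y, a, b) = (y, (0 : ℤ), (0 : ℤ)) + a • ((0 : ι → ℤ), (1 : ℤ), (0 : ℤ)) +
      b • ((0 : ι → ℤ), (0 : ℤ), (1 : ℤ)) := by
    ext <;> simp
  have h2 : (y, (0 : ℤ), (0 : ℤ)) = ∑ i, y i • ((Pi.single i 1 : ι → ℤ), (0 : ℤ), (0 : ℤ)) := by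
    ext i
    · simp [Prod.fst_sum, Pi.single_apply, Finset.sum_apply]
    · simp [Prod.snd_sum, Prod.fst_sum]
    · simp [Prod.snd_sum]
  conv_rhs => rw [h1, map_add, map_add, map_smul, map_smul, h2, map_sum]
  simp only [map_smul, smul_eq_mul]
  have h3 : (M⁻¹ *ᵥ (fun i => f (Pi.single i 1, 0, 0))) ⬝ᵥ (M *ᵥ y) =
      ∑ i, y i * f (Pi.single i 1, 0, 0) := by
    rw [dot_symm hs, Matrix.mulVec_mulVec, Matrix.mul_nonsing_inv _ hu, Matrix.one_mulVec]
    rfl
  rw [h3]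
  ring

/-- a family of vectors of norm `±1`, orthogonal to each other and to an isotropic vector -/
structure Fam (M : Matrix ι ι ℤ) (κ : Type) (w : (ι → ℤ) × ℤ × ℤ)
    (z : κ → (ι → ℤ) × ℤ × ℤ) (d : κ → ℤ) : Prop where
  iso : form M 0 w w = 0
  orth : ∀ k, form M 0 (z k) w = 0
  norm : ∀ k, form M 0 (z k) (z k) = d k
  pair : ∀ k l, k ≠ l → form M 0 (z k) (z l) = 0
  unit : ∀ k, d k = 1 ∨ d k = -1
  prim : ∃ w', form M 0 w w' = 1

lemma Fam.map {M : Matrix ι ι ℤ} {κ : Type} {w : (ι → ℤ) × ℤ × ℤ}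
    {z : κ → (ι → ℤ) × ℤ × ℤ} {d : κ → ℤ} (h : Fam M κ w z d)
    (σ : (ι → ℤ) × ℤ × ℤ → (ι → ℤ) × ℤ × ℤ)
    (hσ : ∀ z z', form M 0 (σ z) (σ z') = form M 0 z z') : Fam M κ (σ w) (fun k => σ (z k)) d := by
  obtain ⟨w', hw'⟩ := h.prim
  exact ⟨by rw [hσ, h.iso], fun k => by rw [hσ, h.orth], fun k => by rw [hσ, h.norm],
    fun k l hkl => by rw [hσ, h.pair k l hkl], h.unit, σ w', by rw [hσ, hw']⟩

/-- the Eichler transformation fixing `(0, 0, 1)` -/
def eiv (M : Matrix ι ι ℤ) (y : ι → ℤ) (h : ℤ) (z : (ι → ℤ) × ℤ × ℤ) : (ι → ℤ) × ℤ × ℤ :=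
  (z.1 + z.2.1 • y, z.2.1, z.2.2 - z.1 ⬝ᵥ (M *ᵥ y) - h * z.2.1)

/-- the Eichler transformation fixing `(0, 1, 0)` -/
def eiu (M : Matrix ι ι ℤ) (y : ι → ℤ) (h : ℤ) (z : (ι → ℤ) × ℤ × ℤ) : (ι → ℤ) × ℤ × ℤ :=
  (z.1 + z.2.2 • y, z.2.1 - z.1 ⬝ᵥ (M *ᵥ y) - h * z.2.2, z.2.2)

lemma form_eiv {M : Matrix ι ι ℤ} (hs : Mᵀ = M) (y : ι → ℤ) (h : ℤ)
    (hh : y ⬝ᵥ (M *ᵥ y) = 2 * h) (z z' : (ι → ℤ) × ℤ × ℤ) :
    form M 0 (eiv M y h z) (eiv M y h z') = form M 0 z z' := by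
  unfold form eiv
  simp only [Matrix.mulVec_add, Matrix.mulVec_smul, dotProduct_add, add_dotProduct,
    smul_dotProduct, dotProduct_smul, smul_eq_mul, hh]
  rw [dot_symm hs y z'.1]
  ring

lemma form_eiu {M : Matrix ι ι ℤ} (hs : Mᵀ = M) (y : ι → ℤ) (h : ℤ)
    (hh : y ⬝ᵥ (M *ᵥ y) = 2 * h) (z z' : (ι → ℤ) × ℤ × ℤ) :
    form M 0 (eiu M y h z) (eiu M y h z') = form M 0 z z' := by
  unfold form eiu
  simp only [Matrix.mulVec_add, Matrix.mulVec_smul, dotProduct_add, add_dotProduct,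
    smul_dotProduct, dotProduct_smul, smul_eq_mul, hh]
  rw [dot_symm hs y z'.1]
  ring

/-- a first family, with odd last coordinate -/
lemma exists_fam {M : Matrix ι ι ℤ} (hs : Mᵀ = M) (hu : IsUnit M.det)
    (hodd : ∃ y : ι → ℤ, Odd (y ⬝ᵥ (M *ᵥ y))) :
    ∃ (w : (ι → ℤ) × ℤ × ℤ) (z : ι → (ι → ℤ) × ℤ × ℤ) (d : ι → ℤ), Fam M ι w z d ∧
      Odd w.2.2 := by
  have hU := BL_uni hs hu
  obtain ⟨y₀, hy₀⟩ := hodd
  have hy₀' : Odd (BL M (y₀, 0, 0) (y₀, 0, 0)) := by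
    rw [BL_apply]; unfold form; simpa using hy₀
  obtain ⟨n, b, d, hd, hb⟩ := Lat.thmA _ _ (BL M) rfl hU ⟨_, hy₀'⟩
    ⟨(0, 1, 1), by rw [BL_apply]; unfold form; simp⟩
    ⟨(0, 1, -1), by rw [BL_apply]; unfold form; simp⟩
  have hcard : Fintype.card ι + 2 = n := by
    have h1 := Module.finrank_eq_card_basis b
    rw [Module.finrank_prod, Module.finrank_prod, Module.finrank_fintype_fun_eq_card,
      Module.finrank_self, Fintype.card_fin] at h1
    omega
  let u : (ι → ℤ) × ℤ × ℤ := (0, 1, 0)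
  have hub : ∀ z, BL M u z = z.2.2 := by
    intro z
    rw [BL_apply]; unfold form; simp [u]
  -- expansion
  have hexp : ∀ z z', BL M z z' = ∑ i, d i * b.repr z i * b.repr z' i := by
    intro z z'
    conv_lhs => rw [← b.sum_repr z, ← b.sum_repr z']
    rw [Lat.gram]
    simp only [dotProduct, Matrix.mulVec, Matrix.of_apply, hb]
    refine Finset.sum_congr rfl fun i _ => ?_
    simp only [ite_mul, zero_mul, Finset.sum_ite_eq, Finset.mem_univ, if_true]
    ring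
  have hu0 : u ≠ 0 := by
    intro h
    have := congrArg (fun z : (ι → ℤ) × ℤ × ℤ => z.2.1) h
    simp [u] at this
  have huu : ∑ i, d i * b.repr u i * b.repr u i = 0 := by
    rw [← hexp, hub]
  -- both signs occur
  have hsgn : ∀ ε : ℤ, (ε = 1 ∨ ε = -1) → ∃ i, d i = ε := by
    intro ε hε
    by_contra hcon
    push Not at hcon
    have h1 : ∀ i, d i = -ε := by
      intro i
      rcases hd i with h | h <;> rcases hε with h' | h'
      · exact absurd (h.trans h'.symm) (hcon i)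
      · rw [h, h']; norm_num
      · rw [h, h']
      · exact absurd (h.trans h'.symm) (hcon i)
    have h2 : ∑ i, b.repr u i ^ 2 = 0 := by
      have h3 : ∑ i, d i * b.repr u i * b.repr u i = -ε * ∑ i, b.repr u i ^ 2 := by
        rw [Finset.mul_sum]
        exact Finset.sum_congr rfl fun i _ => by rw [h1 i]; ring
      rw [h3] at huu
      rcases mul_eq_zero.mp huu with h4 | h4
      · rcases hε with h' | h' <;> rw [h'] at h4 <;> norm_num at h4
      · exact h4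
    rw [Finset.sum_eq_zero_iff_of_nonneg (fun i _ => sq_nonneg _)] at h2
    apply hu0
    apply b.repr.injective
    rw [map_zero]
    ext i
    exact pow_eq_zero_iff (two_ne_zero) |>.mp (h2 i (Finset.mem_univ _))
  obtain ⟨i₀, hi₀⟩ := hsgn 1 (Or.inl rfl)
  obtain ⟨j₀, hj₀⟩ := hsgn (-1) (Or.inr rfl)
  -- a pair with different parities
  obtain ⟨i, j, hi, hj, hij⟩ : ∃ i j, d i = 1 ∧ d j = -1 ∧ Odd ((b i).2.2 + (b j).2.2) := by
    by_contra hcon
    push Not at hcon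
    have hpar : ∀ k, Even ((b k).2.2 + (b j₀).2.2) := by
      intro k
      rcases hd k with hk | hk
      · exact Int.not_odd_iff_even.mp (hcon k j₀ hk hj₀)
      · have h1 := Int.not_odd_iff_even.mp (hcon i₀ k hi₀ hk)
        have h2 := Int.not_odd_iff_even.mp (hcon i₀ j₀ hi₀ hj₀)
        have : (b k).2.2 + (b j₀).2.2 = ((b i₀).2.2 + (b k).2.2) + ((b i₀).2.2 + (b j₀).2.2) -
            2 * (b i₀).2.2 := by ring
        rw [this]
        exact (h1.add h2).sub (even_two_mul _)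
    have hz2 : ∀ z : (ι → ℤ) × ℤ × ℤ, z.2.2 = ∑ k, b.repr z k * (b k).2.2 := by
      intro z
      rw [← hub z]
      conv_lhs => rw [← b.sum_repr z]
      rw [map_sum]
      refine Finset.sum_congr rfl fun k _ => ?_
      rw [map_smul, hub, smul_eq_mul]
    rcases Int.even_or_odd (b j₀).2.2 with hev | hod
    · -- all even, contradiction with `(0, 0, 1)`
      have h1 : ∀ k, Even (b k).2.2 := by
        intro k
        have := (hpar k).sub hev
        rwa [add_sub_cancel_right] at this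
      have h2 := hz2 (0, 0, 1)
      have h3 : Even (∑ k, b.repr ((0 : ι → ℤ), (0 : ℤ), (1 : ℤ)) k * (b k).2.2) :=
        Finset.even_sum _ fun k _ => (h1 k).mul_left _
      rw [← h2] at h3
      have h4 : Even (1 : ℤ) := h3
      exact absurd h4 (by decide)
    · have h1 : ∀ k, Odd (b k).2.2 := by
        intro k
        have := (hpar k).sub_odd hod
        rwa [add_sub_cancel_right] at this
      have h2 := hz2 (y₀, 0, 0)
      have h3 : BL M (y₀, 0, 0) (y₀, 0, 0) + 0 =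
          ∑ k, (d k * b.repr (y₀, (0 : ℤ), (0 : ℤ)) k * b.repr (y₀, (0 : ℤ), (0 : ℤ)) k +
            b.repr (y₀, (0 : ℤ), (0 : ℤ)) k * (b k).2.2) := by
        rw [Finset.sum_add_distrib, ← hexp, ← h2]
      have h4 : Even (∑ k, (d k * b.repr (y₀, (0 : ℤ), (0 : ℤ)) k *
          b.repr (y₀, (0 : ℤ), (0 : ℤ)) k + b.repr (y₀, (0 : ℤ), (0 : ℤ)) k * (b k).2.2)) := by
        refine Finset.even_sum _ fun k _ => ?_
        obtain ⟨m, hm⟩ := h1 k
        rw [hm]
        have h5 : Even (b.repr (y₀, (0 : ℤ), (0 : ℤ)) k * (b.repr (y₀, (0 : ℤ), (0 : ℤ)) k + 1)) :=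
          Int.even_mul_succ_self _
        obtain ⟨q, hq⟩ := h5
        rcases hd k with h | h <;> rw [h]
        · exact ⟨q + b.repr (y₀, (0 : ℤ), (0 : ℤ)) k * m, by linear_combination hq⟩
        · exact ⟨q + b.repr (y₀, (0 : ℤ), (0 : ℤ)) k * m - b.repr (y₀, (0 : ℤ), (0 : ℤ)) k ^ 2,
            by linear_combination hq⟩
      rw [← h3, add_zero] at h4
      exact (Int.not_even_iff_odd.mpr hy₀') h4
  have hne : i ≠ j := by
    rintro rfl
    rw [hi] at hj
    norm_num at hj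
  -- index set
  have hcard2 : Fintype.card {k : Fin n // k ≠ i ∧ k ≠ j} = Fintype.card ι := by
    rw [Fintype.card_subtype]
    have h1 : (Finset.univ.filter fun k : Fin n => k ≠ i ∧ k ≠ j) =
        (Finset.univ.erase i).erase j := by
      ext k
      simp only [Finset.mem_filter, Finset.mem_univ, true_and, Finset.mem_erase, and_true]
      exact and_comm
    rw [h1, Finset.card_erase_of_mem, Finset.card_erase_of_mem (Finset.mem_univ _),
      Finset.card_univ, Fintype.card_fin]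
    · omega
    · rw [Finset.mem_erase]; exact ⟨Ne.symm hne, Finset.mem_univ _⟩
  let e : ι ≃ {k : Fin n // k ≠ i ∧ k ≠ j} := Fintype.equivOfCardEq hcard2.symm
  refine ⟨b i + b j, fun k => b (e k), fun k => d (e k), ⟨?_, ?_, ?_, ?_, ?_, ?_⟩, hij⟩
  · rw [← BL_apply]
    simp only [map_add, LinearMap.add_apply, hb, if_neg hne, if_neg (Ne.symm hne), if_true, hi, hj]
    norm_num
  · intro k
    rw [← BL_apply, map_add, hb, hb, if_neg (e k).2.1, if_neg (e k).2.2, add_zero]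
  · intro k
    rw [← BL_apply, hb, if_pos rfl]
  · intro k l hkl
    rw [← BL_apply, hb, if_neg]
    intro h
    exact hkl (e.injective (Subtype.ext h))
  · intro k
    exact hd _
  · refine ⟨b i, ?_⟩
    rw [← BL_apply, map_add, LinearMap.add_apply, hb, hb, if_pos rfl, if_neg (Ne.symm hne), hi,
      add_zero]

end

end Pool.Agent.N558
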