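import Mathlib
import Pool.Agent.N558.Zside

/-!
# The integral side of the steps: normalisation of the isotropic vector and base change
-/

set_option autoImplicit false

namespace Pool.Agent.N558

open Module Matrix

section

variable {ι : Type} [Fintype ι] [DecidableEq ι]

lemma form_dvd {M : Matrix ι ι ℤ} {p : ℤ} {w w' : (ι → ℤ) × ℤ × ℤ}
    (h1 : ∀ i, p ∣ w.1 i) (h2 : p ∣ w.2.1) (h3 : p ∣ w.2.2) : p ∣ form M 0 w w' := by
  unfold form
  refine dvd_add (dvd_add (dvd_add ?_ ?_) ?_) ?_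
  · exact Finset.dvd_sum fun i _ => dvd_mul_of_dvd_left (h1 i) _
  · exact dvd_mul_of_dvd_left h2 _
  · exact dvd_mul_of_dvd_left h3 _
  · rw [zero_mul, zero_mul]; exact dvd_zero _

lemma Fam.not_dvd {M : Matrix ι ι ℤ} {κ : Type} {w : (ι → ℤ) × ℤ × ℤ}
    {z : κ → (ι → ℤ) × ℤ × ℤ} {d : κ → ℤ} (h : Fam M κ w z d) {p : ℕ} (hp : p.Prime) :
    ¬ ((∀ i, (p : ℤ) ∣ w.1 i) ∧ (p : ℤ) ∣ w.2.1 ∧ (p : ℤ) ∣ w.2.2) := by
  rintro ⟨h1, h2, h3⟩
  obtain ⟨w', hw'⟩ := h.prim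
  have h4 := form_dvd (M := M) (w' := w') h1 h2 h3
  rw [hw'] at h4
  exact (Nat.prime_iff_prime_int.mp hp).not_isUnit (isUnit_of_dvd_one h4)

theorem exists_good {M : Matrix ι ι ℤ} (hs : Mᵀ = M) (hu : IsUnit M.det)
    (hodd : ∃ y : ι → ℤ, Odd (y ⬝ᵥ (M *ᵥ y))) (a b : ι) (hab : a ≠ b) :
    ∃ (w : (ι → ℤ) × ℤ × ℤ) (z : ι → (ι → ℤ) × ℤ × ℤ) (d : ι → ℤ), Fam M ι w z d ∧
      (∀ p : ℕ, p.Prime → ¬ ∀ i, (p : ℤ) ∣ w.1 i) ∧ ∃ j, w.2.2 = 4 * j + 3 := by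
  obtain ⟨w, z, d, hF, hwo⟩ := exists_fam hs hu hodd
  -- first transformation
  obtain ⟨y, hy⟩ := gcd_lem a b hab w.1 (2 * w.2.1)
  have hy2 : ((2 : ℤ) • y) ⬝ᵥ (M *ᵥ ((2 : ℤ) • y)) = 2 * (2 * (y ⬝ᵥ (M *ᵥ y))) := by
    rw [Matrix.mulVec_smul, smul_dotProduct, dotProduct_smul]; simp only [smul_eq_mul]
  have hF1 := hF.map (eiv M ((2 : ℤ) • y) (2 * (y ⬝ᵥ (M *ᵥ y))))
    (form_eiv hs _ _ hy2)
  set w1 := eiv M ((2 : ℤ) • y) (2 * (y ⬝ᵥ (M *ᵥ y))) w with hw1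
  have hw1o : Odd w1.2.2 := by
    have : w1.2.2 = w.2.2 - 2 * (w.1 ⬝ᵥ (M *ᵥ y) + (y ⬝ᵥ (M *ᵥ y)) * w.2.1) := by
      rw [hw1]; unfold eiv
      simp only [Matrix.mulVec_smul, dotProduct_smul, smul_eq_mul]; ring
    rw [this]
    exact hwo.sub_even (even_two_mul _)
  have hA : ∀ p : ℕ, p.Prime → ¬ ((∀ i, (p : ℤ) ∣ w1.1 i) ∧ (p : ℤ) ∣ w1.2.2) := by
    rintro p hp ⟨h1, h2⟩
    have hpi := Nat.prime_iff_prime_int.mp hp
    have h3 : (p : ℤ) ∣ 2 * w.2.1 := by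
      apply hy p hp
      intro i
      have := h1 i
      rw [hw1] at this
      unfold eiv at this
      simp only [Pi.add_apply, Pi.smul_apply, smul_eq_mul] at this
      have e : w.1 i + 2 * w.2.1 * y i = w.1 i + w.2.1 * (2 * y i) := by ring
      rw [e]; exact this
    have h4 : ¬ (p : ℤ) ∣ 2 := by
      intro h4
      have h5 : p = 2 := by
        rw [← Nat.prime_dvd_prime_iff_eq hp Nat.prime_two]
        exact_mod_cast h4
      rw [h5] at h2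
      obtain ⟨k, hk⟩ := h2
      obtain ⟨l, hl⟩ := hw1o
      rw [hl] at hk
      push_cast at hk
      omega
    have h5 : (p : ℤ) ∣ w1.2.1 := (hpi.dvd_or_dvd h3).resolve_left h4
    exact hF1.not_dvd hp ⟨h1, h5, h2⟩
  -- second transformation
  obtain ⟨y₀, h₀, hyh₀, hy₀⟩ : ∃ (y₀ : ι → ℤ) (h₀ : ℤ), y₀ ⬝ᵥ (M *ᵥ y₀) = 2 * h₀ ∧
      ¬ ∀ i, (2 : ℤ) ∣ w1.1 i + w1.2.2 * y₀ i := by
    by_cases hx : ∀ i, (2 : ℤ) ∣ w1.1 i
    · -- a vector of even norm which is not divisible by two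
      obtain ⟨y₀, h₀, h1, i, hi⟩ : ∃ (y₀ : ι → ℤ) (h₀ : ℤ), y₀ ⬝ᵥ (M *ᵥ y₀) = 2 * h₀ ∧
          ∃ i, y₀ i = 1 := by
        have hnorm : ∀ i, (Pi.single i 1 : ι → ℤ) ⬝ᵥ (M *ᵥ (Pi.single i 1)) = M i i := by
          intro i
          rw [Matrix.mulVec_single_one, single_dotProduct, one_mul]; rfl
        rcases Int.even_or_odd (M a a) with ⟨h, hh⟩ | hoa
        · exact ⟨Pi.single a 1, h, by rw [hnorm, hh]; ring, a, by simp⟩
        rcases Int.even_or_odd (M b b) with ⟨h, hh⟩ | hob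
        · exact ⟨Pi.single b 1, h, by rw [hnorm, hh]; ring, b, by simp⟩
        obtain ⟨k, hk⟩ := hoa
        obtain ⟨l, hl⟩ := hob
        refine ⟨Pi.single a 1 + Pi.single b 1, k + l + 1 + M a b, ?_, a, ?_⟩
        · rw [Matrix.mulVec_add, dotProduct_add, add_dotProduct, add_dotProduct, hnorm, hnorm,
            dot_symm hs (Pi.single b 1) (Pi.single a 1), hk, hl]
          have : (Pi.single a 1 : ι → ℤ) ⬝ᵥ (M *ᵥ (Pi.single b 1)) = M a b := by
            rw [Matrix.mulVec_single_one, single_dotProduct, one_mul]; rfl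
          rw [this]; ring
        · simp [hab]
      refine ⟨y₀, h₀, h1, fun hall => ?_⟩
      have h2 : (2 : ℤ) ∣ w1.2.2 * y₀ i := (dvd_add_right (hx i)).mp (hall i)
      rw [hi, mul_one] at h2
      obtain ⟨k, hk⟩ := h2
      obtain ⟨l, hl⟩ := hw1o
      omega
    · refine ⟨0, 0, by simp, fun hall => hx fun i => ?_⟩
      have := hall i
      simpa using this
  obtain ⟨y₁, hy₁⟩ := gcd_lem a b hab (fun i => w1.1 i + w1.2.2 * y₀ i) (2 * w1.2.2)
  have hyy : (y₀ + (2 : ℤ) • y₁) ⬝ᵥ (M *ᵥ (y₀ + (2 : ℤ) • y₁)) =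
      2 * (h₀ + 2 * (y₀ ⬝ᵥ (M *ᵥ y₁)) + 2 * (y₁ ⬝ᵥ (M *ᵥ y₁))) := by
    rw [Matrix.mulVec_add, Matrix.mulVec_smul, dotProduct_add, add_dotProduct, add_dotProduct,
      smul_dotProduct, smul_dotProduct, dotProduct_smul, dotProduct_smul, hyh₀,
      dot_symm hs y₁ y₀]
    simp only [smul_eq_mul]; ring
  have hF2 := hF1.map (eiu M (y₀ + (2 : ℤ) • y₁)
    (h₀ + 2 * (y₀ ⬝ᵥ (M *ᵥ y₁)) + 2 * (y₁ ⬝ᵥ (M *ᵥ y₁)))) (form_eiu hs _ _ hyy)
  set w2 := eiu M (y₀ + (2 : ℤ) • y₁)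
    (h₀ + 2 * (y₀ ⬝ᵥ (M *ᵥ y₁)) + 2 * (y₁ ⬝ᵥ (M *ᵥ y₁))) w1 with hw2
  have hw22 : w2.2.2 = w1.2.2 := by rw [hw2]; rfl
  have hw21 : ∀ i, w2.1 i = w1.1 i + w1.2.2 * y₀ i + 2 * w1.2.2 * y₁ i := by
    intro i
    rw [hw2]; unfold eiu
    simp only [Pi.add_apply, Pi.smul_apply, smul_eq_mul]; ring
  have hP2 : ∀ p : ℕ, p.Prime → ¬ ∀ i, (p : ℤ) ∣ w2.1 i := by
    intro p hp hall
    have hpi := Nat.prime_iff_prime_int.mp hp
    have h3 : (p : ℤ) ∣ 2 * w1.2.2 := by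
      apply hy₁ p hp
      intro i
      have := hall i
      rwa [hw21] at this
    rcases hpi.dvd_or_dvd h3 with h4 | h4
    · have h5 : p = 2 := by
        rw [← Nat.prime_dvd_prime_iff_eq hp Nat.prime_two]
        exact_mod_cast h4
      apply hy₀
      intro i
      have h6 := hall i
      rw [hw21, h5] at h6
      have h7 : ((2 : ℕ) : ℤ) ∣ 2 * w1.2.2 * y₁ i := ⟨w1.2.2 * y₁ i, by push_cast; ring⟩
      exact (dvd_add_left h7).mp h6
    · apply hA p hp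
      refine ⟨fun i => ?_, h4⟩
      have h6 := hall i
      rw [hw21] at h6
      have h7 : (p : ℤ) ∣ w1.2.2 * y₀ i + 2 * w1.2.2 * y₁ i := by
        have : w1.2.2 * y₀ i + 2 * w1.2.2 * y₁ i = w1.2.2 * (y₀ i + 2 * y₁ i) := by ring
        rw [this]
        exact dvd_mul_of_dvd_left h4 _
      rw [add_assoc] at h6
      exact (dvd_add_left h7).mp h6
  obtain ⟨l, hl⟩ := hw1o
  rcases Int.even_or_odd l with ⟨k, hk⟩ | ⟨k, hk⟩
  · -- change the sign
    have hF3 := hF2.map (fun z => -z) (by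
      intro z z'
      unfold form
      simp only [Prod.fst_neg, Prod.snd_neg, Matrix.mulVec_neg, neg_dotProduct, dotProduct_neg]
      ring)
    refine ⟨-w2, _, _, hF3, ?_, -k - 1, ?_⟩
    · intro p hp hall
      apply hP2 p hp
      intro i
      have := hall i
      simpa using this
    · simp only [Prod.snd_neg]
      rw [hw22, hl, hk]; ring
  · exact ⟨w2, _, _, hF2, hP2, k, by rw [hw22, hl, hk]; ring⟩

lemma prim_of_primes (x : ι → ℤ) (h : ∀ p : ℕ, p.Prime → ¬ ∀ i, (p : ℤ) ∣ x i) :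
    ∃ g : ι → ℤ, g ⬝ᵥ x = 1 := by
  have hpr := IsPrincipalIdealRing.principal (Ideal.span (Set.range x))
  obtain ⟨d, hd⟩ := hpr.principal
  have hdvd : ∀ i, d ∣ x i := by
    intro i
    have h1 : x i ∈ Ideal.span (Set.range x) := Ideal.subset_span ⟨i, rfl⟩
    rw [hd] at h1
    exact Ideal.mem_span_singleton.mp h1
  have hu : IsUnit d := by
    by_contra hcon
    rw [Int.isUnit_iff_natAbs_eq] at hcon
    obtain ⟨p, hp, hpd⟩ := Nat.exists_prime_and_dvd hcon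
    exact h p hp fun i => (Int.natCast_dvd.mpr hpd).trans (hdvd i)
  have h1 : (1 : ℤ) ∈ Ideal.span (Set.range x) := by
    rw [hd]
    exact Ideal.mem_span_singleton.mpr hu.dvd
  rw [Ideal.mem_span_range_iff_exists_fun] at h1
  obtain ⟨g, hg⟩ := h1
  exact ⟨g, hg⟩

end

theorem base_change {N : ℕ} (M : Matrix (Fin (N + 2)) (Fin (N + 2)) ℤ) (hs : Mᵀ = M) (ε : ℤ)
    (hdet : M.det = ε) (hε : ε * ε = 1) (x₀ : Fin (N + 2) → ℤ)
    (hx : ∀ p : ℕ, p.Prime → ¬ ∀ i, (p : ℤ) ∣ x₀ i)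
    (hN : 1 ≤ N ∨ x₀ ⬝ᵥ (M *ᵥ x₀) = 0) :
    ∃ P Q : Matrix (Fin (N + 2)) (Fin (N + 2)) ℤ, P * Q = 1 ∧ Q * P = 1 ∧
      ∃ c₀ : Fin (N + 2) → ℤ, x₀ = P *ᵥ c₀ ∧ c₀ 1 = 1 ∧
        ∀ i, (Pᵀ * M * P).adjugate i 0 = c₀ i := by
  have hu : IsUnit M.det := by rw [hdet]; exact IsUnit.of_mul_eq_one ε hε
  have hε0 : ε ≠ 0 := by rintro rfl; norm_num at hε
  let ℓ : (Fin (N + 2) → ℤ) →ₗ[ℤ] ℤ :=
    { toFun := fun y => y ⬝ᵥ (M *ᵥ x₀)
      map_add' := fun y y' => add_dotProduct _ _ _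
      map_smul' := fun r y => smul_dotProduct r y _ }
  have hℓ : ∀ y, ℓ y = y ⬝ᵥ (M *ᵥ x₀) := fun y => rfl
  obtain ⟨g, hg⟩ := prim_of_primes x₀ hx
  set p₁ : Fin (N + 2) → ℤ := ε • (M⁻¹ *ᵥ g) with hp₁
  have hℓp : ℓ p₁ = ε := by
    rw [hℓ, hp₁, smul_dotProduct, dot_symm hs, Matrix.mulVec_mulVec,
      Matrix.mul_nonsing_inv _ hu, Matrix.one_mulVec, dotProduct_comm, hg]; simp
  set K := LinearMap.ker ℓ with hK
  have hcons : ∀ q : Fin (N + 2) → ℤ, ℓ q = ε → ∀ {n : ℕ} (b : Basis (Fin n) ℤ K),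
      ∃ b' : Basis (Fin (n + 1)) ℤ (Fin (N + 2) → ℤ), ⇑b' = Fin.cons q ((↑) ∘ b) := by
    intro q hq n b
    refine ⟨Basis.mkFinCons q b ?_ ?_, Basis.coe_mkFinCons _ _ _ _⟩
    · intro c x hx h0
      have h1 := congrArg ℓ h0
      have hx' : ℓ x = 0 := hx
      rw [map_add, map_smul, hq, hx', add_zero, map_zero, smul_eq_mul] at h1
      rcases mul_eq_zero.mp h1 with h | h
      · exact h
      · exact absurd h hε0
    · intro z
      refine ⟨-(ε * ℓ z), ?_⟩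
      rw [hK, LinearMap.mem_ker, map_add, map_smul, hq, smul_eq_mul]
      linear_combination (-(ℓ z)) * hε
  have hfrK : finrank ℤ K = N + 1 := by
    obtain ⟨b', -⟩ := hcons p₁ hℓp (Module.finBasis ℤ K)
    have h1 := Module.finrank_eq_card_basis b'
    rw [Module.finrank_fintype_fun_eq_card, Fintype.card_fin, Fintype.card_fin] at h1
    omega
  let bK : Basis (Fin (N + 1)) ℤ K := Module.finBasisOfFinrankEq ℤ K hfrK
  set m := -(ε * ℓ x₀) with hm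
  have hk₀ : ℓ (x₀ + m • p₁) = 0 := by
    rw [map_add, map_smul, hℓp, smul_eq_mul, hm]
    linear_combination (-(ℓ x₀)) * hε
  set k₀ : K := ⟨x₀ + m • p₁, hk₀⟩ with hk₀def
  obtain ⟨y, hy⟩ : ∃ y : Fin (N + 1) → ℤ, ∀ p : ℕ, p.Prime →
      ¬ ∀ i, (p : ℤ) ∣ bK.repr k₀ i + m * y i := by
    have hcontra : ∀ p : ℕ, p.Prime → (p : ℤ) ∣ m → ¬ ∀ i, (p : ℤ) ∣ bK.repr k₀ i := by
      intro p hp hpm hall
      choose t ht using hall
      have h1 : k₀ = (p : ℤ) • ∑ i, t i • bK i := by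
        conv_lhs => rw [← bK.sum_repr k₀]
        rw [Finset.smul_sum]
        refine Finset.sum_congr rfl fun i _ => ?_
        rw [ht i, smul_smul]
      have h2 : x₀ + m • p₁ = (p : ℤ) • ((∑ i, t i • bK i : K) : Fin (N + 2) → ℤ) :=
        congrArg Subtype.val h1
      apply hx p hp
      intro i
      have h3 := congrFun h2 i
      simp only [Pi.add_apply, Pi.smul_apply, smul_eq_mul] at h3
      have h4 : x₀ i = p * ((∑ i, t i • bK i : K) : Fin (N + 2) → ℤ) i - m * p₁ i := by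
        linear_combination h3
      rw [h4]
      exact dvd_sub (dvd_mul_right _ _) (dvd_mul_of_dvd_left hpm _)
    rcases hN with hN | hN
    · obtain ⟨N', rfl⟩ := Nat.exists_eq_add_of_le hN
      have h01 : (0 : Fin (1 + N' + 1)) ≠ Fin.last _ := by
        intro h
        have := congrArg Fin.val h
        simp only [Fin.val_zero, Fin.val_last] at this
        omega
      obtain ⟨y, hy⟩ := gcd_lem (0 : Fin (1 + N' + 1)) (Fin.last _) h01
        (fun i => bK.repr k₀ i) m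
      refine ⟨y, fun p hp hall => ?_⟩
      have hpm := hy p hp hall
      exact hcontra p hp hpm fun i => (dvd_add_left (dvd_mul_of_dvd_left hpm _)).mp (hall i)
    · refine ⟨0, fun p hp hall => ?_⟩
      have hm0 : m = 0 := by rw [hm, hℓ, hN, mul_zero, neg_zero]
      refine hcontra p hp (by rw [hm0]; exact dvd_zero _) fun i => ?_
      simpa using hall i
  set κ : K := ∑ i, y i • bK i with hκ
  set k : K := k₀ + m • κ with hkdef
  have hkrepr : ∀ i, bK.repr k i = bK.repr k₀ i + m * y i := by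
    intro i
    have h1 : bK.repr κ i = y i := by
      rw [hκ]
      simp [Finsupp.single_apply]
    rw [hkdef, map_add, map_smul, Finsupp.add_apply, Finsupp.smul_apply, h1, smul_eq_mul]
  obtain ⟨gk, hgk⟩ := prim_of_primes (fun i => bK.repr k₀ i + m * y i) hy
  let G : K →ₗ[ℤ] ℤ := ∑ i, gk i • bK.coord i
  have hGk : G k = 1 := by
    simp only [G, LinearMap.sum_apply, LinearMap.smul_apply, Basis.coord_apply, smul_eq_mul]
    rw [← hgk]
    exact Finset.sum_congr rfl fun i _ => by rw [hkrepr]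
  have hconsK : ∀ {n : ℕ} (b : Basis (Fin n) ℤ (LinearMap.ker G)),
      ∃ b' : Basis (Fin (n + 1)) ℤ K, ⇑b' = Fin.cons k ((↑) ∘ b) := by
    intro n b
    refine ⟨Basis.mkFinCons k b ?_ ?_, Basis.coe_mkFinCons _ _ _ _⟩
    · intro c x hx h0
      have h1 := congrArg G h0
      have hx' : G x = 0 := hx
      rw [map_add, map_smul, hGk, hx', add_zero, map_zero, smul_eq_mul, mul_one] at h1
      exact h1
    · intro z
      refine ⟨-(G z), ?_⟩
      rw [LinearMap.mem_ker, map_add, map_smul, hGk, smul_eq_mul]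
      ring
  have hfrG : finrank ℤ (LinearMap.ker G) = N := by
    obtain ⟨b', -⟩ := hconsK (Module.finBasis ℤ (LinearMap.ker G))
    have h1 := Module.finrank_eq_card_basis b'
    rw [hfrK, Fintype.card_fin] at h1
    omega
  obtain ⟨bK', hbK'⟩ := hconsK (Module.finBasisOfFinrankEq ℤ (LinearMap.ker G) hfrG)
  have hℓκ : ℓ (κ : Fin (N + 2) → ℤ) = 0 := κ.2
  obtain ⟨bas, hbas⟩ := hcons (p₁ + κ) (by rw [map_add, hℓp, hℓκ, add_zero]) bK'
  have hb0 : bas 0 = p₁ + κ := by rw [hbas]; rfl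
  have hb1 : bas 1 = (k : Fin (N + 2) → ℤ) := by
    rw [hbas]
    change ((bK' 0 : K) : Fin (N + 2) → ℤ) = k
    rw [hbK']; rfl
  have hbs : ∀ j : Fin (N + 1), ℓ (bas j.succ) = 0 := by
    intro j
    rw [hbas]
    exact (bK' j).2
  set P := (Pi.basisFun ℤ (Fin (N + 2))).toMatrix bas with hP
  set Q := bas.toMatrix (Pi.basisFun ℤ (Fin (N + 2))) with hQ
  have hPQ : P * Q = 1 := Basis.toMatrix_mul_toMatrix_flip _ _
  have hQP : Q * P = 1 := Basis.toMatrix_mul_toMatrix_flip _ _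
  have hPc : ∀ c : Fin (N + 2) → ℤ, P *ᵥ c = ∑ j, c j • bas j := by
    intro c
    funext i
    simp only [Matrix.mulVec, dotProduct, hP, Basis.toMatrix_apply, Pi.basisFun_repr,
      Finset.sum_apply, Pi.smul_apply, smul_eq_mul]
    exact Finset.sum_congr rfl fun j _ => mul_comm _ _
  set c₀ : Fin (N + 2) → ℤ := Fin.cons (-m) (Fin.cons 1 0) with hc₀
  have hx₀ : x₀ = P *ᵥ c₀ := by
    rw [hPc, Fin.sum_univ_succ, Fin.sum_univ_succ]
    have h1 : ∑ i : Fin N, c₀ i.succ.succ • bas i.succ.succ = 0 := by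
      refine Finset.sum_eq_zero fun i _ => ?_
      have : c₀ i.succ.succ = 0 := rfl
      rw [this, zero_smul]
    have h2 : c₀ 0 = -m := rfl
    have h3 : c₀ (Fin.succ 0) = 1 := rfl
    have h4 : bas (Fin.succ 0) = (k : Fin (N + 2) → ℤ) := hb1
    rw [h1, h2, h3, h4, hb0, hkdef]
    simp only [Submodule.coe_add, Submodule.coe_smul, hk₀def]
    funext i
    simp only [Pi.add_apply, Pi.smul_apply, smul_eq_mul, Pi.zero_apply]
    ring
  refine ⟨P, Q, hPQ, hQP, c₀, hx₀, rfl, ?_⟩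
  have hdetP : P.det * P.det = 1 := by
    have h1 : IsUnit P.det := Matrix.isUnit_det_of_right_inverse hPQ
    rcases Int.isUnit_iff.mp h1 with h | h <;> rw [h] <;> norm_num
  have hdet' : (Pᵀ * M * P).det = ε := by
    rw [Matrix.det_mul, Matrix.det_mul, Matrix.det_transpose, hdet]
    linear_combination ε * hdetP
  have hMc : (Pᵀ * M * P) *ᵥ c₀ = ε • (Pi.single 0 1 : Fin (N + 2) → ℤ) := by
    rw [← Matrix.mulVec_mulVec, ← hx₀, ← Matrix.mulVec_mulVec]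
    funext j
    have h1 : (Pᵀ *ᵥ (M *ᵥ x₀)) j = ℓ (bas j) := by
      rw [hℓ]
      simp only [Matrix.mulVec, dotProduct, Matrix.transpose_apply, hP, Basis.toMatrix_apply,
        Pi.basisFun_repr]
    rw [h1]
    refine Fin.cases ?_ (fun j => ?_) j
    · rw [hb0, map_add, hℓp, hℓκ, add_zero]; simp
    · rw [hbs]; simp
  intro i
  have h1 : (Pᵀ * M * P).adjugate *ᵥ ((Pᵀ * M * P) *ᵥ c₀) = ε • c₀ := by
    rw [Matrix.mulVec_mulVec, Matrix.adjugate_mul, hdet', Matrix.smul_mulVec, Matrix.one_mulVec]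
  rw [hMc, Matrix.mulVec_smul, Matrix.mulVec_single_one] at h1
  have h2 := congrFun h1 i
  simp only [Pi.smul_apply, smul_eq_mul] at h2
  exact mul_left_cancel₀ hε0 h2

end Pool.Agent.N558
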