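import Mathlib
import Pool.Agent.N558.Zside2

/-!
# The condition on `A(1)` can be dropped
-/

set_option autoImplicit false

namespace Pool.Agent.N558

open Module Matrix LaurentPolynomial Pool.Agent.R799

lemma IsometricPairings.trans {m n l : Type*} [Fintype m] [Fintype n] [Fintype l]
    {N : Matrix m m Lam} {P : Matrix m m Om} {N' : Matrix n n Lam} {P' : Matrix n n Om}
    {N'' : Matrix l l Lam} {P'' : Matrix l l Om}
    (h : IsometricPairings N P N' P') (h' : IsometricPairings N' P' N'' P'') :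
    IsometricPairings N P N'' P'' := by
  rw [iso_iff] at h h' ⊢
  obtain ⟨e, he⟩ := h
  obtain ⟨e', he'⟩ := h'
  refine ⟨e.trans e', fun a b a' b' ha hb => ?_⟩
  obtain ⟨a₁, ha₁⟩ := Submodule.Quotient.mk_surjective _ (e (Submodule.Quotient.mk a))
  obtain ⟨b₁, hb₁⟩ := Submodule.Quotient.mk_surjective _ (e (Submodule.Quotient.mk b))
  obtain ⟨c, hc⟩ := he a b a₁ b₁ ha₁.symm hb₁.symm
  obtain ⟨c', hc'⟩ := he' a₁ b₁ a' b' (by rw [ha₁]; exact ha) (by rw [hb₁]; exact hb)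
  refine ⟨c + c', ?_⟩
  rw [map_add, ← hc, ← hc']; ring

section

variable {ι : Type} [Fintype ι] [DecidableEq ι]

lemma iso_congr (A : Matrix ι ι Lam) (hA : conjT A = A) (hD : A.det ≠ 0) (W Z : Matrix ι ι Lam)
    (hWZ : W * Z = 1) (hZW : Z * W = 1) (hdet : (conjT W * A * W).det = A.det) :
    IsometricPairings A (toOm A)⁻¹ (conjT W * A * W) (toOm (conjT W * A * W))⁻¹ := by
  refine iso_of_WZ A (conjT W * A * W) W Z 1 0 A.det hA ?_ rfl hdet hD one_ne_zero (map_one _)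
    (by rw [hWZ]; simp) (by rw [hZW]; simp) (by simp) (by ring)
  rw [conjT_mul, conjT_mul, conjT_conjT, hA, Matrix.mul_assoc]

/-- integral matrices as matrices over `Λ` -/
noncomputable def zl (P : Matrix ι ι ℤ) : Matrix ι ι Lam := P.map (Int.castRingHom Lam)

lemma zl_mul (P Q : Matrix ι ι ℤ) : zl (P * Q) = zl P * zl Q := by
  unfold zl; exact Matrix.map_mul

lemma zl_one : zl (1 : Matrix ι ι ℤ) = 1 := by
  unfold zl; exact Matrix.map_one _ (map_zero _) (map_one _)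

lemma zl_det (P : Matrix ι ι ℤ) : (zl P).det = ((P.det : ℤ) : Lam) :=
  (RingHom.map_det (Int.castRingHom Lam) P).symm

lemma conjT_zl (P : Matrix ι ι ℤ) : conjT (zl P) = zl Pᵀ := by
  apply Matrix.ext; intro i j
  rw [conjT_apply]
  unfold zl
  simp only [Matrix.map_apply, Matrix.transpose_apply, eq_intCast, map_intCast]

lemma atOne_zl (P : Matrix ι ι ℤ) : atOne (zl P) = P := by
  apply Matrix.ext; intro i j
  rw [atOne_apply]
  unfold zl
  simp

lemma herm_at (A : Matrix ι ι Lam) (hA : conjT A = A) : (atOne A)ᵀ = atOne A := by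
  rw [← atOne_conjT, hA]

lemma form_base {M P Q : Matrix ι ι ℤ} (hPQ : P * Q = 1) (θ : ℤ) (y y' : ι → ℤ) (v v' : ℤ × ℤ) :
    form (Pᵀ * M * P) θ (Q *ᵥ y, v) (Q *ᵥ y', v') = form M θ (y, v) (y', v') := by
  unfold form
  have h1 : (Q *ᵥ y) ⬝ᵥ ((Pᵀ * M * P) *ᵥ (Q *ᵥ y')) = y ⬝ᵥ (M *ᵥ y') := by
    rw [← Matrix.mulVec_mulVec, ← Matrix.mulVec_mulVec, Matrix.mulVec_mulVec y' P Q, hPQ,
      Matrix.one_mulVec, Matrix.dotProduct_mulVec (Q *ᵥ y), Matrix.vecMul_transpose,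
      Matrix.mulVec_mulVec, hPQ, Matrix.one_mulVec]
  rw [h1]

lemma congr_of_gram {k : ℕ} (B : Matrix (Fin k) (Fin k) ℤ) (s : Fin k → (Fin k → ℤ))
    (d : Fin k → ℤ) (hd : ∀ i, d i = 1 ∨ d i = -1)
    (h1 : ∀ i, s i ⬝ᵥ (B *ᵥ s i) = d i) (h2 : ∀ i j, i ≠ j → s i ⬝ᵥ (B *ᵥ s j) = 0) :
    CongruentToDiagonal B := by
  let S : Matrix (Fin k) (Fin k) ℤ := Matrix.of fun i j => s j i
  have hS : Sᵀ * B * S = Matrix.diagonal d := by
    ext i j
    have h3 : (Sᵀ * B * S) i j = s i ⬝ᵥ (B *ᵥ s j) := by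
      rw [Matrix.mul_assoc, Matrix.mul_apply]
      rfl
    rw [h3, Matrix.diagonal_apply]
    by_cases h : i = j
    · subst h; rw [if_pos rfl, h1]
    · rw [if_neg h, h2 i j h]
  have hdet := congrArg Matrix.det hS
  rw [Matrix.det_mul, Matrix.det_mul, Matrix.det_transpose, Matrix.det_diagonal] at hdet
  have hpu : IsUnit (∏ i, d i) := by
    refine Finset.prod_induction d IsUnit (fun a b ha hb => ha.mul hb) isUnit_one ?_
    intro i _
    rcases hd i with h | h <;> rw [h]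
    · exact isUnit_one
    · exact isUnit_one.neg
  have hSu : IsUnit S.det := by
    rw [← hdet] at hpu
    exact isUnit_of_mul_isUnit_right hpu
  refine ⟨S⁻¹, d, ?_, hd, ?_⟩
  · exact Matrix.isUnit_nonsing_inv_det S hSu
  · rw [← hS, Matrix.transpose_nonsing_inv]
    have hStu : IsUnit Sᵀ.det := by rw [Matrix.det_transpose]; exact hSu
    calc B = (Sᵀ⁻¹ * Sᵀ) * B * (S * S⁻¹) := by
          rw [Matrix.nonsing_inv_mul _ hStu, Matrix.mul_nonsing_inv _ hSu, Matrix.one_mul,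
            Matrix.mul_one]
      _ = Sᵀ⁻¹ * (Sᵀ * B * S) * S⁻¹ := by simp only [Matrix.mul_assoc]

/-- what we want to show -/
def Good {k : ℕ} (A : Matrix (Fin k) (Fin k) Lam) : Prop :=
  ∃ A' : Matrix (Fin k) (Fin k) Lam, conjT A' = A' ∧ A'.det = A.det ∧
    IsometricPairings A (toOm A)⁻¹ A' (toOm A')⁻¹ ∧ CongruentToDiagonal (atOne A')

lemma Good.of_iso {k : ℕ} {A A₁ : Matrix (Fin k) (Fin k) Lam} (h : Good A₁)
    (hdet : A₁.det = A.det) (hiso : IsometricPairings A (toOm A)⁻¹ A₁ (toOm A₁)⁻¹) : Good A := by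
  obtain ⟨A', h1, h2, h3, h4⟩ := h
  exact ⟨A', h1, h2.trans hdet, IsometricPairings.trans hiso h3, h4⟩

end

/-- change of basis at the level of `Λ` -/
lemma base_lam {k : ℕ} (A : Matrix (Fin k) (Fin k) Lam) (hA : conjT A = A) (hD : A.det ≠ 0)
    (P Q : Matrix (Fin k) (Fin k) ℤ) (hPQ : P * Q = 1) (hQP : Q * P = 1) :
    ∃ A₂ : Matrix (Fin k) (Fin k) Lam, conjT A₂ = A₂ ∧ A₂.det = A.det ∧
      IsometricPairings A (toOm A)⁻¹ A₂ (toOm A₂)⁻¹ ∧ atOne A₂ = Pᵀ * atOne A * P := by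
  have hdetP : P.det * P.det = 1 := by
    have h1 : IsUnit P.det := Matrix.isUnit_det_of_right_inverse hPQ
    rcases Int.isUnit_iff.mp h1 with h | h <;> rw [h] <;> norm_num
  have hdet : (conjT (zl P) * A * zl P).det = A.det := by
    rw [Matrix.det_mul, Matrix.det_mul, conjT_det, zl_det, map_intCast]
    have : ((P.det : ℤ) : Lam) * ((P.det : ℤ) : Lam) = 1 := by
      rw [← Int.cast_mul, hdetP, Int.cast_one]
    linear_combination A.det * this
  refine ⟨conjT (zl P) * A * zl P, ?_, hdet, ?_, ?_⟩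
  · rw [conjT_mul, conjT_mul, conjT_conjT, hA, Matrix.mul_assoc]
  · exact iso_congr A hA hD (zl P) (zl Q) (by rw [← zl_mul, hPQ, zl_one])
      (by rw [← zl_mul, hQP, zl_one]) hdet
  · rw [atOne_mul, atOne_mul, conjT_zl, atOne_zl, atOne_zl]

theorem odd_final {N : ℕ} (hN : 1 ≤ N) (A : Matrix (Fin (N + 2)) (Fin (N + 2)) Lam)
    (hA : conjT A = A) (ε : ℤ) (hε : ev1 A.det = ε) (hε2 : ε * ε = 1)
    (hodd : ∃ y : Fin (N + 2) → ℤ, Odd (y ⬝ᵥ (atOne A *ᵥ y))) : Good A := by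
  have hD : A.det ≠ 0 := by
    intro h
    rw [h, map_zero] at hε
    rw [← hε] at hε2
    norm_num at hε2
  have hs := herm_at A hA
  have hMdet : (atOne A).det = ε := by rw [atOne_det, hε]
  have hu : IsUnit (atOne A).det := by rw [hMdet]; exact IsUnit.of_mul_eq_one ε hε2
  obtain ⟨w, z, d, hF, hP, j, hj⟩ := exists_good hs hu hodd 0 1 (by
    intro h
    have := congrArg Fin.val h
    simp at this)
  obtain ⟨x₀, α₀, β⟩ := w
  obtain ⟨P, Q, hPQ, hQP, c₀, hxc, hc1, hadj⟩ := base_change (atOne A) hs ε hMdet hε2 x₀ hP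
    (Or.inl hN)
  obtain ⟨A₂, hA₂, hd₂, hiso, hat⟩ := base_lam A hA hD P Q hPQ hQP
  rw [← hat] at hadj
  have hε' : ev1 A₂.det = ε := by rw [hd₂, hε]
  have hM₂det : (atOne A₂).det = ε := by rw [atOne_det, hε']
  have hcol : (fun i => (atOne A₂).adjugate i 0) = c₀ := funext hadj
  have hMc : (atOne A₂) *ᵥ c₀ = ε • (Pi.single 0 1 : Fin (N + 2) → ℤ) := by
    have h1 : c₀ = (atOne A₂).adjugate *ᵥ Pi.single 0 1 := by
      rw [← hcol, Matrix.mulVec_single_one]; rfl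
    rw [h1, Matrix.mulVec_mulVec, Matrix.mul_adjugate, Matrix.smul_mulVec, Matrix.one_mulVec,
      hM₂det]
  have hQx : Q *ᵥ x₀ = c₀ := by rw [hxc, Matrix.mulVec_mulVec, hQP, Matrix.one_mulVec]
  have hww : ε * (atOne A₂).adjugate 0 0 + 2 * α₀ * β = 0 := by
    have h1 := hF.iso
    have h2 := form_base (M := atOne A) hPQ 0 x₀ x₀ (α₀, β) (α₀, β)
    rw [h1, ← hat, hQx] at h2
    unfold form at h2
    simp only [hMc, dotProduct_smul, dotProduct_single_one, smul_eq_mul] at h2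
    rw [hadj]
    linear_combination h2
  have hβ : β = 4 * j + 3 := hj
  obtain ⟨A', h1, h2, h3, s, h4⟩ := step_odd A₂ hA₂ 0 1 (by
    intro h
    have := congrArg Fin.val h
    simp at this) β α₀ ε j hβ hε' hε2 (by
      have : ev1 (A₂.adjugate 1 0) = (atOne A₂).adjugate 1 0 := by
        rw [← atOne_adjugate]; rfl
      rw [this, hadj, hc1]) hww
  rw [hcol] at h4
  have hort : ∀ k, form (atOne A₂) 0 (Q *ᵥ (z k).1, (z k).2) (c₀, α₀, β) = 0 := by
    intro k
    rw [← hQx, hat, form_base hPQ]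
    exact hF.orth k
  refine ⟨A', h1, h2.trans hd₂, IsometricPairings.trans hiso h3, ?_⟩
  refine congr_of_gram (atOne A') (fun k => s (Q *ᵥ (z k).1, (z k).2)) d hF.unit ?_ ?_
  · intro k
    rw [h4 _ _ (hort k) (hort k), hat, form_base hPQ]
    exact hF.norm k
  · intro k l hkl
    rw [h4 _ _ (hort k) (hort l), hat, form_base hPQ]
    exact hF.pair k l hkl

end Pool.Agent.N558
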