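import Pool.Agent.N964.GX.Stm5
import Pool.Agent.Y772.HC.Gam
import Pool.Agent.Y772.HG.Sgn

/-!
# Project GX (helper964), Q4a: Dedekind zeta functions and unramified ray class characters

By helper558.  The proof of the analytic part adapts `Pool/Agent/Y772/HC/Fen.lean` (helper772).
-/

set_option autoImplicit false
set_option linter.unusedSectionVars false

open NumberField Complex Filter Topology Set MeasureTheory Asymptotics
open H370.DL (refl analyticAt_refl im_osc re_osc eventually_im_ne logDeriv_refl order_refl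
  logDeriv_Gammaℝ_bound)
open Pool.Agent.Y767 (GGn)
open Pool.Agent.Y772.HC (Gd GGn_ne GGn_an conj_GGn LX LX_ne LX_an eventually_Gd logDeriv_LX
  GGn_est inv_GGn_le norm_LX)
open Pool.Agent.Y773.G (ex)

namespace Pool.Agent.N558.GXF

section analytic

variable {ι : Type} [Fintype ι]

/-- the shifts are zero -/
abbrev nu (ι : Type) : ι → ℝ := fun _ => 0

/-- functional equation data with a possible pole at `1` -/
structure Dat (R : ℝ) (e : ι → ℕ) (r : ℕ) (E F : ℂ → ℂ) : Prop where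
  he : ∀ i, e i ≤ 1
  ent : Differentiable ℂ E
  hF : ∀ s : ℂ, F s = E s / (s - 1) ^ r
  fe : ∃ w : ℂ, ‖w‖ = 1 ∧ ∀ s : ℂ, s.im ≠ 0 → F s = LX w R e (nu ι) s * refl F s
  vert : ∃ C B : ℝ, 0 ≤ C ∧ 0 ≤ B ∧ ∀ s : ℂ, -1 / 2 ≤ s.re → s.re ≤ 3 / 2 → 2 ≤ |s.im| →
    ‖E s‖ ≤ C * Real.exp (B * |s.im|)

lemma Gd0 {s : ℂ} (hs : s.im ≠ 0) : Gd (nu ι) s := fun i => by
  show s.im + 0 ≠ 0
  rwa [add_zero]

lemma sub_one_ne {z : ℂ} (h : z.im ≠ 0) : z - 1 ≠ 0 := by
  intro h0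
  apply h
  have := congrArg Complex.im h0
  simpa using this

lemma three_le {z : ℂ} (h : -1 ≤ z.re) : ‖z - 1‖ ≤ ‖z + 3‖ := by
  have h1 : ‖z - 1‖ ^ 2 ≤ ‖z + 3‖ ^ 2 := by
    rw [← Complex.normSq_eq_norm_sq, ← Complex.normSq_eq_norm_sq, Complex.normSq_apply,
      Complex.normSq_apply]
    have e1 : (z - 1).re = z.re - 1 := by simp
    have e2 : (z - 1).im = z.im := by simp
    have e3 : (z + 3).re = z.re + 3 := by simp
    have e4 : (z + 3).im = z.im := by simp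
    rw [e1, e2, e3, e4]
    nlinarith
  exact (pow_le_pow_iff_left₀ (norm_nonneg _) (norm_nonneg _) two_ne_zero).1 h1

lemma one_le_three {z : ℂ} (hz : -1 / 2 ≤ z.re) : 1 ≤ ‖z + 3‖ := by
  have h5 := (le_abs_self _).trans (Complex.abs_re_le_norm (z + 3))
  have h6 : (z + 3).re = z.re + 3 := by simp
  rw [h6] at h5
  linarith

lemma sp3 {z : ℂ} (hz : -3 < z.re) : z + 3 ≠ 0 := by
  intro h
  have h6 : (z + 3).re = z.re + 3 := by simp
  rw [h, Complex.zero_re] at h6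
  linarith

variable {R B : ℝ} {e : ι → ℕ} {r : ℕ} {E F : ℂ → ℂ}

lemma Dat.E_eq (h : Dat R e r E F) {z : ℂ} (hz : z - 1 ≠ 0) : E z = (z - 1) ^ r * F z := by
  rw [h.hF z]
  have := pow_ne_zero r hz
  field_simp

lemma Dat.an (h : Dat R e r E F) {z : ℂ} (hz : z - 1 ≠ 0) : AnalyticAt ℂ F z := by
  have h1 : AnalyticAt ℂ (fun s : ℂ => E s / (s - 1) ^ r) z :=
    (h.ent.analyticAt z).div (by fun_prop) (pow_ne_zero r hz)
  have h2 : F = fun s : ℂ => E s / (s - 1) ^ r := funext h.hF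
  rw [h2]
  exact h1

theorem left_edge (hR : 0 < R) (h : Dat R e r E F) (hB : ∀ s : ℂ, 3 / 2 ≤ s.re → ‖F s‖ ≤ B)
    (s : ℂ) (hs : s.re = -1 / 2) : ‖E s‖ ≤ B * R * ‖s + 3‖ ^ (Fintype.card ι + r) := by
  have hB0 : 0 ≤ B := (norm_nonneg _).trans (hB (3 / 2) (by norm_num))
  obtain ⟨w, hw, hfe⟩ := h.fe
  have key : ∀ z : ℂ, z.re = -1 / 2 → z.im ≠ 0 →
      ‖E z‖ ≤ B * R * ‖z + 3‖ ^ (Fintype.card ι + r) := by
    intro z hz him
    have e1 := norm_LX hw hR h.he (V := 0) (ν := nu ι) (fun i => by simp) hz (Gd0 him)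
    rw [add_zero, one_mul] at e1
    have e2 : ‖refl F z‖ ≤ B := by
      unfold H370.DL.refl
      rw [RCLike.norm_conj]
      apply hB
      rw [re_osc, hz]; norm_num
    have e3 : ‖z - 1‖ ≤ ‖z + 3‖ := three_le (by rw [hz]; norm_num)
    rw [h.E_eq (sub_one_ne him), hfe z him, norm_mul, norm_mul, norm_pow]
    calc ‖z - 1‖ ^ r * (‖LX w R e (nu ι) z‖ * ‖refl F z‖) ≤
        ‖z + 3‖ ^ r * ((R * ‖z + 3‖ ^ Fintype.card ι) * B) := by gcongr
      _ = _ := by ring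
  have hsv : s = ((-1 / 2 : ℝ) : ℂ) + (s.im : ℂ) * I := by
    apply Complex.ext
    · simp [hs]
    · simp
  have hcont : Continuous E := h.ent.continuous
  have h1 : Continuous (fun t : ℝ => ‖E (((-1 / 2 : ℝ) : ℂ) + (t : ℂ) * I)‖) := by fun_prop
  have h2 : Continuous (fun t : ℝ => B * R *
      ‖((-1 / 2 : ℝ) : ℂ) + (t : ℂ) * I + 3‖ ^ (Fintype.card ι + r)) := by fun_prop
  have h3 : ∀ t ∈ closure (({0} : Set ℝ)ᶜ),
      ‖E (((-1 / 2 : ℝ) : ℂ) + (t : ℂ) * I)‖ ≤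
      B * R * ‖((-1 / 2 : ℝ) : ℂ) + (t : ℂ) * I + 3‖ ^ (Fintype.card ι + r) := by
    intro t ht
    refine closure_minimal ?_ (isClosed_le h1 h2) ht
    intro t ht
    have him : (((-1 / 2 : ℝ) : ℂ) + (t : ℂ) * I).im = t := by simp
    have hre : (((-1 / 2 : ℝ) : ℂ) + (t : ℂ) * I).re = -1 / 2 := by simp
    exact key _ hre (by rw [him]; exact ht)
  have h4 : closure (({0} : Set ℝ)ᶜ) = univ :=
    ((Set.finite_singleton (0 : ℝ)).countable.dense_compl ℝ).closure_eq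
  have h5 := h3 s.im (by rw [h4]; trivial)
  rwa [← hsv] at h5

theorem strip (hR : 1 ≤ R) (h : Dat R e r E F) (hB : ∀ s : ℂ, 3 / 2 ≤ s.re → ‖F s‖ ≤ B)
    (s : ℂ) (h1 : -1 / 2 ≤ s.re) (h2 : s.re ≤ 3 / 2) :
    ‖E s * ((s + 3) ^ (Fintype.card ι + r))⁻¹‖ ≤ B * R := by
  have hB0 : 0 ≤ B := (norm_nonneg _).trans (hB (3 / 2) (by norm_num))
  obtain ⟨M, hM⟩ : ∃ M : ℕ, M = Fintype.card ι + r := ⟨_, rfl⟩
  rw [← hM]
  have hs3 : ∀ z : ℂ, ‖((z + 3) ^ M)⁻¹‖ = (‖z + 3‖ ^ M)⁻¹ := by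
    intro z; rw [norm_inv, norm_pow]
  refine PhragmenLindelof.vertical_strip (f := fun s => E s * ((s + 3) ^ M)⁻¹)
    (a := -1 / 2) (b := 3 / 2) ?_ ?_ ?_ ?_ h1 h2
  · have hdd : DifferentiableOn ℂ (fun s => E s * ((s + 3) ^ M)⁻¹) {z : ℂ | -3 < z.re} := by
      intro z hz
      have hz3 : (z + 3) ^ M ≠ 0 := pow_ne_zero _ (sp3 hz)
      apply DifferentiableAt.differentiableWithinAt
      exact (h.ent z).mul (DifferentiableAt.inv (by fun_prop) hz3)
    apply DifferentiableOn.diffContOnCl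
    apply hdd.mono
    refine (Complex.continuous_re.closure_preimage_subset _).trans ?_
    intro z hz
    have hz' : z.re ∈ closure (Ioo (-1 / 2 : ℝ) (3 / 2)) := hz
    rw [closure_Ioo (by norm_num)] at hz'
    have := hz'.1
    change -3 < z.re
    linarith
  · obtain ⟨C, D, hC, hD, hv⟩ := h.vert
    refine ⟨1, ?_, D, ?_⟩
    · rw [show ((3 : ℝ) / 2 - -1 / 2) = 2 by norm_num]
      linarith [Real.pi_gt_three]
    refine IsBigO.of_bound C ?_
    rw [eventually_inf_principal]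
    have hev : ∀ᶠ z : ℂ in comap (abs ∘ Complex.im) atTop, 2 ≤ |z.im| :=
      (eventually_ge_atTop (2 : ℝ)).comap (abs ∘ Complex.im)
    filter_upwards [hev] with z hz1 hz2
    have hz2' : z.re ∈ Ioo (-1 / 2 : ℝ) (3 / 2) := hz2
    have e2 := hv z hz2'.1.le hz2'.2.le hz1
    have e5 : (‖z + 3‖ ^ M)⁻¹ ≤ 1 :=
      inv_le_one_of_one_le₀ (one_le_pow₀ (one_le_three hz2'.1.le))
    rw [norm_mul, hs3, Real.norm_eq_abs, abs_of_pos (Real.exp_pos _)]
    have e6 : Real.exp (D * |z.im|) ≤ Real.exp (D * Real.exp (1 * |z.im|)) := by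
      apply Real.exp_le_exp.mpr
      apply mul_le_mul_of_nonneg_left _ hD
      rw [one_mul]
      linarith [Real.add_one_le_exp |z.im|]
    calc ‖E z‖ * (‖z + 3‖ ^ M)⁻¹ ≤ (C * Real.exp (D * |z.im|)) * 1 := by gcongr
      _ = C * Real.exp (D * |z.im|) := mul_one _
      _ ≤ C * Real.exp (D * Real.exp (1 * |z.im|)) := by gcongr
  · intro z hz
    have e1 := left_edge (by linarith) h hB z hz
    rw [← hM] at e1
    rw [norm_mul, hs3]
    have e4 : 0 < ‖z + 3‖ ^ M := by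
      have := one_le_three (z := z) (by rw [hz])
      positivity
    rw [← div_eq_mul_inv, div_le_iff₀ e4]
    exact e1
  · intro z hz
    have e1 := hB z (by rw [hz])
    have hz1 : z - 1 ≠ 0 := by
      intro h0
      have := congrArg Complex.re h0
      rw [Complex.sub_re, hz] at this
      norm_num at this
    have e3 : ‖z - 1‖ ≤ ‖z + 3‖ := three_le (by rw [hz]; norm_num)
    have e4 := one_le_three (z := z) (by rw [hz]; norm_num)
    have e5 : 0 < ‖z + 3‖ ^ M := by positivity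
    rw [norm_mul, hs3, h.E_eq hz1, norm_mul, norm_pow, ← div_eq_mul_inv, div_le_iff₀ e5]
    calc ‖z - 1‖ ^ r * ‖F z‖ ≤ ‖z + 3‖ ^ r * B := by gcongr
      _ ≤ ‖z + 3‖ ^ M * B := by
          refine mul_le_mul_of_nonneg_right ?_ hB0
          exact pow_le_pow_right₀ e4 (by omega)
      _ = B * ‖z + 3‖ ^ M := mul_comm _ _
      _ ≤ B * R * ‖z + 3‖ ^ M := by
          refine mul_le_mul_of_nonneg_right ?_ e5.le
          nlinarith

theorem growth (hR : 1 ≤ R) (hB1 : 1 ≤ B) (h : Dat R e r E F)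
    (hB : ∀ s : ℂ, 3 / 2 ≤ s.re → ‖F s‖ ≤ B) (s : ℂ) (h1 : (1 / 16 : ℝ) ≤ s.re) (h3 : 1 ≤ s.im) :
    ‖F s‖ ≤ B * R * 6 ^ (Fintype.card ι + r) * s.im ^ (Fintype.card ι + r) := by
  obtain ⟨M, hM⟩ : ∃ M : ℕ, M = Fintype.card ι + r := ⟨_, rfl⟩
  rw [← hM]
  have hBR : 1 ≤ B * R := by nlinarith
  rcases le_total s.re (3 / 2) with h' | h'
  · have e1 := strip hR h hB s (by linarith) h'
    rw [← hM, norm_mul, norm_inv, norm_pow] at e1
    have e2 : 0 < ‖s + 3‖ ^ M := by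
      have : s + 3 ≠ 0 := sp3 (by linarith)
      positivity
    rw [← div_eq_mul_inv, div_le_iff₀ e2] at e1
    have e3 : ‖s + 3‖ ^ M ≤ (6 * s.im) ^ M := by
      apply pow_le_pow_left₀ (norm_nonneg _)
      refine (norm_le_abs_re_add_abs_im _).trans ?_
      have hre' : (s + 3).re = s.re + 3 := by simp
      have him' : (s + 3).im = s.im := by simp
      rw [hre', him', abs_of_nonneg (by linarith), abs_of_nonneg (by linarith)]
      linarith
    have e4 : 1 ≤ ‖(s - 1) ^ r‖ := by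
      rw [norm_pow]
      apply one_le_pow₀
      have h5 := (le_abs_self _).trans (Complex.abs_im_le_norm (s - 1))
      have h6 : (s - 1).im = s.im := by simp
      rw [h6] at h5
      linarith
    have e5 : ‖F s‖ ≤ ‖E s‖ := by
      rw [h.hF s, norm_div]
      exact div_le_self (norm_nonneg _) e4
    calc ‖F s‖ ≤ ‖E s‖ := e5
      _ ≤ B * R * ‖s + 3‖ ^ M := e1
      _ ≤ B * R * (6 * s.im) ^ M := by gcongr
      _ = B * R * 6 ^ M * s.im ^ M := by rw [mul_pow]; ring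
  · have e1 := hB s h'
    have e2 : 1 ≤ s.im ^ M := one_le_pow₀ h3
    have e3 : (1 : ℝ) ≤ 6 ^ M := one_le_pow₀ (by norm_num)
    calc ‖F s‖ ≤ B := e1
      _ = B * 1 * 1 * 1 := by ring
      _ ≤ B * R * 6 ^ M * s.im ^ M := by gcongr

theorem left_est {C : ℝ} (hC : ∀ z : ℂ, -1 / 2 ≤ z.re → z.re ≤ 6 → 1 ≤ |z.im| →
    ‖logDeriv Gammaℝ z - 1 / 2 * Real.log |z.im|‖ ≤ C) (hR : 1 ≤ R) (h : Dat R e r E F)
    (s : ℂ) (h1 : -3 / 4 ≤ s.re) (h2 : s.re ≤ 1 / 2) (h3 : 1 ≤ s.im) (h4 : F s ≠ 0) :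
    ‖deriv F s / F s + (((Fintype.card ι : ℝ) * Real.log s.im : ℝ) : ℂ) +
        (starRingEnd ℂ) (deriv F (1 - (starRingEnd ℂ) s) / F (1 - (starRingEnd ℂ) s))‖ ≤
      Real.log R + Fintype.card ι * (C + 1) + Fintype.card ι * (C + 1) := by
  set d := Fintype.card ι with hd
  have hs : s.im ≠ 0 := by linarith
  have hGd : Gd (nu ι) s := Gd0 hs
  have hR0 : 0 < R := by linarith
  obtain ⟨w, hw, hfe⟩ := h.fe
  have hw0 : w ≠ 0 := by
    intro h
    rw [h, norm_zero] at hw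
    exact zero_ne_one hw
  have hs' : (1 - (starRingEnd ℂ) s).im ≠ 0 := by rw [im_osc]; exact hs
  have ha : AnalyticAt ℂ F (1 - (starRingEnd ℂ) s) := h.an (sub_one_ne hs')
  have e1 : F =ᶠ[𝓝 s] fun z => LX w R e (nu ι) z * refl F z := by
    filter_upwards [eventually_im_ne hs] with z hz
    exact hfe z hz
  have hr : refl F s ≠ 0 := by
    intro h
    apply h4
    rw [hfe s hs, h, mul_zero]
  have e2 : logDeriv F s = logDeriv (LX w R e (nu ι)) s + logDeriv (refl F) s := by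
    rw [(logDeriv_congr_nhds e1).eq_of_nhds]
    exact logDeriv_mul s (LX_ne hw0 hR0 e hGd) hr (LX_an w hR0 e hGd).differentiableAt
      (analyticAt_refl ha).differentiableAt
  rw [logDeriv_refl ha.differentiableAt, logDeriv_LX hw0 hR0 e hGd] at e2
  change ‖logDeriv F s + (((d : ℝ) * Real.log s.im : ℝ) : ℂ) +
    (starRingEnd ℂ) (logDeriv F (1 - (starRingEnd ℂ) s))‖ ≤ _
  rw [e2]
  have i1 : |(1 - s).im + -(0 : ℝ)| = s.im := by
    have : (1 - s).im = -s.im := by simp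
    rw [this, neg_zero, add_zero, abs_neg, abs_of_nonneg (by linarith)]
  have i2 : |s.im + (0 : ℝ)| = s.im := by rw [add_zero, abs_of_nonneg (by linarith)]
  have b1 := GGn_est hC hR0 h.he (ν := fun i => -(nu ι i)) (s := 1 - s) (by simp; linarith)
    (by simp; linarith) (fun i => by show 1 ≤ |(1 - s).im + -(0 : ℝ)|; rw [i1]; exact h3)
  have b2 := GGn_est hC hR0 h.he (ν := nu ι) (s := s) h1 (by linarith)
    (fun i => by show 1 ≤ |s.im + (0 : ℝ)|; rw [i2]; exact h3)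
  simp only [nu, i1] at b1
  simp only [nu, i2] at b2
  rw [Finset.sum_const, Finset.card_univ, nsmul_eq_mul, ← hd] at b1 b2
  simp only [nu]
  set G1 := logDeriv (GGn R e fun i => -(0 : ℝ)) (1 - s) with hG1
  set G2 := logDeriv (GGn R e fun i => (0 : ℝ)) s with hG2
  have e3 : -G1 - G2 + -(starRingEnd ℂ) (logDeriv F (1 - (starRingEnd ℂ) s)) +
        (((d : ℝ) * Real.log s.im : ℝ) : ℂ) +
      (starRingEnd ℂ) (logDeriv F (1 - (starRingEnd ℂ) s)) =
      -((Real.log R : ℝ) : ℂ) -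
        (G1 - ((Real.log R / 2 + (d : ℝ) * (1 / 2 * Real.log s.im) : ℝ) : ℂ)) -
      (G2 - ((Real.log R / 2 + (d : ℝ) * (1 / 2 * Real.log s.im) : ℝ) : ℂ)) := by
    push_cast
    ring
  rw [e3]
  refine (norm_sub_le _ _).trans ?_
  have n1 := norm_sub_le (-((Real.log R : ℝ) : ℂ))
    (G1 - ((Real.log R / 2 + (d : ℝ) * (1 / 2 * Real.log s.im) : ℝ) : ℂ))
  rw [norm_neg, Complex.norm_real, Real.norm_of_nonneg (Real.log_nonneg hR)] at n1
  linarith

theorem symm (hR : 0 < R) (h : Dat R e r E F) {s : ℂ} (h3 : s.im ≠ 0) :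
    analyticOrderAt F (1 - (starRingEnd ℂ) s) = analyticOrderAt F s := by
  obtain ⟨w, hw, hfe⟩ := h.fe
  have hw0 : w ≠ 0 := by
    intro h
    rw [h, norm_zero] at hw
    exact zero_ne_one hw
  have hs' : (1 - (starRingEnd ℂ) s).im ≠ 0 := by rw [im_osc]; exact h3
  have ha : AnalyticAt ℂ F (1 - (starRingEnd ℂ) s) := h.an (sub_one_ne hs')
  have h1 : F =ᶠ[𝓝 s] (LX w R e (nu ι)) * refl F := by
    filter_upwards [eventually_im_ne h3] with z hz
    exact hfe z hz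
  have hX := LX_an w hR e (Gd0 (ι := ι) h3)
  rw [analyticOrderAt_congr h1, analyticOrderAt_mul hX (analyticAt_refl ha),
    hX.analyticOrderAt_eq_zero.mpr (LX_ne hw0 hR e (Gd0 h3)), zero_add, order_refl ha]

theorem nzl (hR : 0 < R) (h : Dat R e r E F)
    (hnz : ∀ s : ℂ, 1 ≤ s.re → 1 ≤ s.im → F s ≠ 0) (s : ℂ) (h1 : s.re ≤ 0) (h3 : 1 ≤ s.im) :
    F s ≠ 0 := by
  obtain ⟨w, hw, hfe⟩ := h.fe
  have hw0 : w ≠ 0 := by
    intro h
    rw [h, norm_zero] at hw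
    exact zero_ne_one hw
  have hs : s.im ≠ 0 := by linarith
  rw [hfe s hs]
  refine mul_ne_zero (LX_ne hw0 hR e (Gd0 hs)) ?_
  unfold H370.DL.refl
  rw [map_ne_zero]
  apply hnz
  · rw [re_osc]; linarith
  · rw [im_osc]; exact h3

end analytic

section gi

variable {ι : Type} [Fintype ι]

/-- the entire function `1 / (R^(s/2) ∏ Γ_ℝ(s + e_i))` -/
noncomputable def Gi (R : ℝ) (e : ι → ℕ) (s : ℂ) : ℂ :=
  (R : ℂ) ^ (-(s / 2)) * ∏ i, (Gammaℝ (s + e i))⁻¹

lemma Gi_diff {R : ℝ} (hR : 0 < R) (e : ι → ℕ) : Differentiable ℂ (Gi R e) := by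
  have hR' : (R : ℂ) ≠ 0 := by exact_mod_cast hR.ne'
  have h1 : Differentiable ℂ (fun s : ℂ => (R : ℂ) ^ (-(s / 2))) := fun s =>
    DifferentiableAt.const_cpow (by fun_prop) (Or.inl hR')
  have h2 : Differentiable ℂ (fun s : ℂ => ∏ i, (Gammaℝ (s + e i))⁻¹) := by
    refine Differentiable.fun_finsetProd fun i _ => ?_
    exact Complex.differentiable_Gammaℝ_inv.comp (differentiable_id.add_const _)
  exact h1.mul h2

lemma Gi_eq (R : ℝ) (e : ι → ℕ) (s : ℂ) : Gi R e s = (GGn R e (nu ι) s)⁻¹ := by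
  unfold Gi GGn
  rw [mul_inv, Complex.cpow_neg, ← Finset.prod_inv_distrib]
  congr 1
  refine Finset.prod_congr rfl fun i _ => ?_
  simp [nu]

lemma GGn_eq (R : ℝ) (e : ι → ℕ) (s : ℂ) :
    GGn R e (nu ι) s = (R : ℂ) ^ (s / 2) * ∏ i, Gammaℝ (s + e i) := by
  unfold GGn
  simp [nu]

lemma GGn_ne' {R : ℝ} (hR : 0 < R) (e : ι → ℕ) {s : ℂ} (hs : 0 < s.re) :
    GGn R e (nu ι) s ≠ 0 := by
  rw [GGn_eq]
  refine mul_ne_zero ?_ (Finset.prod_ne_zero_iff.2 fun i _ => ?_)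
  · rw [Ne, Complex.cpow_eq_zero_iff]
    rintro ⟨h, -⟩
    exact hR.ne' (by exact_mod_cast h)
  · apply Complex.Gammaℝ_ne_zero_of_re_pos
    rw [Complex.add_re, Complex.natCast_re]
    have : (0 : ℝ) ≤ e i := Nat.cast_nonneg _
    linarith

lemma Gi_zero {R : ℝ} {e : ι → ℕ} {i : ι} (hi : e i = 0) : Gi R e 0 = 0 := by
  unfold Gi
  rw [Finset.prod_eq_zero (Finset.mem_univ i), mul_zero]
  rw [hi, Nat.cast_zero, add_zero, Complex.Gammaℝ_def, zero_div, Complex.Gamma_zero, mul_zero,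
    inv_zero]

/-- removal of the singularity at `0` -/
lemma exists_E {Y : ℂ → ℂ} (hY : Differentiable ℂ Y) {r : ℕ} (hr : r ≤ 1) (h0 : r = 1 → Y 0 = 0) :
    ∃ E : ℂ → ℂ, Differentiable ℂ E ∧ ∀ s : ℂ, s ≠ 0 → E s * s ^ r = Y s := by
  rcases Nat.le_one_iff_eq_zero_or_eq_one.1 hr with rfl | rfl
  · exact ⟨Y, hY, fun s _ => by rw [pow_zero, mul_one]⟩
  · refine ⟨dslope Y 0, ?_, fun s hs => ?_⟩
    · have h1 := (Complex.differentiableOn_dslope (s := univ) (c := (0 : ℂ)) (f := Y)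
        Filter.univ_mem).2 hY.differentiableOn
      exact differentiableOn_univ.1 h1
    · rw [dslope_of_ne _ hs, slope_def_field, h0 rfl, sub_zero, sub_zero, pow_one]
      field_simp

/-- the data from a completed function -/
theorem dat_of {R : ℝ} (hR : 1 ≤ R) {e : ι → ℕ} (he : ∀ i, e i ≤ 1) {r : ℕ} {X E F : ℂ → ℂ}
    {w : ℂ} (hw : ‖w‖ = 1)
    (hX : ∀ s : ℂ, X s = w * (starRingEnd ℂ) (X (1 - (starRingEnd ℂ) s)))
    (hst : ∃ C : ℝ, 0 ≤ C ∧ ∀ s : ℂ, -1 / 2 ≤ s.re → s.re ≤ 3 / 2 → ‖X s‖ ≤ C * (1 + ‖s‖) ^ 2)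
    (hE : Differentiable ℂ E) (hEX : ∀ s : ℂ, s ≠ 0 → E s * s ^ r = X s * Gi R e s)
    (hF : ∀ s : ℂ, F s = E s / (s - 1) ^ r) : Dat R e r E F := by
  have hR0 : 0 < R := by linarith
  have hz0 : ∀ z : ℂ, z.im ≠ 0 → z ≠ 0 := by
    rintro z hz rfl
    exact hz rfl
  have key : ∀ z : ℂ, z.im ≠ 0 → X z = (z * (z - 1)) ^ r * (GGn R e (nu ι) z * F z) := by
    intro z hz
    have h1 := hEX z (hz0 z hz)
    have h2 := sub_one_ne hz
    have h3 := GGn_ne hR0 e (Gd0 (ι := ι) hz)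
    rw [Gi_eq] at h1
    have h4 : E z = F z * (z - 1) ^ r := by
      rw [hF z]
      have := pow_ne_zero r h2
      field_simp
    have h5 : X z = E z * z ^ r * GGn R e (nu ι) z := by
      rw [h1]
      field_simp
    rw [h5, h4, mul_pow]
    ring
  refine ⟨he, hE, hF, ⟨w, hw, fun s hs => ?_⟩, ?_⟩
  · have hs' : (1 - (starRingEnd ℂ) s).im ≠ 0 := by rw [im_osc]; exact hs
    have h1 := hX s
    rw [key s hs, key _ hs', map_mul, map_pow, map_mul, map_mul, conj_GGn hR0] at h1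
    have e1 : (starRingEnd ℂ) (1 - (starRingEnd ℂ) s) = 1 - s := by simp
    have e2 : (starRingEnd ℂ) (1 - (starRingEnd ℂ) s - 1) = -s := by simp
    rw [e1, e2] at h1
    have e3 : (1 - s) * -s = s * (s - 1) := by ring
    rw [e3] at h1
    have e4 : (s * (s - 1)) ^ r ≠ 0 := pow_ne_zero _ (mul_ne_zero (hz0 s hs) (sub_one_ne hs))
    have h2 : GGn R e (nu ι) s * F s = w * (GGn R e (fun i => -(nu ι i)) (1 - s) *
        (starRingEnd ℂ) (F (1 - (starRingEnd ℂ) s))) := by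
      apply mul_left_cancel₀ e4
      rw [h1]
      ring
    have hg := GGn_ne hR0 e (Gd0 (ι := ι) hs)
    unfold LX H370.DL.refl
    field_simp
    linear_combination h2
  · obtain ⟨C, hC, hC1⟩ := hst
    obtain ⟨M, hM0, hM⟩ := inv_GGn_le hR0 he (V := 0) (ν := nu ι) (fun i => by simp)
    refine ⟨C * (25 / 4) * M, Fintype.card ι * Real.pi + 2, by positivity, by positivity, ?_⟩
    intro s h1 h2 h3
    have hs : s.im ≠ 0 := by
      intro h
      rw [h, abs_zero] at h3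
      linarith
    have e1 := hEX s (hz0 s hs)
    have e2 := hM s h1 h2 (by linarith)
    have e3 := hC1 s h1 h2
    have e4 : 1 ≤ ‖s ^ r‖ := by
      rw [norm_pow]
      exact one_le_pow₀ (by linarith [Complex.abs_im_le_norm s])
    have e5 : ‖E s‖ ≤ ‖X s‖ * ‖(GGn R e (nu ι) s)⁻¹‖ := by
      rw [← Gi_eq, ← norm_mul, ← e1, norm_mul]
      exact le_mul_of_one_le_right (norm_nonneg _) e4
    have e6 : (1 + ‖s‖) ^ 2 ≤ 25 / 4 * Real.exp (2 * |s.im|) := by
      have h4 : ‖s‖ ≤ 3 / 2 + |s.im| := by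
        refine (norm_le_abs_re_add_abs_im _).trans ?_
        have : |s.re| ≤ 3 / 2 := abs_le.2 ⟨by linarith, h2⟩
        linarith
      have h5 := Real.add_one_le_exp |s.im|
      have h6 : 1 + ‖s‖ ≤ 5 / 2 * Real.exp |s.im| := by
        have := abs_nonneg s.im
        linarith
      calc (1 + ‖s‖) ^ 2 ≤ (5 / 2 * Real.exp |s.im|) ^ 2 := by
            apply pow_le_pow_left₀ (by positivity) h6
        _ = 25 / 4 * Real.exp (2 * |s.im|) := by
            rw [mul_pow, ← Real.exp_nat_mul]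
            norm_num
    calc ‖E s‖ ≤ ‖X s‖ * ‖(GGn R e (nu ι) s)⁻¹‖ := e5
      _ ≤ (C * (25 / 4 * Real.exp (2 * |s.im|))) *
          (M * Real.exp (Fintype.card ι * Real.pi * |s.im|)) := by
          refine mul_le_mul ?_ e2 (norm_nonneg _) (by positivity)
          exact e3.trans (mul_le_mul_of_nonneg_left e6 hC)
      _ = C * (25 / 4) * M * Real.exp ((Fintype.card ι * Real.pi + 2) * |s.im|) := by
          rw [add_mul, Real.exp_add]
          ring

end gi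

section nf

open Pool.Agent.R362.HL (IsRay rayPole rayCond signs signs_eq HXi rayPole_le)
open Pool.Agent.Y773 (LI)
open Pool.Agent.N964.GX (IsLF S_fe1)

variable {K : Type} [Field K] [NumberField K]

/-- the trivial character has no signs -/
lemma e_zero {e : InfinitePlace K → ℕ} {ψ : Ideal (𝓞 K) →*₀ ℂ} (h : IsRay ⊤ e ψ)
    (h1 : ∀ 𝔞 : Ideal (𝓞 K), 𝔞 ≠ ⊥ → ψ 𝔞 = 1) (w : InfinitePlace K) : e w = 0 := by
  classical
  rcases Pool.Agent.Y772.G.isReal_or w with hw | hw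
  swap
  · exact h.cpx w hw
  obtain ⟨x, hx0, -, hx1, hx2⟩ := Pool.Agent.Y772.G.exists_neg (K := K) (𝔣 := ⊤) h.ne_bot w
  have e1 := h.sig x hx0 trivial
  rw [h1 _ (by rw [Ne, Ideal.span_singleton_eq_bot]; exact hx0), signs_eq h.cpx] at e1
  unfold Pool.Agent.Y773.G.sg at e1
  rw [Finset.prod_eq_single w] at e1
  · rw [sign_neg (hx1 hw)] at e1
    rcases Nat.le_one_iff_eq_zero_or_eq_one.1 (h.sig_le w) with h2 | h2
    · exact h2
    · rw [h2] at e1
      norm_num at e1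
  · intro b _ hb
    rw [sign_pos (hx2 b fun _ => hb)]
    simp
  · intro hh
    exact absurd (Finset.mem_univ w) hh

lemma ex_zero {e : InfinitePlace K → ℕ} (he : ∀ w, e w = 0) : ∃ φ : K →+* ℂ, ex e φ = 0 := by
  obtain ⟨w⟩ : Nonempty (InfinitePlace K) := inferInstance
  refine ⟨w.embedding, ?_⟩
  unfold ex
  split_ifs with h1 h2
  · exact he _
  · rfl
  · exact absurd (by rw [InfinitePlace.mk_embedding]) h2

lemma ex_le {e : InfinitePlace K → ℕ} (he : ∀ w, e w ≤ 1) (φ : K →+* ℂ) : ex e φ ≤ 1 := by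
  unfold ex
  split_ifs
  · exact he _
  · exact zero_le_one
  · exact le_rfl

end nf

open Pool.Agent.R362.HL (IsRay rayPole rayCond signs signs_eq HXi rayPole_le) in
open Pool.Agent.Y773 (LI) in
open Pool.Agent.N964.GX (IsLF S_fe1) in
/-- GX/Q4a -/
theorem fe1 : S_fe1 := by
  intro K _ _ e ψ h
  obtain ⟨hψ, X, hX⟩ := h.xi
  obtain ⟨A', hA', hd⟩ := Pool.Agent.Y772.DK.t_dirK K
  obtain ⟨-, -, -, -, hbd, -⟩ := hd ψ hψ
  obtain ⟨C, hC0, hC⟩ := logDeriv_Gammaℝ_bound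
  have hr := rayPole_le ψ
  obtain ⟨R, hRdef⟩ : ∃ R : ℝ, R = rayCond (K := K) ⊤ := ⟨_, rfl⟩
  obtain ⟨r, hrdef⟩ : ∃ r : ℕ, r = rayPole ψ := ⟨_, rfl⟩
  rw [← hRdef, ← hrdef] at hX
  rw [← hrdef] at hr
  have hR : 1 ≤ R := hX.one_le
  have hR0 : 0 < R := by linarith
  obtain ⟨w, hw, hfe⟩ := hX.fe
  have hw0 : w ≠ 0 := by
    intro h
    rw [h, norm_zero] at hw
    exact zero_ne_one hw
  -- the entire function
  obtain ⟨E, hE, hEX⟩ := exists_E (Y := fun s => X s * Gi R (ex e) s)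
    (hX.diff.mul (Gi_diff hR0 (ex e))) hr (by
      intro h1
      have h2 : ∀ 𝔞 : Ideal (𝓞 K), 𝔞 ≠ ⊥ → ψ 𝔞 = 1 := by
        by_contra h3
        rw [hrdef] at h1
        unfold Pool.Agent.R362.HL.rayPole at h1
        rw [if_neg h3] at h1
        exact zero_ne_one h1
      obtain ⟨φ, hφ⟩ := ex_zero (K := K) (e := e) (e_zero h h2)
      show X 0 * Gi R (ex e) 0 = 0
      rw [Gi_zero hφ, mul_zero])
  obtain ⟨F, hF⟩ : ∃ F : ℂ → ℂ, ∀ s : ℂ, F s = E s / (s - 1) ^ r := ⟨_, fun _ => rfl⟩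
  have hD : Dat R (ex e) r E F := dat_of hR (ex_le h.sig_le) hw hfe (hX.strip _ _) hE hEX hF
  have hLI : ∀ s : ℂ, 1 < s.re → F s = LI ψ s := by
    intro s hs
    have hs0 : s ≠ 0 := by
      rintro rfl
      norm_num at hs
    have hs1 : s - 1 ≠ 0 := by
      intro h0
      have := congrArg Complex.re h0
      rw [Complex.sub_re, Complex.one_re, Complex.zero_re] at this
      linarith
    have h1 := hEX s hs0
    have h3 := GGn_ne' hR0 (ex e) (s := s) (by linarith)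
    replace h1 : E s * s ^ r = X s * Gi R (ex e) s := h1
    rw [Gi_eq, hX.eq s hs, ← GGn_eq] at h1
    have h4 := pow_ne_zero r hs0
    have h5 := pow_ne_zero r hs1
    have h6 : E s = (s - 1) ^ r * LI ψ s := by
      apply mul_right_cancel₀ h4
      rw [h1, mul_pow]
      field_simp
    rw [hF s, h6]
    field_simp
  have hB : ∀ s : ℂ, 3 / 2 ≤ s.re → ‖F s‖ ≤ A' := by
    intro s hs
    rw [hLI s (by linarith)]
    exact hbd s hs
  have hcard : Fintype.card (K →+* ℂ) = Module.finrank ℚ K := NumberField.Embeddings.card K ℂ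
  obtain ⟨d, hd'⟩ : ∃ d : ℕ, d = Module.finrank ℚ K := ⟨_, rfl⟩
  rw [← hd'] at hcard
  have hl0 : 0 ≤ Real.log R := Real.log_nonneg hR
  have hc1 : 1 ≤ A' * R * 6 ^ (d + r) := by
    have h5 : (1 : ℝ) ≤ 6 ^ (d + r) := one_le_pow₀ (by norm_num)
    calc (1 : ℝ) = 1 * 1 * 1 := by ring
      _ ≤ A' * R * 6 ^ (d + r) := by gcongr
  have hdC : 0 ≤ (d : ℝ) * (C + 1) := mul_nonneg (Nat.cast_nonneg _) (by linarith)
  refine ⟨((d + r : ℕ) : ℝ) + A' * R * 6 ^ (d + r) +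
    (Real.log R + d * (C + 1) + d * (C + 1)), E, F, ?_, ⟨hE, ?_, hLI⟩, ?_, ?_, ?_, ?_, ?_⟩
  · have : (0 : ℝ) ≤ ((d + r : ℕ) : ℝ) := Nat.cast_nonneg _
    linarith
  · intro s hs
    rw [← hrdef]
    exact hD.E_eq (sub_ne_zero.2 hs)
  · intro s h1 _ h3
    have h4 := growth hR hA' hD hB s h1 h3
    rw [hcard] at h4
    refine h4.trans ?_
    have h5 : (0 : ℝ) ≤ ((d + r : ℕ) : ℝ) := Nat.cast_nonneg _
    refine mul_le_mul (by linarith) ?_ (by positivity) (by linarith)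
    rw [← Real.rpow_natCast]
    exact Real.rpow_le_rpow_of_exponent_le h3 (by linarith)
  · intro hnz s h1 h3
    exact nzl hR0 hD hnz s h1 h3
  · intro s _ _ h3
    exact symm hR0 hD (by linarith)
  · intro s h1 h2 h3 h4
    have h5 := left_est hC hR hD s h1 h2 h3 h4
    rw [hcard] at h5
    rw [← hd']
    have : (0 : ℝ) ≤ ((d + r : ℕ) : ℝ) := Nat.cast_nonneg _
    linarith
  · intro s h1 h2 h3
    have hs0 : s ≠ 0 := by
      rintro rfl
      exact lt_irrefl _ h1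
    have hs1 : s - 1 ≠ 0 := by
      intro h0
      have := congrArg Complex.re h0
      rw [Complex.sub_re, Complex.one_re, Complex.zero_re] at this
      linarith
    have hs0' : 1 - (starRingEnd ℂ) s ≠ 0 := by
      intro h0
      have := congrArg Complex.re h0
      rw [re_osc, Complex.zero_re] at this
      linarith
    have h4 : E s = 0 := by
      rw [hD.E_eq hs1, h3, mul_zero]
    have h5 : E s * s ^ r = X s * Gi R (ex e) s := hEX s hs0
    rw [h4, zero_mul, Gi_eq] at h5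
    have h6 : X s = 0 :=
      (mul_eq_zero.1 h5.symm).resolve_right (inv_ne_zero (GGn_ne' hR0 (ex e) h1))
    rw [hfe s] at h6
    have h7 := (mul_eq_zero.1 h6).resolve_left hw0
    rw [map_eq_zero] at h7
    have h8 : E (1 - (starRingEnd ℂ) s) * (1 - (starRingEnd ℂ) s) ^ r =
        X (1 - (starRingEnd ℂ) s) * Gi R (ex e) (1 - (starRingEnd ℂ) s) := hEX _ hs0'
    rw [h7, zero_mul] at h8
    have h9 := (mul_eq_zero.1 h8).resolve_right (pow_ne_zero r hs0')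
    rw [hF, h9, zero_div]

end Pool.Agent.N558.GXF
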