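import Mathlib
import Pool.Agent.N558.Final

/-!
# The parity step
-/

set_option autoImplicit false

namespace Pool.Agent.N558

open Module Matrix LaurentPolynomial Pool.Agent.R799

section

variable {ι : Type} [Fintype ι] [DecidableEq ι]

lemma el_mul_left (b : ι) (w : ι → Lam) (X : Matrix ι ι Lam) (i j : ι) :
    (el b w * X) i j = X i j + w i * X b j := by
  unfold el
  rw [Matrix.add_mul, Matrix.one_mul, Matrix.vecMulVec_mul, Matrix.add_apply,
    Matrix.vecMulVec_apply, Matrix.single_vecMul, one_smul]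
  rfl

lemma mul_conj_el (b : ι) (w : ι → Lam) (X : Matrix ι ι Lam) (i j : ι) :
    (X * conjT (el b w)) i j = X i j + X i b * bar (w j) := by
  have h1 : X * conjT (el b w) = conjT (el b w * conjT X) := by
    rw [conjT_mul, conjT_conjT]
  rw [h1, conjT_apply, el_mul_left, map_add, map_mul, conjT_apply, conjT_apply, bar_bar, bar_bar]
  ring

lemma det_el (b : ι) (w : ι → Lam) (hw : w b = 0) : (el b w).det = 1 := by
  have : el b w = (1 : Matrix ι ι Lam) + Matrix.vecMulVec w (Pi.single b 1) := rfl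
  rw [this, Matrix.vecMulVec_eq Unit, Matrix.det_one_add_replicateCol_mul_replicateRow,
    single_dotProduct, hw]
  simp

lemma adj_el (b : ι) (w : ι → Lam) (hw : w b = 0) : (el b w).adjugate = el b (-w) := by
  have h1 : el b w * el b (-w) = 1 := by
    rw [el_mul b w (-w) (by simp [hw]), add_neg_cancel, el_zero]
  calc (el b w).adjugate = (el b w).adjugate * (el b w * el b (-w)) := by rw [h1, Matrix.mul_one]
    _ = ((el b w).adjugate * el b w) * el b (-w) := by rw [Matrix.mul_assoc]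
    _ = el b (-w) := by rw [Matrix.adjugate_mul, det_el b w hw, one_smul, Matrix.one_mul]

end

lemma evm_mod2 (x : Lam) : ∃ k : ℤ, evm x = ev1 x + 2 * k := by
  obtain ⟨y, hy⟩ := root_dvd 1 (x - (ev1 x : Lam)) (by
    rw [map_sub, map_intCast]
    exact sub_self _)
  refine ⟨-evm y, ?_⟩
  have h1 := congrArg evm hy
  rw [map_sub, map_mul, map_sub, evm_T1, map_intCast] at h1
  have h2 : evm (C ((1 : ℤˣ) : ℤ) : Lam) = 1 := by
    simp
  rw [h2] at h1
  have h3 : ((ev1 x : ℤ) : ℤ) = ev1 x := rfl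
  simp only [Int.cast_id] at h1
  linear_combination h1

lemma zmod4 : ∀ B e b α : ZMod 4, (B = 1 ∨ B = 3) → ∃ J : ZMod 4,
    b + J * B + 2 * J ^ 2 * e = 2 * α := by decide

lemma arith4 (D B e b α : ℤ) (hD : Odd D) (hB : Odd B) :
    ∃ J m : ℤ, D * (b + J * B + 2 * J ^ 2 * e) = 2 * α + 4 * m := by
  obtain ⟨k, hk⟩ := hB
  have hB' : (B : ZMod 4) = 1 ∨ (B : ZMod 4) = 3 := by
    rcases Int.even_or_odd k with ⟨l, hl⟩ | ⟨l, hl⟩
    · left
      rw [hk, hl]
      have h4 : (4 : ZMod 4) = 0 := by decide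
      push_cast
      linear_combination (l : ZMod 4) * h4
    · right
      rw [hk, hl]
      have h4 : (4 : ZMod 4) = 0 := by decide
      push_cast
      linear_combination (l : ZMod 4) * h4
  obtain ⟨J, hJ⟩ := zmod4 B e b α hB'
  have h1 : (((b + (J.val : ℤ) * B + 2 * (J.val : ℤ) ^ 2 * e - 2 * α : ℤ)) : ZMod 4) = 0 := by
    push_cast
    rw [ZMod.natCast_zmod_val]
    linear_combination hJ
  have h2 := (ZMod.intCast_zmod_eq_zero_iff_dvd _ 4).mp h1
  obtain ⟨m, hm⟩ := h2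
  push_cast at hm
  obtain ⟨d, hd⟩ := hD
  refine ⟨J.val, D * m + α * d, ?_⟩
  rw [hd]
  rw [hd] at *
  linear_combination (2 * d + 1) * hm

theorem par_final {N : ℕ} (A : Matrix (Fin (N + 2)) (Fin (N + 2)) Lam)
    (hA : conjT A = A) (ε : ℤ) (hε : ev1 A.det = ε) (hε2 : ε * ε = 1)
    (heven : ∀ y : Fin (N + 2) → ℤ, Even (y ⬝ᵥ (atOne A *ᵥ y))) (x₀ : Fin (N + 2) → ℤ)
    (hx : ∀ p : ℕ, p.Prime → ¬ ∀ i, (p : ℤ) ∣ x₀ i) (t : ℤ)
    (ht : x₀ ⬝ᵥ (atOne A *ᵥ x₀) = 4 * t)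
    (hN : 1 ≤ N ∨ x₀ ⬝ᵥ (atOne A *ᵥ x₀) = 0) :
    ∃ A' : Matrix (Fin (N + 2)) (Fin (N + 2)) Lam, conjT A' = A' ∧ A'.det = A.det ∧
      IsometricPairings A (toOm A)⁻¹ A' (toOm A')⁻¹ ∧
      ∃ y : Fin (N + 2) → ℤ, Odd (y ⬝ᵥ (atOne A' *ᵥ y)) := by
  have hD : A.det ≠ 0 := by
    intro h
    rw [h, map_zero] at hε
    rw [← hε] at hε2
    norm_num at hε2
  have h01 : (0 : Fin (N + 2)) ≠ 1 := by
    intro h
    have := congrArg Fin.val h
    simp at this
  have hεo : Odd ε := by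
    have : ε = 1 ∨ ε = -1 := by
      have : (ε - 1) * (ε + 1) = 0 := by linear_combination hε2
      rcases mul_eq_zero.mp this with h | h
      · left; linear_combination h
      · right; linear_combination h
    rcases this with h | h <;> rw [h]
    · exact odd_one
    · exact ⟨-1, by norm_num⟩
  have hs := herm_at A hA
  have hMdet : (atOne A).det = ε := by rw [atOne_det, hε]
  obtain ⟨P, Q, hPQ, hQP, c₀, hxc, hc1, hadj⟩ := base_change (atOne A) hs ε hMdet hε2 x₀ hx hN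
  obtain ⟨A₂, hA₂, hd₂, hiso, hat⟩ := base_lam A hA hD P Q hPQ hQP
  rw [← hat] at hadj
  have hε' : ev1 A₂.det = ε := by rw [hd₂, hε]
  have hM₂det : (atOne A₂).det = ε := by rw [atOne_det, hε']
  have hcol : (fun i => (atOne A₂).adjugate i 0) = c₀ := funext hadj
  have hMc : (atOne A₂) *ᵥ c₀ = ε • (Pi.single 0 1 : Fin (N + 2) → ℤ) := by
    have h1 : c₀ = (atOne A₂).adjugate *ᵥ Pi.single 0 1 := by
      rw [← hcol, Matrix.mulVec_single_one]; rfl
    rw [h1, Matrix.mulVec_mulVec, Matrix.mul_adjugate, Matrix.smul_mulVec, Matrix.one_mulVec,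
      hM₂det]
  have heven₂ : ∀ y : Fin (N + 2) → ℤ, Even (y ⬝ᵥ (atOne A₂ *ᵥ y)) := by
    intro y
    have h1 : y ⬝ᵥ (atOne A₂ *ᵥ y) = (P *ᵥ y) ⬝ᵥ (atOne A *ᵥ (P *ᵥ y)) := by
      rw [hat, ← Matrix.mulVec_mulVec, ← Matrix.mulVec_mulVec, Matrix.dotProduct_mulVec y,
        Matrix.vecMul_transpose]
    rw [h1]; exact heven _
  have hc0 : ε * c₀ 0 = 4 * t := by
    have h1 : x₀ ⬝ᵥ (atOne A *ᵥ x₀) = c₀ ⬝ᵥ (atOne A₂ *ᵥ c₀) := by
      rw [hat, ← Matrix.mulVec_mulVec, ← Matrix.mulVec_mulVec, ← hxc,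
        Matrix.dotProduct_mulVec c₀, Matrix.vecMul_transpose, ← hxc]
    rw [ht, hMc, dotProduct_smul, dotProduct_single_one, smul_eq_mul] at h1
    exact h1.symm
  -- values at `-1`
  set α₀ := -t - 1 with hα₀
  have hadj1 : ∀ i j, ev1 (A₂.adjugate i j) = (atOne A₂).adjugate i j := by
    intro i j; rw [← atOne_adjugate]; rfl
  have hQh : ∀ i j, A₂.adjugate i j = bar (A₂.adjugate j i) := herm_apply (herm_adj hA₂)
  obtain ⟨k₁, hk₁⟩ := sym_mod4 A₂.det (bar_det hA₂)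
  obtain ⟨k₂, hk₂⟩ := sym_mod4 (A₂.adjugate 0 0) (hQh 0 0).symm
  obtain ⟨k₃, hk₃⟩ := evm_mod2 (A₂.adjugate 1 0)
  obtain ⟨k₄, hk₄⟩ := sym_mod4 (A₂.adjugate 1 1) (hQh 1 1).symm
  have hk01 : evm (A₂.adjugate 0 1) = evm (A₂.adjugate 1 0) := by rw [hQh 0 1, evm_bar]
  obtain ⟨e, he⟩ : ∃ e, (atOne A₂).adjugate 1 1 = 2 * e := by
    have h1 : (atOne A₂) *ᵥ (fun i => (atOne A₂).adjugate i 1) =
        ε • (Pi.single 1 1 : Fin (N + 2) → ℤ) := by
      have h2 : (fun i => (atOne A₂).adjugate i 1) = (atOne A₂).adjugate *ᵥ Pi.single 1 1 := by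
        rw [Matrix.mulVec_single_one]; rfl
      rw [h2, Matrix.mulVec_mulVec, Matrix.mul_adjugate, Matrix.smul_mulVec, Matrix.one_mulVec,
        hM₂det]
    obtain ⟨r, hr⟩ := heven₂ (fun i => (atOne A₂).adjugate i 1)
    rw [h1, dotProduct_smul, dotProduct_single_one, smul_eq_mul] at hr
    exact ⟨ε * r, by linear_combination ε * hr + (-((atOne A₂).adjugate 1 1)) * hε2⟩
  rw [hε'] at hk₁
  rw [hadj1, hadj] at hk₂
  rw [hadj1, hadj, hc1] at hk₃
  rw [hadj1, he] at hk₄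
  obtain ⟨J, m, hJ⟩ := arith4 (evm A₂.det) (evm (A₂.adjugate 1 0)) (e + 2 * k₄)
    (ε * t + k₂) α₀ (by rw [hk₁]; exact hεo.add_even ⟨2 * k₁, by ring⟩)
    (by rw [hk₃]; exact ⟨k₃, by ring⟩)
  -- the modified matrix
  set v : Fin (N + 2) → Lam := Pi.single 0 (-((J : Lam) * (1 - (T 1 : Lam)))) with hv
  have hv1 : v 1 = 0 := by rw [hv, Pi.single_apply, if_neg (Ne.symm h01)]
  have hEE : el 1 v * el 1 (-v) = 1 := by
    rw [el_mul 1 v (-v) (by simp [hv1]), add_neg_cancel, el_zero]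
  have hEE' : el 1 (-v) * el 1 v = 1 := by
    rw [el_mul 1 (-v) v hv1, neg_add_cancel, el_zero]
  have hdet₃ : (conjT (el 1 v) * A₂ * el 1 v).det = A₂.det := by
    rw [Matrix.det_mul, Matrix.det_mul, conjT_det, det_el 1 v hv1, map_one, one_mul, mul_one]
  have hD₂ : A₂.det ≠ 0 := by rw [hd₂]; exact hD
  have hiso₃ := iso_congr A₂ hA₂ hD₂ (el 1 v) (el 1 (-v)) hEE hEE' hdet₃
  have hadj₃ : (conjT (el 1 v) * A₂ * el 1 v).adjugate =
      el 1 (-v) * A₂.adjugate * conjT (el 1 (-v)) := by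
    rw [Matrix.adjugate_mul_distrib, Matrix.adjugate_mul_distrib, adj_el 1 v hv1,
      ← conjT_adjugate, adj_el 1 v hv1, Matrix.mul_assoc]
  have h00 : (conjT (el 1 v) * A₂ * el 1 v).adjugate 0 0 =
      A₂.adjugate 0 0 + (J : Lam) * (1 - (T 1 : Lam)) * A₂.adjugate 1 0 +
      (A₂.adjugate 0 1 + (J : Lam) * (1 - (T 1 : Lam)) * A₂.adjugate 1 1) *
        ((J : Lam) * (1 - (T (-1) : Lam))) := by
    rw [hadj₃, mul_conj_el, el_mul_left, el_mul_left]
    have h1 : (-v) 0 = (J : Lam) * (1 - (T 1 : Lam)) := by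
      rw [Pi.neg_apply, hv, Pi.single_eq_same, neg_neg]
    have h2 : bar ((J : Lam) * (1 - (T 1 : Lam))) = (J : Lam) * (1 - (T (-1) : Lam)) := by
      rw [map_mul, map_intCast, map_sub, map_one, bar_T]
    rw [h1, h2]
  have hatE : atOne (el 1 v) = 1 := by
    apply Matrix.ext; intro i j
    rw [atOne_apply]
    unfold el
    rw [Matrix.add_apply, map_add, Matrix.vecMulVec_apply, map_mul, hv, Pi.single_apply]
    have h1 : ev1 (-((J : Lam) * (1 - (T 1 : Lam)))) = 0 := by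
      rw [map_neg, map_mul, map_sub, map_one, ev1_T, sub_self, mul_zero, neg_zero]
    have h2 : ev1 (if i = 0 then -((J : Lam) * (1 - (T 1 : Lam))) else 0) = 0 := by
      split_ifs
      · exact h1
      · exact map_zero _
    rw [h2, zero_mul, add_zero, Matrix.one_apply, Matrix.one_apply]
    split_ifs <;> simp
  set A₃ := conjT (el 1 v) * A₂ * el 1 v with hA₃
  have hA₃h : conjT A₃ = A₃ := by
    rw [hA₃, conjT_mul, conjT_mul, conjT_conjT, hA₂, Matrix.mul_assoc]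
  have hat₃ : atOne A₃ = atOne A₂ := by
    rw [hA₃, atOne_mul, atOne_mul, atOne_conjT, hatE]; simp
  have hε₃ : ev1 A₃.det = ε := by rw [hdet₃, hε']
  have hm : evm (A₃.det * A₃.adjugate 0 0) = 8 * α₀ + 16 * m := by
    rw [hdet₃, h00, map_mul, map_add, map_add, map_mul, map_mul, map_mul, map_mul, map_add,
      map_mul, map_mul, map_sub, map_sub, map_one, evm_T1, evm_Tm1, map_intCast, hk01, hk₂]
    have h4 : evm (A₂.adjugate 1 1) = 2 * e + 4 * k₄ := hk₄
    have h5 : c₀ 0 = 4 * (ε * t) := by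
      linear_combination ε * hc0 + (-(c₀ 0)) * hε2
    rw [h4, h5]
    simp only [Int.cast_id]
    linear_combination 4 * hJ
  obtain ⟨A', h1, h2, h3, s, h4⟩ := step_par A₃ hA₃h 0 1 h01 α₀ ε m hε₃ hε2 (by
      have : ev1 (A₃.adjugate 1 0) = (atOne A₃).adjugate 1 0 := by
        rw [← atOne_adjugate]; rfl
      rw [this, hat₃, hadj, hc1]) (by
      rw [hat₃, hadj, hc0, hα₀]; ring) hm
  rw [hat₃, hcol] at h4
  refine ⟨A', h1, h2.trans (hdet₃.trans hd₂), IsometricPairings.trans hiso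
    (IsometricPairings.trans hiso₃ h3), s ((ε * (-α₀ - 2)) • Pi.single 0 1, 0, 1), ?_⟩
  have hort : form (atOne A₂) 1 ((ε * (-α₀ - 2)) • Pi.single 0 1, 0, 1) (c₀, α₀, 2) = 0 := by
    unfold form
    simp only [hMc, smul_dotProduct, dotProduct_smul, single_dotProduct, Pi.single_eq_same,
      smul_eq_mul]
    linear_combination (-α₀ - 2) * hε2
  rw [h4 _ _ hort hort]
  unfold form
  obtain ⟨r, hr⟩ := heven₂ ((ε * (-α₀ - 2)) • Pi.single 0 1)
  refine ⟨r, ?_⟩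
  simp only [hr]
  ring

end Pool.Agent.N558
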