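import Mathlib
import Pool.Agent.N558.Par

/-!
# The condition on `A(1)` can be dropped: small sizes and the main theorem
-/

set_option autoImplicit false

namespace Pool.Agent.N558

open Module Matrix LaurentPolynomial Pool.Agent.R799

section

variable {ι : Type} [Fintype ι] [DecidableEq ι]

/-- the form of `M` as a bilinear map -/
def ML (M : Matrix ι ι ℤ) : (ι → ℤ) →ₗ[ℤ] (ι → ℤ) →ₗ[ℤ] ℤ :=
  LinearMap.mk₂ ℤ (fun x y => x ⬝ᵥ (M *ᵥ y))
    (fun x y z => add_dotProduct _ _ _)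
    (fun c x z => smul_dotProduct _ _ _)
    (fun x y z => by rw [Matrix.mulVec_add, dotProduct_add])
    (fun c x z => by rw [Matrix.mulVec_smul, dotProduct_smul])

lemma ML_apply (M : Matrix ι ι ℤ) (x y : ι → ℤ) : ML M x y = x ⬝ᵥ (M *ᵥ y) := rfl

lemma ML_uni {M : Matrix ι ι ℤ} (hs : Mᵀ = M) (hu : IsUnit M.det) : Lat.Uni (ML M) := by
  refine ⟨fun x y => dot_symm hs x y, fun f => ?_⟩
  refine ⟨M⁻¹ *ᵥ (fun i => f (Pi.single i 1)), fun y => ?_⟩
  rw [ML_apply, dot_symm hs, Matrix.mulVec_mulVec, Matrix.mul_nonsing_inv _ hu, Matrix.one_mulVec]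
  have h2 : y = ∑ i, y i • (Pi.single i 1 : ι → ℤ) := by
    funext j
    simp [Pi.single_apply, Finset.sum_apply]
  conv_rhs => rw [h2, map_sum]
  simp only [map_smul, smul_eq_mul]
  rfl

lemma congr_of_Dg {k : ℕ} {M : Matrix (Fin k) (Fin k) ℤ} (h : Lat.Dg (ML M)) :
    CongruentToDiagonal M := by
  obtain ⟨n, b, d, hd, hb⟩ := h
  have hn : n = k := by
    have h1 := Module.finrank_eq_card_basis b
    rw [Module.finrank_fintype_fun_eq_card, Fintype.card_fin, Fintype.card_fin] at h1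
    exact h1.symm
  subst hn
  refine congr_of_gram M (fun i => b i) d hd ?_ ?_
  · intro i
    rw [← ML_apply, hb, if_pos rfl]
  · intro i j hij
    rw [← ML_apply, hb, if_neg hij]

end

lemma Dg_rank_one {L : Type} [AddCommGroup L] [Module.Free ℤ L] [Module.Finite ℤ L]
    {B : L →ₗ[ℤ] L →ₗ[ℤ] ℤ} (h : Lat.Uni B) (hr : finrank ℤ L = 1) : Lat.Dg B := by
  let b : Basis (Fin 1) ℤ L := Module.finBasisOfFinrankEq ℤ L hr
  have h1 := Lat.gram_det h b
  rw [Matrix.det_unique] at h1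
  refine ⟨1, b, fun i => B (b i) (b i), ?_, ?_⟩
  · intro i
    have hi : i = default := Subsingleton.elim _ _
    rw [hi]
    exact Int.isUnit_iff.mp h1
  · intro i j
    have hij : i = j := Subsingleton.elim _ _
    rw [if_pos hij, hij]

lemma red2 : ∀ (n : ℕ) (a b c : ℤ), a * c - b ^ 2 = 1 → 0 < a → a.natAbs ≤ n →
    ∃ x y : ℤ, a * x ^ 2 + 2 * b * x * y + c * y ^ 2 = 1 := by
  intro n
  induction n with
  | zero => intro a b c _ h1 h2; omega
  | succ n ih =>
    intro a b c h h1 h2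
    by_cases ha : a = 1
    · exact ⟨1, 0, by rw [ha]; ring⟩
    have ha2 : 2 ≤ a := by omega
    -- nearest integer
    obtain ⟨k, hk1, hk2⟩ : ∃ k : ℤ, -a ≤ 2 * (b - k * a) ∧ 2 * (b - k * a) ≤ a := by
      refine ⟨(2 * b + a) / (2 * a), ?_, ?_⟩
      · have := Int.ediv_mul_le (2 * b + a) (b := 2 * a) (by omega)
        nlinarith
      · have := Int.lt_ediv_add_one_mul_self (2 * b + a) (b := 2 * a) (by omega)
        nlinarith
    set b' := b - k * a with hb'
    set c' := c - 2 * k * b + k ^ 2 * a with hc'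
    have h3 : a * c' - b' ^ 2 = 1 := by rw [hb', hc']; linear_combination h
    have h4 : 4 * b' ^ 2 ≤ a ^ 2 := by nlinarith
    have h5 : 0 < c' := by
      by_contra hcon
      push Not at hcon
      nlinarith [sq_nonneg b']
    have h6 : c' < a := by
      by_contra hcon
      push Not at hcon
      nlinarith
    obtain ⟨x, y, hxy⟩ := ih c' b' a (by linear_combination h3) h5 (by omega)
    refine ⟨y - k * x, x, ?_⟩
    rw [← hxy, hb', hc']; ring

lemma two_dim (M : Matrix (Fin 2) (Fin 2) ℤ) (hs : Mᵀ = M) (hu : IsUnit M.det)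
    (hodd : ∃ y : Fin 2 → ℤ, Odd (y ⬝ᵥ (M *ᵥ y))) : CongruentToDiagonal M := by
  apply congr_of_Dg
  have hU := ML_uni hs hu
  have hfr : finrank ℤ (Fin 2 → ℤ) = 2 := by
    rw [Module.finrank_fintype_fun_eq_card, Fintype.card_fin]
  have hsym : M 1 0 = M 0 1 := by
    have := congrFun (congrFun hs 0) 1
    exact this
  have hval : ∀ x y : ℤ, ML M ![x, y] ![x, y] =
      M 0 0 * x ^ 2 + 2 * M 0 1 * x * y + M 1 1 * y ^ 2 := by
    intro x y
    rw [ML_apply]
    simp only [dotProduct, Matrix.mulVec, Fin.sum_univ_two, Matrix.cons_val_zero,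
      Matrix.cons_val_one, hsym]
    ring
  have hdet : M.det = M 0 0 * M 1 1 - M 0 1 ^ 2 := by
    rw [Matrix.det_fin_two, hsym]; ring
  obtain ⟨y₀, hy₀⟩ := hodd
  by_cases hpn : (∃ x, 0 < ML M x x) ∧ (∃ y, ML M y y < 0)
  · exact Lat.thmA 2 _ (ML M) hfr hU ⟨y₀, hy₀⟩ hpn.1 hpn.2
  -- a vector of norm `±1`
  have key : ∃ (e : Fin 2 → ℤ) (δ : ℤ), (δ = 1 ∨ δ = -1) ∧ ML M e e = δ := by
    have hab : ∀ a b c : ℤ, a * c - b ^ 2 = -1 → ∃ x y x' y' : ℤ,
        0 < a * x ^ 2 + 2 * b * x * y + c * y ^ 2 ∧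
        a * x' ^ 2 + 2 * b * x' * y' + c * y' ^ 2 < 0 := by
      intro a b c h
      rcases lt_trichotomy a 0 with ha | ha | ha
      · refine ⟨-b, a, 1, 0, ?_, by nlinarith⟩
        have : a * (-b) ^ 2 + 2 * b * (-b) * a + c * a ^ 2 = a * (a * c - b ^ 2) := by ring
        rw [this, h]; linarith
      · rw [ha] at h ⊢
        have hb : b ^ 2 = 1 := by linarith
        refine ⟨b * (|c| + 1), 1, -(b * (|c| + 1)), 1, ?_, ?_⟩
        · have : (0 : ℤ) * (b * (|c| + 1)) ^ 2 + 2 * b * (b * (|c| + 1)) * 1 + c * 1 ^ 2 =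
              2 * (|c| + 1) + c := by linear_combination (2 * (|c| + 1)) * hb
          rw [this]
          linarith [neg_abs_le c, abs_nonneg c]
        · have : (0 : ℤ) * (-(b * (|c| + 1))) ^ 2 + 2 * b * (-(b * (|c| + 1))) * 1 + c * 1 ^ 2 =
              -(2 * (|c| + 1)) + c := by linear_combination (-(2 * (|c| + 1))) * hb
          rw [this]
          linarith [le_abs_self c, abs_nonneg c]
      · refine ⟨1, 0, -b, a, by nlinarith, ?_⟩
        have : a * (-b) ^ 2 + 2 * b * (-b) * a + c * a ^ 2 = a * (a * c - b ^ 2) := by ring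
        rw [this, h]; linarith
    rcases Int.isUnit_iff.mp hu with hd | hd
    · rw [hdet] at hd
      have ha0 : M 0 0 ≠ 0 := by
        intro h0
        rw [h0] at hd
        nlinarith [sq_nonneg (M 0 1)]
      rcases lt_or_gt_of_ne ha0 with ha | ha
      · obtain ⟨x, y, hxy⟩ := red2 _ (-M 0 0) (-M 0 1) (-M 1 1) (by linear_combination hd)
          (by linarith) le_rfl
        exact ⟨![x, y], -1, Or.inr rfl, by rw [hval]; linear_combination -hxy⟩
      · obtain ⟨x, y, hxy⟩ := red2 _ (M 0 0) (M 0 1) (M 1 1) hd ha le_rfl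
        exact ⟨![x, y], 1, Or.inl rfl, by rw [hval]; linear_combination hxy⟩
    · rw [hdet] at hd
      obtain ⟨x, y, x', y', h1, h2⟩ := hab _ _ _ hd
      exact absurd ⟨⟨![x, y], by rw [hval]; exact h1⟩, ⟨![x', y'], by rw [hval]; exact h2⟩⟩ hpn
  obtain ⟨e, δ, hδ, he⟩ := key
  have hδ2 : δ * δ = 1 := by rcases hδ with rfl | rfl <;> norm_num
  apply Lat.Dg_of_res hU e δ hδ he
  apply Dg_rank_one (Lat.res_uni hU e δ hδ2 he)
  have := Lat.finrank_res (B := ML M) e δ hδ2 he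
  omega

/-- even forms: a primitive vector with norm divisible by four -/
lemma exists_even_vec {N : ℕ} (hN : 1 ≤ N) (M : Matrix (Fin (N + 2)) (Fin (N + 2)) ℤ)
    (hs : Mᵀ = M) (heven : ∀ y : Fin (N + 2) → ℤ, Even (y ⬝ᵥ (M *ᵥ y))) :
    ∃ (x₀ : Fin (N + 2) → ℤ) (t : ℤ), (∀ p : ℕ, p.Prime → ¬ ∀ i, (p : ℤ) ∣ x₀ i) ∧
      x₀ ⬝ᵥ (M *ᵥ x₀) = 4 * t := by
  obtain ⟨N', rfl⟩ := Nat.exists_eq_add_of_le hN
  have hprim : ∀ (x₀ : Fin (1 + N' + 2) → ℤ) (i : Fin (1 + N' + 2)), x₀ i = 1 →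
      ∀ p : ℕ, p.Prime → ¬ ∀ i, (p : ℤ) ∣ x₀ i := by
    intro x₀ i hi p hp hall
    have := hall i
    rw [hi] at this
    exact (Nat.prime_iff_prime_int.mp hp).not_isUnit (isUnit_of_dvd_one this)
  have hb : ∀ i j, (Pi.single i 1 : Fin (1 + N' + 2) → ℤ) ⬝ᵥ (M *ᵥ (Pi.single j 1)) = M i j := by
    intro i j
    rw [Matrix.mulVec_single_one, single_dotProduct, one_mul]; rfl
  have hMs : ∀ i j, M i j = M j i := fun i j => by
    have := congrFun (congrFun hs j) i
    exact this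
  have hd : ∀ i, ∃ r, M i i = 2 * r := by
    intro i
    obtain ⟨r, hr⟩ := heven (Pi.single i 1)
    rw [hb] at hr
    exact ⟨r, by rw [hr]; ring⟩
  have h2 : ∀ i j, (Pi.single i 1 + Pi.single j 1 : Fin (1 + N' + 2) → ℤ) ⬝ᵥ
      (M *ᵥ (Pi.single i 1 + Pi.single j 1)) = M i i + M j j + 2 * M i j := by
    intro i j
    rw [Matrix.mulVec_add, dotProduct_add, add_dotProduct, add_dotProduct, hb, hb, hb, hb,
      hMs j i]
    ring
  have h3 : ∀ i j k, (Pi.single i 1 + Pi.single j 1 + Pi.single k 1 : Fin (1 + N' + 2) → ℤ) ⬝ᵥ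
      (M *ᵥ (Pi.single i 1 + Pi.single j 1 + Pi.single k 1)) =
      M i i + M j j + M k k + 2 * M i j + 2 * M i k + 2 * M j k := by
    intro i j k
    simp only [Matrix.mulVec_add, dotProduct_add, add_dotProduct, hb]
    rw [hMs j i, hMs k i, hMs k j]
    ring
  let i0 : Fin (1 + N' + 2) := ⟨0, by omega⟩
  let i1 : Fin (1 + N' + 2) := ⟨1, by omega⟩
  let i2 : Fin (1 + N' + 2) := ⟨2, by omega⟩
  have n01 : i0 ≠ i1 := by intro h; simpa [i0, i1] using congrArg Fin.val h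
  have n02 : i0 ≠ i2 := by intro h; simpa [i0, i2] using congrArg Fin.val h
  have n12 : i1 ≠ i2 := by intro h; simpa [i1, i2] using congrArg Fin.val h
  obtain ⟨r0, hr0⟩ := hd i0
  obtain ⟨r1, hr1⟩ := hd i1
  obtain ⟨r2, hr2⟩ := hd i2
  have hone : ∀ i r, M i i = 2 * r → Even r → ∃ (x₀ : Fin (1 + N' + 2) → ℤ) (t : ℤ),
      (∀ p : ℕ, p.Prime → ¬ ∀ i, (p : ℤ) ∣ x₀ i) ∧ x₀ ⬝ᵥ (M *ᵥ x₀) = 4 * t := by
    intro i r h1 ⟨s, hs⟩
    exact ⟨Pi.single i 1, s, hprim _ i (by simp), by rw [hb, h1, hs]; ring⟩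
  rcases Int.even_or_odd r0 with he0 | ho0
  · exact hone i0 r0 hr0 he0
  rcases Int.even_or_odd r1 with he1 | ho1
  · exact hone i1 r1 hr1 he1
  rcases Int.even_or_odd r2 with he2 | ho2
  · exact hone i2 r2 hr2 he2
  have htwo : ∀ i j r s, i ≠ j → M i i = 2 * r → M j j = 2 * s → Odd r → Odd s → Even (M i j) →
      ∃ (x₀ : Fin (1 + N' + 2) → ℤ) (t : ℤ),
      (∀ p : ℕ, p.Prime → ¬ ∀ i, (p : ℤ) ∣ x₀ i) ∧ x₀ ⬝ᵥ (M *ᵥ x₀) = 4 * t := by
    intro i j r s hij hr hs ⟨a, ha⟩ ⟨b, hb'⟩ ⟨c, hc⟩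
    refine ⟨Pi.single i 1 + Pi.single j 1, a + b + 1 + c, hprim _ i ?_, ?_⟩
    · simp [hij]
    · rw [h2, hr, hs, ha, hb', hc]; ring
  rcases Int.even_or_odd (M i0 i1) with h | h01
  · exact htwo i0 i1 r0 r1 n01 hr0 hr1 ho0 ho1 h
  rcases Int.even_or_odd (M i0 i2) with h | h02
  · exact htwo i0 i2 r0 r2 n02 hr0 hr2 ho0 ho2 h
  rcases Int.even_or_odd (M i1 i2) with h | h12
  · exact htwo i1 i2 r1 r2 n12 hr1 hr2 ho1 ho2 h
  obtain ⟨a, ha⟩ := ho0
  obtain ⟨b, hb'⟩ := ho1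
  obtain ⟨c, hc⟩ := ho2
  obtain ⟨a', ha'⟩ := h01
  obtain ⟨b', hb''⟩ := h02
  obtain ⟨c', hc'⟩ := h12
  refine ⟨Pi.single i0 1 + Pi.single i1 1 + Pi.single i2 1, a + b + c + a' + b' + c' + 3,
    hprim _ i0 ?_, ?_⟩
  · simp [n01, n02]
  · rw [h3, hr0, hr1, hr2, ha, hb', hc, ha', hb'', hc']; ring

/-- even forms of rank two: a primitive isotropic vector -/
lemma exists_even_vec_two (M : Matrix (Fin 2) (Fin 2) ℤ)
    (hs : Mᵀ = M) (hu : IsUnit M.det) (heven : ∀ y : Fin 2 → ℤ, Even (y ⬝ᵥ (M *ᵥ y))) :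
    ∃ (x₀ : Fin 2 → ℤ), (∀ p : ℕ, p.Prime → ¬ ∀ i, (p : ℤ) ∣ x₀ i) ∧
      x₀ ⬝ᵥ (M *ᵥ x₀) = 0 := by
  have hU := ML_uni hs hu
  have hsym : M 1 0 = M 0 1 := by
    have := congrFun (congrFun hs 0) 1
    exact this
  have hval : ∀ x y : ℤ, ML M ![x, y] ![x, y] =
      M 0 0 * x ^ 2 + 2 * M 0 1 * x * y + M 1 1 * y ^ 2 := by
    intro x y
    rw [ML_apply]
    simp only [dotProduct, Matrix.mulVec, Fin.sum_univ_two, Matrix.cons_val_zero,
      Matrix.cons_val_one, hsym]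
    ring
  have hdet : M.det = M 0 0 * M 1 1 - M 0 1 ^ 2 := by
    rw [Matrix.det_fin_two, hsym]; ring
  obtain ⟨a, ha⟩ := heven ![1, 0]
  obtain ⟨c, hc⟩ := heven ![0, 1]
  rw [← ML_apply, hval] at ha hc
  have ha' : M 0 0 = 2 * a := by linear_combination ha
  have hc' : M 1 1 = 2 * c := by linear_combination hc
  -- the determinant is `-1`
  have hd : 4 * (a * c) - M 0 1 ^ 2 = -1 := by
    rcases Int.isUnit_iff.mp hu with h | h
    · exfalso
      rw [hdet, ha', hc'] at h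
      have h1 : M 0 1 ^ 2 = 4 * (a * c) - 1 := by linear_combination -h
      rcases Int.even_or_odd (M 0 1) with ⟨k, hk⟩ | ⟨k, hk⟩
      · rw [hk] at h1
        have : 4 * (k ^ 2 - a * c) = -1 := by linear_combination h1
        omega
      · rw [hk] at h1
        have : 4 * (k ^ 2 + k - a * c) = -2 := by linear_combination h1
        omega
    · rw [hdet, ha', hc'] at h
      linear_combination h
  have hodd : Odd (M 0 1) := by
    rcases Int.even_or_odd (M 0 1) with ⟨k, hk⟩ | h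
    · exfalso
      rw [hk] at hd
      have : 4 * (a * c - k ^ 2) = -1 := by linear_combination hd
      omega
    · exact h
  obtain ⟨k, hk⟩ := hodd
  obtain ⟨z, hz0, hz⟩ : ∃ z, z ≠ 0 ∧ ML M z z = 0 := by
    by_cases ha0 : a = 0
    · refine ⟨![1, 0], ?_, by rw [hval, ha', ha0]; ring⟩
      intro h
      have := congrFun h 0
      simp at this
    · refine ⟨![-k, a], ?_, ?_⟩
      · intro h
        have := congrFun h 1
        simp at this
        exact ha0 this
      · rw [hval, ha', hc', hk]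
        rw [hk] at hd
        have : a * (4 * (a * c) - (2 * k + 1) ^ 2 + 1) = 0 := by rw [hd]; ring
        have h2 : 2 * (2 * a * (-k) ^ 2 + 2 * (2 * k + 1) * -k * a + 2 * c * a ^ 2) = 0 := by
          linear_combination this
        linarith
  obtain ⟨g, x', hg, hgx, y, hy⟩ := Lat.exists_prim hU hz0
  refine ⟨x', ?_, ?_⟩
  · intro p hp hall
    have h1 : (p : ℤ) ∣ ML M x' y := by
      rw [ML_apply]
      exact Finset.dvd_sum fun i _ => dvd_mul_of_dvd_left (hall i) _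
    rw [hy] at h1
    exact (Nat.prime_iff_prime_int.mp hp).not_isUnit (isUnit_of_dvd_one h1)
  · rw [hgx] at hz
    simp only [map_smul, LinearMap.smul_apply, smul_eq_mul] at hz
    rcases mul_eq_zero.mp hz with h1 | h1
    · exact absurd h1 hg
    · rcases mul_eq_zero.mp h1 with h1 | h1
      · exact absurd h1 hg
      · exact h1

lemma iso_refl {k : ℕ} (A : Matrix (Fin k) (Fin k) Lam) (hA : conjT A = A) (hD : A.det ≠ 0) :
    IsometricPairings A (toOm A)⁻¹ A (toOm A)⁻¹ := by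
  have := iso_congr A hA hD 1 1 (by simp) (by simp) (by rw [conjT_one]; simp)
  rwa [conjT_one, Matrix.one_mul, Matrix.mul_one] at this

theorem main {k : ℕ} (A : Matrix (Fin k) (Fin k) Lam) (hA : conjT A = A) (ε : ℤ)
    (hε : ev1 A.det = ε) (hε2 : ε * ε = 1) : Good A := by
  have hD : A.det ≠ 0 := by
    intro h
    rw [h, map_zero] at hε
    rw [← hε] at hε2
    norm_num at hε2
  have hs := herm_at A hA
  have hMdet : (atOne A).det = ε := by rw [atOne_det, hε]
  have hu : IsUnit (atOne A).det := by rw [hMdet]; exact IsUnit.of_mul_eq_one ε hε2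
  have htriv : CongruentToDiagonal (atOne A) → Good A := fun h =>
    ⟨A, hA, rfl, iso_refl A hA hD, h⟩
  match k, A, hA, hε, hD, hs, hMdet, hu, htriv with
  | 0, A, _, _, _, _, _, _, htriv =>
    apply htriv
    exact ⟨1, fun i => i.elim0, by simp, fun i => i.elim0, by ext i; exact i.elim0⟩
  | 1, A, _, _, _, hs, _, hu, htriv =>
    apply htriv
    apply congr_of_Dg
    apply Dg_rank_one (ML_uni hs hu)
    rw [Module.finrank_fintype_fun_eq_card, Fintype.card_fin]
  | 2, A, hA, hε, hD, hs, hMdet, hu, htriv =>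
    by_cases hodd : ∃ y : Fin 2 → ℤ, Odd (y ⬝ᵥ (atOne A *ᵥ y))
    · exact htriv (two_dim _ hs hu hodd)
    · push Not at hodd
      have heven : ∀ y : Fin 2 → ℤ, Even (y ⬝ᵥ (atOne A *ᵥ y)) := fun y =>
        Int.not_odd_iff_even.mp (hodd y)
      obtain ⟨x₀, hx, hx0⟩ := exists_even_vec_two _ hs hu heven
      obtain ⟨A', h1, h2, h3, h4⟩ := par_final (N := 0) A hA ε hε hε2 heven x₀ hx 0
        (by rw [hx0]; ring) (Or.inr hx0)
      have hε' : ev1 A'.det = ε := by rw [h2, hε]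
      have hD' : A'.det ≠ 0 := by rw [h2]; exact hD
      have hu' : IsUnit (atOne A').det := by
        rw [atOne_det, hε']; exact IsUnit.of_mul_eq_one ε hε2
      exact ⟨A', h1, h2, h3, two_dim _ (herm_at A' h1) hu' h4⟩
  | N + 3, A, hA, hε, hD, hs, hMdet, hu, htriv =>
    by_cases hodd : ∃ y : Fin (N + 3) → ℤ, Odd (y ⬝ᵥ (atOne A *ᵥ y))
    · exact odd_final (N := N + 1) (by omega) A hA ε hε hε2 hodd
    · push Not at hodd
      have heven : ∀ y : Fin (N + 3) → ℤ, Even (y ⬝ᵥ (atOne A *ᵥ y)) := fun y =>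
        Int.not_odd_iff_even.mp (hodd y)
      obtain ⟨x₀, t, hx, ht⟩ := exists_even_vec (N := N + 1) (by omega) _ hs heven
      obtain ⟨A', h1, h2, h3, h4⟩ := par_final (N := N + 1) A hA ε hε hε2 heven x₀ hx t ht
        (Or.inl (by omega))
      have hε' : ev1 A'.det = ε := by rw [h2, hε]
      exact (odd_final (N := N + 1) (by omega) A' h1 ε hε' hε2 h4).of_iso h2 h3

/-- a hermitian matrix presenting a Blanchfield pairing is unimodular at `t = 1` -/
theorem unimodular_at_one {n : Type*} [Fintype n] [DecidableEq n] (V : Matrix n n ℤ)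
    (hV : IsUnit (V - Vᵀ).det) {k : ℕ} (A : Matrix (Fin k) (Fin k) Lam)
    (h : PresentsBlanchfield A V) : IsUnit (atOne A).det := by
  obtain ⟨-, -, h⟩ := h
  rw [iso_iff] at h
  obtain ⟨e, -⟩ := h
  -- `t - 1` is surjective on the cokernel of `t V - V^t`
  have hsurj : ∀ y : n → Lam, ∃ g w : n → Lam, y = (T 1 - 1 : Lam) • g + alexanderMatrix V *ᵥ w := by
    intro y
    set U := (V - Vᵀ)⁻¹ with hU
    have hVU : (V - Vᵀ) * U = 1 := Matrix.mul_nonsing_inv _ hV
    refine ⟨-((V.map (Int.castRingHom Lam)) *ᵥ ((U.map (Int.castRingHom Lam)) *ᵥ y)),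
      (U.map (Int.castRingHom Lam)) *ᵥ y, ?_⟩
    have h1 : alexanderMatrix V = (V - Vᵀ).map (Int.castRingHom Lam) +
        (T 1 - 1 : Lam) • V.map (Int.castRingHom Lam) := by
      unfold alexanderMatrix
      rw [Matrix.map_sub (Int.castRingHom Lam) (map_sub _)]
      rw [sub_smul, one_smul]
      abel
    have h2 : (V - Vᵀ).map (Int.castRingHom Lam) * U.map (Int.castRingHom Lam) = 1 := by
      rw [← Matrix.map_mul, hVU]
      exact Matrix.map_one _ (map_zero _) (map_one _)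
    have h3 : (V - Vᵀ).map (Int.castRingHom Lam) *ᵥ ((U.map (Int.castRingHom Lam)) *ᵥ y) = y := by
      rw [Matrix.mulVec_mulVec, h2, Matrix.one_mulVec]
    rw [h1, Matrix.add_mulVec, h3, Matrix.smul_mulVec, smul_neg]
    abel
  have hsurjA : ∀ y : Fin k → Lam, ∃ g w : Fin k → Lam, y = (T 1 - 1 : Lam) • g + A *ᵥ w := by
    intro y
    obtain ⟨y', hy'⟩ := Submodule.Quotient.mk_surjective _ (e (Submodule.Quotient.mk y))
    obtain ⟨g, w, hgw⟩ := hsurj y'
    obtain ⟨g', hg'⟩ := Submodule.Quotient.mk_surjective _ (e.symm (Submodule.Quotient.mk g))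
    have h1 : (Submodule.Quotient.mk y : CokerQ A) = Submodule.Quotient.mk ((T 1 - 1 : Lam) • g') := by
      apply e.injective
      rw [← hy', Submodule.Quotient.mk_smul, hg', map_smul, LinearEquiv.apply_symm_apply,
        ← Submodule.Quotient.mk_smul, Submodule.Quotient.eq]
      refine ⟨w, ?_⟩
      rw [Matrix.mulVecLin_apply, hgw]
      abel
    rw [Submodule.Quotient.eq] at h1
    obtain ⟨z, hz⟩ := h1
    rw [Matrix.mulVecLin_apply] at hz
    exact ⟨g', z, by rw [hz]; abel⟩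
  -- surjectivity at `1`
  have hsurj1 : ∀ y : Fin k → ℤ, ∃ w : Fin k → ℤ, y = atOne A *ᵥ w := by
    intro y
    obtain ⟨g, w, hgw⟩ := hsurjA (fun i => (y i : Lam))
    refine ⟨fun i => ev1 (w i), ?_⟩
    funext i
    have h1 := congrArg ev1 (congrFun hgw i)
    simp only [Pi.add_apply, Pi.smul_apply, smul_eq_mul, map_add, map_mul, map_sub, ev1_T,
      map_one, sub_self, zero_mul, zero_add, map_intCast, Int.cast_id] at h1
    rw [h1]
    simp only [Matrix.mulVec, dotProduct, map_sum, map_mul]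
    rfl
  choose f hf using fun j : Fin k => hsurj1 (Pi.single j 1)
  have hR : atOne A * (Matrix.of fun i j => f j i) = 1 := by
    ext i j
    have h1 := congrFun (hf j) i
    rw [Matrix.mul_apply, Matrix.one_apply]
    simp only [Matrix.mulVec, dotProduct, Pi.single_apply] at h1
    simp only [Matrix.of_apply]
    exact h1.symm
  exact Matrix.isUnit_det_of_right_inverse hR

theorem presents_iff {n : Type*} [Fintype n] [DecidableEq n] (V : Matrix n n ℤ)
    (hV : IsUnit (V - Vᵀ).det) {k : ℕ} (A : Matrix (Fin k) (Fin k) Lam)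
    (h : PresentsBlanchfield A V) :
    ∃ A' : Matrix (Fin k) (Fin k) Lam, PresentsBlanchfield A' V ∧
      CongruentToDiagonal (atOne A') := by
  have hu := unimodular_at_one V hV A h
  obtain ⟨hA, hD, hiso⟩ := h
  obtain ⟨A', h1, h2, h3, h4⟩ := main A hA _ rfl (by
    rw [← atOne_det]
    rcases Int.isUnit_iff.mp hu with h | h <;> rw [h] <;> norm_num)
  refine ⟨A', ⟨h1, by rw [h2]; exact hD, ?_⟩, h4⟩
  exact IsometricPairings.trans (IsometricPairings.symm h3) hiso

end Pool.Agent.N558
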