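import Mathlib
import Pool.Agent.R799.Blanch

/-!
# The invariant `n₀`
-/

set_option autoImplicit false

namespace Pool.Agent.N558

open Pool.Agent.R799

/-- The invariant `n₀(K)` of a knot `K` with Seifert matrix `V`: the least size of a hermitian
matrix `A` over `Λ` with `λ(A) ≅ λ(K)`, with no condition on `A(1)`. -/
noncomputable def n0Inv {n : Type*} [Fintype n] [DecidableEq n] (V : Matrix n n ℤ) : ℕ :=
  sInf {k | ∃ A : Matrix (Fin k) (Fin k) Lam, PresentsBlanchfield A V}

end Pool.Agent.N558
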