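import Pool.Agent.N585.PT.Defs

/-!
# Project PT (helper585): paths in trees (PT/5), by helper558
-/

set_option autoImplicit false

namespace Pool.Agent.N558.PT

open Pool.Agent.N585.PT

variable {V : Type} {G : SimpleGraph V}

lemma exists_walk : ∀ (Q : List V) (x y : V), Q.IsChain G.Adj → Q.head? = some x →
    Q.getLast? = some y → ∃ p : G.Walk x y, p.support = Q
  | [], _, _, _, h, _ => by simp at h
  | [a], x, y, _, h1, h2 => by
    simp only [List.head?_cons, Option.some.injEq, List.getLast?_singleton] at h1 h2
    subst h1
    subst h2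
    exact ⟨.nil, rfl⟩
  | a :: b :: l, x, y, hc, h1, h2 => by
    rw [List.isChain_cons_cons] at hc
    obtain ⟨p, hp⟩ := exists_walk (b :: l) b y hc.2 rfl (by
      rw [List.getLast?_cons_cons] at h2
      exact h2)
    simp only [List.head?_cons, Option.some.injEq] at h1
    subst h1
    exact ⟨.cons hc.1 p, by rw [SimpleGraph.Walk.support_cons, hp]⟩

lemma walk_of_rtg {w x y : V} (hx : x ≠ w)
    (h : Relation.ReflTransGen (fun a b => G.Adj a b ∧ b ≠ w) x y) :
    ∃ q : G.Walk x y, w ∉ q.support := by
  induction h with
  | refl => exact ⟨.nil, by simpa using hx.symm⟩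
  | tail _ hbc ih =>
    obtain ⟨q, hq⟩ := ih
    refine ⟨q.concat hbc.1, ?_⟩
    rw [SimpleGraph.Walk.support_concat, List.mem_append, List.mem_singleton]
    rintro (h | h)
    · exact hq h
    · exact hbc.2 h.symm

lemma rtg_of_walk {w : V} : ∀ {x y : V} (p : G.Walk x y), w ∉ p.support →
    Relation.ReflTransGen (fun a b => G.Adj a b ∧ b ≠ w) x y
  | _, _, .nil, _ => .refl
  | x, y, .cons (v := v) h q, hw => by
    rw [SimpleGraph.Walk.support_cons, List.mem_cons, not_or] at hw
    refine .head ⟨h, ?_⟩ (rtg_of_walk q hw.2)
    rintro rfl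
    exact hw.2 q.start_mem_support

/-- (PT/5) -/
theorem stmPath : StmPath := by
  intro V _ G hG
  classical
  refine ⟨fun x y => ?_, fun Q x y hc hn h1 h2 => ?_⟩
  · obtain ⟨p, hp, -⟩ := hG.existsUnique_path x y
    refine ⟨p.support, p.isChain_adj_support, hp.support_nodup, ?_, ?_⟩
    · rw [List.head?_eq_some_head p.support_ne_nil, p.head_support]
    · rw [List.getLast?_eq_some_getLast p.support_ne_nil, p.getLast_support]
  · obtain ⟨p, hp⟩ := exists_walk Q x y hc h1 h2
    have hpath : p.IsPath := by
      rw [SimpleGraph.Walk.isPath_def, hp]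
      exact hn
    have key : ∀ w, w ∈ Q ↔ onP G x y w := by
      intro w
      rw [← hp]
      constructor
      · intro hw
        by_contra hcon
        unfold onP at hcon
        push Not at hcon
        obtain ⟨hx, hy, hne, hr⟩ := hcon
        obtain ⟨q, hq⟩ := walk_of_rtg hne hr
        have h3 : q.bypass = p := (hG.existsUnique_path x y).unique q.bypass_isPath hpath
        rw [← h3] at hw
        exact hq (q.support_bypass_subset_support hw)
      · rintro (rfl | rfl | h)
        · exact p.start_mem_support
        · exact p.end_mem_support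
        · by_contra hcon
          refine h ⟨?_, rtg_of_walk p hcon⟩
          rintro rfl
          exact hcon p.start_mem_support
    refine ⟨key, ?_⟩
    unfold dd
    rw [← List.toFinset_card_of_nodup hn]
    congr 1
    ext w
    rw [Finset.mem_filter, List.mem_toFinset, key w]
    simp

end Pool.Agent.N558.PT
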