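import Pool.Agent.N894.WF.DefsN

/-!
# Elements of small length generate a nilpotent subgroup (leaf WF/N2 of helper894's project WF)
-/

set_option autoImplicit false

namespace Pool.Agent.N558.WF

theorem exists_gap {H : Type} [Group H] [Finite H] (ell : H → ℝ) (h0 : ∀ x, ell x = 0 ↔ x = 1)
    (hpos : ∀ x, 0 ≤ ell x) : ∃ δ : ℝ, 0 < δ ∧ ∀ x, ell x < δ → x = 1 := by
  classical
  have := Fintype.ofFinite H
  by_cases hne : (Finset.univ.filter fun x : H => x ≠ 1).Nonempty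
  · obtain ⟨y, hy, hmin⟩ := Finset.exists_min_image _ ell hne
    have hy1 : y ≠ 1 := (Finset.mem_filter.1 hy).2
    refine ⟨ell y, lt_of_le_of_ne (hpos y) (fun h => hy1 ((h0 y).1 h.symm)), fun x hx => ?_⟩
    by_contra hx1
    exact absurd (hmin x (Finset.mem_filter.2 ⟨Finset.mem_univ _, hx1⟩)) (not_le.2 hx)
  · refine ⟨1, one_pos, fun x _ => ?_⟩
    by_contra hx1
    exact hne ⟨x, Finset.mem_filter.2 ⟨Finset.mem_univ _, hx1⟩⟩

theorem comm_all {H : Type} [Group H] (T : Set H) (Z : Subgroup (Subgroup.closure T)) [Z.Normal]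
    (a : Subgroup.closure T)
    (h : ∀ t (ht : t ∈ T), a * ⟨t, Subgroup.subset_closure ht⟩ * a⁻¹ *
      (⟨t, Subgroup.subset_closure ht⟩ : Subgroup.closure T)⁻¹ ∈ Z) :
    ∀ y : Subgroup.closure T, a * y * a⁻¹ * y⁻¹ ∈ Z := by
  rintro ⟨y, hy⟩
  induction hy using Subgroup.closure_induction with
  | mem x hx => exact h x hx
  | one =>
    have : (⟨1, Subgroup.one_mem _⟩ : Subgroup.closure T) = 1 := rfl
    rw [this, mul_one, mul_inv_cancel, one_mul, inv_one]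
    exact Z.one_mem
  | mul x y hx hy ihx ihy =>
    have e : (⟨x * y, Subgroup.mul_mem _ hx hy⟩ : Subgroup.closure T) = ⟨x, hx⟩ * ⟨y, hy⟩ := rfl
    rw [e]
    have key : a * (⟨x, hx⟩ * ⟨y, hy⟩) * a⁻¹ * ((⟨x, hx⟩ * ⟨y, hy⟩ : Subgroup.closure T))⁻¹ =
        (a * ⟨x, hx⟩ * a⁻¹ * (⟨x, hx⟩ : Subgroup.closure T)⁻¹) *
        (⟨x, hx⟩ * (a * ⟨y, hy⟩ * a⁻¹ * (⟨y, hy⟩ : Subgroup.closure T)⁻¹) *
          (⟨x, hx⟩ : Subgroup.closure T)⁻¹) := by group
    rw [key]
    exact Z.mul_mem ihx (Subgroup.Normal.conj_mem inferInstance _ ihy _)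
  | inv x hx ihx =>
    have e : (⟨x⁻¹, Subgroup.inv_mem _ hx⟩ : Subgroup.closure T) = (⟨x, hx⟩)⁻¹ := rfl
    rw [e]
    have key : a * (⟨x, hx⟩ : Subgroup.closure T)⁻¹ * a⁻¹ * ((⟨x, hx⟩ : Subgroup.closure T)⁻¹)⁻¹ =
        (⟨x, hx⟩ : Subgroup.closure T)⁻¹ *
          (a * ⟨x, hx⟩ * a⁻¹ * (⟨x, hx⟩ : Subgroup.closure T)⁻¹)⁻¹ *
          ((⟨x, hx⟩ : Subgroup.closure T)⁻¹)⁻¹ := by group
    rw [key]
    exact Subgroup.Normal.conj_mem inferInstance _ (Z.inv_mem ihx) _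

theorem t_N2 : N894.WF.LeafN2 := by
  intro H _ _ ell M ε hMε hε hM h0 hpos hinv hmul hconj hcomm T hT
  obtain ⟨δ, hδ, hgap⟩ := exists_gap ell h0 hpos
  set θ : ℝ := M * ε with hθ
  have hθ0 : 0 ≤ θ := mul_nonneg hM hε
  obtain ⟨n0, hn0⟩ : ∃ n : ℕ, θ ^ n * ε < δ := by
    have h1 : Filter.Tendsto (fun n : ℕ => θ ^ n * ε) Filter.atTop (nhds (0 * ε)) :=
      (tendsto_pow_atTop_nhds_zero_of_lt_one hθ0 hMε).mul_const ε
    rw [zero_mul] at h1
    exact (h1.eventually_lt_const hδ).exists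
  have main : ∀ j : ℕ, j ≤ n0 → ∀ a : Subgroup.closure (T : Set H),
      ell (a : H) ≤ θ ^ (n0 - j) * ε → a ∈ Subgroup.upperCentralSeries (Subgroup.closure (T : Set H)) j := by
    intro j
    induction j with
    | zero =>
      intro _ a ha
      have h1 : (a : H) = 1 := hgap _ (lt_of_le_of_lt ha (by simpa using hn0))
      have h2 : a = 1 := Subtype.ext h1
      rw [h2]
      exact Subgroup.one_mem _
    | succ j ih =>
      intro hj a ha
      rw [Subgroup.mem_upperCentralSeries_succ_iff]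
      refine comm_all (T : Set H) _ a fun t ht => ?_
      apply ih (by omega)
      have h1 : ell ((a : H) * t * (a : H)⁻¹ * t⁻¹) ≤ M * ell (a : H) * ell t := hcomm _ _
      have h2 : M * ell (a : H) * ell t ≤ M * (θ ^ (n0 - (j + 1)) * ε) * ε := by
        have h3 : ell t ≤ ε := hT t ht
        have h4 : 0 ≤ M * ell (a : H) := mul_nonneg hM (hpos _)
        calc M * ell (a : H) * ell t ≤ M * ell (a : H) * ε := mul_le_mul_of_nonneg_left h3 h4
          _ ≤ M * (θ ^ (n0 - (j + 1)) * ε) * ε :=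
            mul_le_mul_of_nonneg_right (mul_le_mul_of_nonneg_left ha hM) hε
      have h5 : M * (θ ^ (n0 - (j + 1)) * ε) * ε = θ ^ (n0 - j) * ε := by
        have h6 : n0 - j = n0 - (j + 1) + 1 := by omega
        rw [h6, pow_succ, hθ]; ring
      calc ell (((a * ⟨t, Subgroup.subset_closure ht⟩ * a⁻¹ *
            (⟨t, Subgroup.subset_closure ht⟩ : Subgroup.closure (T : Set H))⁻¹ :
            Subgroup.closure (T : Set H))) : H) = ell ((a : H) * t * (a : H)⁻¹ * t⁻¹) := rfl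
        _ ≤ _ := h1.trans (h2.trans h5.le)
  refine ⟨⟨n0, ?_⟩⟩
  rw [eq_top_iff]
  rintro ⟨y, hy⟩ -
  induction hy using Subgroup.closure_induction with
  | mem x hx =>
    refine main n0 le_rfl _ ?_
    simpa using hT x hx
  | one => exact Subgroup.one_mem _
  | mul x y hx hy ihx ihy => exact Subgroup.mul_mem _ ihx ihy
  | inv x hx ihx => exact Subgroup.inv_mem _ ihx

end Pool.Agent.N558.WF
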